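import Mathlib

/-! The Sobolev space `H_0^1` of a bounded planar set, in terms of 1-jets. -/

set_option autoImplicit false
open MeasureTheory Topology Filter Set
open scoped ENNReal

namespace Pool.Agent.Helper61.KS

/-- values of 1-jets: `(v, v_x, v_y)` -/
abbrev F3 := EuclideanSpace ℝ (Fin 3)

/-- build a jet value -/
noncomputable def mk3 (a b c : ℝ) : F3 := !₂[a, b, c]

@[simp] theorem mk3_0 (a b c : ℝ) : mk3 a b c 0 = a := rfl
@[simp] theorem mk3_1 (a b c : ℝ) : mk3 a b c 1 = b := rfl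
@[simp] theorem mk3_2 (a b c : ℝ) : mk3 a b c 2 = c := rfl

theorem F3_ext {u v : F3} (h0 : u 0 = v 0) (h1 : u 1 = v 1) (h2 : u 2 = v 2) : u = v := by
  ext i; fin_cases i
  · exact h0
  · exact h1
  · exact h2

theorem F3_norm_sq (u : F3) : ‖u‖ ^ 2 = u 0 ^ 2 + u 1 ^ 2 + u 2 ^ 2 := by
  rw [EuclideanSpace.norm_sq_eq, Fin.sum_univ_three]
  simp [sq_abs]

theorem mk3_cont {α : Type*} [TopologicalSpace α] {a b c : α → ℝ} (ha : Continuous a)
    (hb : Continuous b) (hc : Continuous c) : Continuous fun x => mk3 (a x) (b x) (c x) := by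
  unfold mk3
  apply (PiLp.continuous_toLp 2 _).comp
  apply continuous_pi
  intro i
  fin_cases i
  · exact ha
  · exact hb
  · exact hc

/-- the 1-jet of a function -/
noncomputable def jet (v : ℂ → ℝ) (z : ℂ) : F3 :=
  mk3 (v z) (fderiv ℝ v z 1) (fderiv ℝ v z Complex.I)

/-- test functions -/
structure IsTest (Ω : Set ℂ) (v : ℂ → ℝ) : Prop where
  smooth : ContDiff ℝ 1 v
  comp : HasCompactSupport v
  supp : tsupport v ⊆ Ω

variable {Ω : Set ℂ}

theorem jet_cont {v : ℂ → ℝ} (h : ContDiff ℝ 1 v) : Continuous (jet v) := by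
  have h1 : Continuous (fderiv ℝ v) := h.continuous_fderiv (by norm_num)
  exact mk3_cont h.continuous (h1.clm_apply continuous_const) (h1.clm_apply continuous_const)

theorem jet_supp {v : ℂ → ℝ} {z : ℂ} (hz : z ∉ tsupport v) : jet v z = 0 := by
  have h0 : v z = 0 := image_eq_zero_of_notMem_tsupport hz
  have h1 : fderiv ℝ v z = 0 := by
    have : z ∉ tsupport (fderiv ℝ v) := fun h => hz (tsupport_fderiv_subset ℝ h)
    exact image_eq_zero_of_notMem_tsupport this
  apply F3_ext <;> simp [jet, h0, h1]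

theorem jet_compact {v : ℂ → ℝ} (h : HasCompactSupport v) : HasCompactSupport (jet v) := by
  refine HasCompactSupport.intro h (fun z hz => jet_supp hz)

theorem IsTest.memLp {v : ℂ → ℝ} (h : IsTest Ω v) : MemLp (jet v) 2 (volume.restrict Ω) :=
  ((jet_cont h.smooth).memLp_of_hasCompactSupport (jet_compact h.comp)).restrict Ω

theorem jet_add {v w : ℂ → ℝ} (hv : ContDiff ℝ 1 v) (hw : ContDiff ℝ 1 w) :
    jet (v + w) = jet v + jet w := by
  ext1 z
  have h1 : fderiv ℝ (v + w) z = fderiv ℝ v z + fderiv ℝ w z :=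
    fderiv_add (hv.differentiable (by norm_num) z) (hw.differentiable (by norm_num) z)
  apply F3_ext <;> simp [jet, h1]

theorem jet_smul {v : ℂ → ℝ} (c : ℝ) (hv : ContDiff ℝ 1 v) :
    jet (c • v) = c • jet v := by
  ext1 z
  have h1 : fderiv ℝ (c • v) z = c • fderiv ℝ v z :=
    fderiv_const_smul (hv.differentiable (by norm_num) z) c
  apply F3_ext <;> simp [jet, h1]

theorem IsTest.add {v w : ℂ → ℝ} (hv : IsTest Ω v) (hw : IsTest Ω w) : IsTest Ω (v + w) :=
  ⟨hv.smooth.add hw.smooth, hv.comp.add hw.comp,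
    (tsupport_add v w).trans (union_subset hv.supp hw.supp)⟩

theorem IsTest.smul {v : ℂ → ℝ} (c : ℝ) (hv : IsTest Ω v) : IsTest Ω (c • v) := by
  refine ⟨contDiff_const.smul hv.smooth, hv.comp.smul_left, ?_⟩
  refine subset_trans (closure_mono ?_) hv.supp
  intro z hz
  rw [Function.mem_support] at hz ⊢
  intro h; apply hz; simp [h]

theorem IsTest.zero : IsTest Ω (0 : ℂ → ℝ) :=
  ⟨contDiff_const, HasCompactSupport.zero, by simp [tsupport]⟩

/-- the space of jets of test functions -/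
noncomputable def core (Ω : Set ℂ) : Submodule ℝ (Lp F3 2 (volume.restrict Ω)) where
  carrier := {U | ∃ v, IsTest Ω v ∧ U =ᵐ[volume.restrict Ω] jet v}
  add_mem' := by
    rintro U V ⟨v, hv, hU⟩ ⟨w, hw, hV⟩
    refine ⟨v + w, hv.add hw, ?_⟩
    rw [jet_add hv.smooth hw.smooth]
    exact (Lp.coeFn_add U V).trans (hU.add hV)
  zero_mem' := by
    refine ⟨0, IsTest.zero, ?_⟩
    have : jet 0 = 0 := by
      ext1 z
      apply F3_ext <;> simp [jet]
    rw [this]
    exact Lp.coeFn_zero _ _ _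
  smul_mem' := by
    rintro c U ⟨v, hv, hU⟩
    refine ⟨c • v, hv.smul c, ?_⟩
    rw [jet_smul c hv.smooth]
    exact (Lp.coeFn_smul c U).trans (hU.const_smul c)

/-- the Sobolev space `H_0^1` -/
noncomputable def Hsub (Ω : Set ℂ) : Submodule ℝ (Lp F3 2 (volume.restrict Ω)) :=
  (core Ω).topologicalClosure

/-- function-level description -/
def InH (Ω : Set ℂ) (U : ℂ → F3) : Prop :=
  MemLp U 2 (volume.restrict Ω) ∧ ∃ v : ℕ → ℂ → ℝ, (∀ n, IsTest Ω (v n)) ∧
    Tendsto (fun n => eLpNorm (jet (v n) - U) 2 (volume.restrict Ω)) atTop (𝓝 0)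

theorem InH.congr {U V : ℂ → F3} (h : InH Ω U) (hUV : U =ᵐ[volume.restrict Ω] V) : InH Ω V := by
  obtain ⟨h1, v, hv, h2⟩ := h
  refine ⟨(memLp_congr_ae hUV).1 h1, v, hv, ?_⟩
  have : ∀ n, eLpNorm (jet (v n) - V) 2 (volume.restrict Ω)
      = eLpNorm (jet (v n) - U) 2 (volume.restrict Ω) := fun n =>
    eLpNorm_congr_ae (EventuallyEq.rfl.sub hUV.symm)
  simp_rw [this]
  exact h2

theorem mem_Hsub_iff (U : Lp F3 2 (volume.restrict Ω)) : U ∈ Hsub Ω ↔ InH Ω U := by
  unfold Hsub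
  rw [← SetLike.mem_coe, Submodule.topologicalClosure_coe, mem_closure_iff_seq_limit]
  constructor
  · rintro ⟨x, hx, hlim⟩
    choose v hv hxv using hx
    refine ⟨Lp.memLp U, v, hv, ?_⟩
    rw [Lp.tendsto_Lp_iff_tendsto_eLpNorm'] at hlim
    have : ∀ n, eLpNorm (jet (v n) - ⇑U) 2 (volume.restrict Ω)
        = eLpNorm (⇑(x n) - ⇑U) 2 (volume.restrict Ω) := fun n =>
      eLpNorm_congr_ae ((hxv n).symm.sub EventuallyEq.rfl)
    simp_rw [this]
    exact hlim
  · rintro ⟨h1, v, hv, h2⟩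
    refine ⟨fun n => (hv n).memLp.toLp _, fun n => ⟨v n, hv n, (hv n).memLp.coeFn_toLp⟩, ?_⟩
    rw [Lp.tendsto_Lp_iff_tendsto_eLpNorm']
    have : ∀ n, eLpNorm (⇑((hv n).memLp.toLp _) - ⇑U) 2 (volume.restrict Ω)
        = eLpNorm (jet (v n) - ⇑U) 2 (volume.restrict Ω) := fun n =>
      eLpNorm_congr_ae ((hv n).memLp.coeFn_toLp.sub EventuallyEq.rfl)
    simp_rw [this]
    exact h2

theorem InH.mem {U : ℂ → F3} (h : InH Ω U) : h.1.toLp U ∈ Hsub Ω := by
  rw [mem_Hsub_iff]
  exact h.congr (MemLp.coeFn_toLp _).symm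

theorem IsTest.inH {v : ℂ → ℝ} (h : IsTest Ω v) : InH Ω (jet v) := by
  refine ⟨h.memLp, fun _ => v, fun _ => h, ?_⟩
  simp

theorem InH.add {U V : ℂ → F3} (hU : InH Ω U) (hV : InH Ω V) : InH Ω (U + V) := by
  have := (Hsub Ω).add_mem hU.mem hV.mem
  rw [mem_Hsub_iff] at this
  exact this.congr ((Lp.coeFn_add _ _).trans ((MemLp.coeFn_toLp _).add (MemLp.coeFn_toLp _)))

theorem InH.smul {U : ℂ → F3} (c : ℝ) (hU : InH Ω U) : InH Ω (c • U) := by
  have := (Hsub Ω).smul_mem c hU.mem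
  rw [mem_Hsub_iff] at this
  exact this.congr ((Lp.coeFn_smul _ _).trans ((MemLp.coeFn_toLp _).const_smul c))

/-- closedness of `InH` -/
theorem InH.of_tendsto {U : ℂ → F3} {V : ℕ → ℂ → F3} (hV : ∀ n, InH Ω (V n))
    (hU : MemLp U 2 (volume.restrict Ω))
    (h : Tendsto (fun n => eLpNorm (V n - U) 2 (volume.restrict Ω)) atTop (𝓝 0)) : InH Ω U := by
  have h1 : Tendsto (fun n => (hV n).1.toLp (V n)) atTop (𝓝 (hU.toLp U)) := by
    rw [Lp.tendsto_Lp_iff_tendsto_eLpNorm'']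
    exact h
  have h2 : hU.toLp U ∈ Hsub Ω :=
    (core Ω).isClosed_topologicalClosure.mem_of_tendsto h1
      (Eventually.of_forall fun n => (hV n).mem)
  rw [mem_Hsub_iff] at h2
  exact h2.congr (MemLp.coeFn_toLp _)

/-- Nemytskii continuity along sequences with finite measure. -/
theorem nemytskii {μ : Measure ℂ} [IsFiniteMeasure μ] {Ψ : ℂ → F3 → F3}
    (hc : Continuous fun p : ℂ × F3 => Ψ p.1 p.2) {C : ℝ} (hb : ∀ z u, ‖Ψ z u‖ ≤ C * ‖u‖)
    {f : ℕ → ℂ → F3} {g : ℂ → F3} (hf : ∀ n, MemLp (f n) 2 μ) (hg : MemLp g 2 μ)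
    (h : Tendsto (fun n => eLpNorm (f n - g) 2 μ) atTop (𝓝 0)) :
    MemLp (fun z => Ψ z (g z)) 2 μ ∧
    Tendsto (fun n => eLpNorm ((fun z => Ψ z (f n z)) - fun z => Ψ z (g z)) 2 μ) atTop (𝓝 0) := by
  have hmeas : ∀ k : ℂ → F3, AEStronglyMeasurable k μ →
      AEStronglyMeasurable (fun z => Ψ z (k z)) μ := fun k hk =>
    hc.comp_aestronglyMeasurable (aestronglyMeasurable_id.prodMk hk)
  have hmem : ∀ k : ℂ → F3, MemLp k 2 μ → MemLp (fun z => Ψ z (k z)) 2 μ := fun k hk =>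
    MemLp.of_le_mul (c := C) hk (hmeas k hk.1) (Eventually.of_forall fun z => hb z (k z))
  refine ⟨hmem g hg, ?_⟩
  have hui : UnifIntegrable f 2 μ :=
    unifIntegrable_of_tendsto_Lp (by norm_num) (by norm_num) hf hg h
  have hui' : UnifIntegrable (fun n z => Ψ z (f n z)) 2 μ := by
    intro ε hε
    have hC : 0 < |C| + 1 := by positivity
    obtain ⟨δ, hδ, hδ'⟩ := hui (ε := ε / (|C| + 1)) (by positivity)
    refine ⟨δ, hδ, fun n s hs hμs => ?_⟩
    have h1 : eLpNorm (s.indicator fun z => Ψ z (f n z)) 2 μ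
        ≤ ENNReal.ofReal (|C| + 1) * eLpNorm (s.indicator (f n)) 2 μ := by
      apply eLpNorm_le_mul_eLpNorm_of_ae_le_mul
      refine Eventually.of_forall fun z => ?_
      by_cases hz : z ∈ s
      · rw [indicator_of_mem hz, indicator_of_mem hz]
        refine (hb z _).trans ?_
        have : C ≤ |C| + 1 := by linarith [le_abs_self C]
        exact mul_le_mul_of_nonneg_right this (norm_nonneg _)
      · rw [indicator_of_notMem hz, indicator_of_notMem hz]; simp
    refine h1.trans ?_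
    calc ENNReal.ofReal (|C| + 1) * eLpNorm (s.indicator (f n)) 2 μ
        ≤ ENNReal.ofReal (|C| + 1) * ENNReal.ofReal (ε / (|C| + 1)) := by
          gcongr; exact hδ' n s hs hμs
      _ = ENNReal.ofReal ε := by
          rw [← ENNReal.ofReal_mul (by positivity)]
          congr 1; field_simp
  refine tendsto_Lp_finite_of_tendstoInMeasure (by norm_num) (by norm_num)
    (fun n => hmeas _ (hf n).1) (hmem g hg) hui' ?_
  have hm : TendstoInMeasure μ f atTop g :=
    tendstoInMeasure_of_tendsto_eLpNorm (by norm_num) (fun n => (hf n).1) hg.1 h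
  rw [tendstoInMeasure_iff_norm]
  -- use subsequences
  have hsub : TendstoInMeasure μ (fun n z => Ψ z (f n z)) atTop fun z => Ψ z (g z) := by
    rw [exists_seq_tendstoInMeasure_atTop_iff (fun n => hmeas _ (hf n).1)]
    intro ns hns
    obtain ⟨ms, hms, hms'⟩ := TendstoInMeasure.exists_seq_tendsto_ae
      (show TendstoInMeasure μ (fun n => f (ns n)) atTop g from hm.comp hns.tendsto_atTop)
    refine ⟨ms, hms, ?_⟩
    filter_upwards [hms'] with z hz
    have : Continuous fun u : F3 => Ψ z u := hc.comp (by fun_prop : Continuous fun u : F3 => (z, u))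
    exact (this.tendsto _).comp hz
  rwa [tendstoInMeasure_iff_norm] at hsub

end Pool.Agent.Helper61.KS
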