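import Mathlib
import Pool.Agent.Helper61.KS.Sob

/-! Chain and product rules in `H_0^1`. -/

set_option autoImplicit false
open MeasureTheory Topology Filter Set
open scoped ENNReal

namespace Pool.Agent.Helper61.KS

variable {Ω : Set ℂ}

/-- Composition with a jointly continuous fibrewise map. -/
theorem InH.comp (hfin : volume Ω ≠ ∞) {Ψ : ℂ → F3 → F3}
    (hc : Continuous fun p : ℂ × F3 => Ψ p.1 p.2) {C : ℝ} (hb : ∀ z u, ‖Ψ z u‖ ≤ C * ‖u‖)
    (hj : ∀ v, IsTest Ω v → ∃ w, IsTest Ω w ∧ ∀ z, Ψ z (jet v z) = jet w z)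
    {U : ℂ → F3} (hU : InH Ω U) : InH Ω (fun z => Ψ z (U z)) := by
  have : IsFiniteMeasure (volume.restrict Ω) := ⟨by
    rw [Measure.restrict_apply_univ]; exact lt_top_iff_ne_top.2 hfin⟩
  obtain ⟨h1, v, hv, h2⟩ := hU
  obtain ⟨h3, h4⟩ := nemytskii hc hb (fun n => (hv n).memLp) h1 h2
  choose w hw hjw using fun n => hj (v n) (hv n)
  refine ⟨h3, w, hw, ?_⟩
  have : ∀ n, jet (w n) = fun z => Ψ z (jet (v n) z) := fun n => funext fun z => (hjw n z).symm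
  simp_rw [this]
  exact h4

/-- the jet chain map -/
noncomputable def chn (Φ : ℝ → ℝ) (u : F3) : F3 :=
  mk3 (Φ (u 0)) (deriv Φ (u 0) * u 1) (deriv Φ (u 0) * u 2)

theorem jet_chn {Φ : ℝ → ℝ} (hΦ : ContDiff ℝ 1 Φ) {v : ℂ → ℝ} (hv : ContDiff ℝ 1 v) (z : ℂ) :
    chn Φ (jet v z) = jet (Φ ∘ v) z := by
  have h1 : fderiv ℝ (Φ ∘ v) z = deriv Φ (v z) • fderiv ℝ v z := by
    have hd : HasDerivAt Φ (deriv Φ (v z)) (v z) :=
      (hΦ.differentiable (by norm_num) _).hasDerivAt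
    exact (hd.comp_hasFDerivAt z (hv.differentiable (by norm_num) z).hasFDerivAt).fderiv
  apply F3_ext <;> simp [chn, jet, h1]

theorem cont0 (i : Fin 3) : Continuous fun u : F3 => u i := by fun_prop

theorem InH.chain (hfin : volume Ω ≠ ∞) {Φ : ℝ → ℝ} (hΦ : ContDiff ℝ 1 Φ) (h0 : Φ 0 = 0)
    {C : ℝ} (hC : ∀ t, |deriv Φ t| ≤ C) {U : ℂ → F3} (hU : InH Ω U) :
    InH Ω (fun z => chn Φ (U z)) := by
  have hC0 : 0 ≤ C := (abs_nonneg _).trans (hC 0)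
  have hcd : Continuous (deriv Φ) := hΦ.continuous_deriv (by norm_num)
  refine hU.comp hfin (Ψ := fun _ u => chn Φ u) ?_ (C := C) ?_ ?_
  · have : Continuous (chn Φ) := by
      apply mk3_cont
      · exact hΦ.continuous.comp (cont0 0)
      · exact (hcd.comp (cont0 0)).mul (cont0 1)
      · exact (hcd.comp (cont0 0)).mul (cont0 2)
    exact this.comp continuous_snd
  · intro _ u
    have h1 : |Φ (u 0)| ≤ C * |u 0| := by
      have := Convex.norm_image_sub_le_of_norm_deriv_le (f := Φ) (s := univ) (x := 0) (y := u 0)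
        (fun x _ => hΦ.differentiable (by norm_num) x) (fun x _ => hC x) convex_univ trivial trivial
      simpa [h0] using this
    apply le_of_sq_le_sq _ (by positivity)
    rw [mul_pow, F3_norm_sq, F3_norm_sq]
    have h2 : Φ (u 0) ^ 2 ≤ C ^ 2 * (u 0) ^ 2 := by
      have := pow_le_pow_left₀ (abs_nonneg _) h1 2
      rwa [mul_pow, sq_abs, sq_abs] at this
    have h3 : deriv Φ (u 0) ^ 2 ≤ C ^ 2 := by
      have := pow_le_pow_left₀ (abs_nonneg _) (hC (u 0)) 2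
      rwa [sq_abs] at this
    simp only [chn, mk3_0, mk3_1, mk3_2, mul_pow]
    nlinarith [sq_nonneg (u 1), sq_nonneg (u 2)]
  · intro v hv
    refine ⟨Φ ∘ v, ⟨hΦ.comp hv.smooth, hv.comp.comp_left h0, ?_⟩, fun z => jet_chn hΦ hv.smooth z⟩
    refine subset_trans (closure_mono ?_) hv.supp
    intro z hz
    rw [Function.mem_support] at hz ⊢
    intro h; apply hz; simp [h, h0]

/-- multiplication of jets -/
noncomputable def mlt (φ : ℂ → ℝ) (z : ℂ) (u : F3) : F3 :=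
  mk3 (φ z * u 0) (φ z * u 1 + fderiv ℝ φ z 1 * u 0) (φ z * u 2 + fderiv ℝ φ z Complex.I * u 0)

theorem jet_mlt {φ v : ℂ → ℝ} (hφ : ContDiff ℝ 1 φ) (hv : ContDiff ℝ 1 v) (z : ℂ) :
    mlt φ z (jet v z) = jet (φ * v) z := by
  have h1 : fderiv ℝ (φ * v) z = φ z • fderiv ℝ v z + v z • fderiv ℝ φ z :=
    fderiv_mul (hφ.differentiable (by norm_num) z) (hv.differentiable (by norm_num) z)
  apply F3_ext <;> simp [mlt, jet, h1] <;> ring

theorem mlt_bound {φ : ℂ → ℝ} {C : ℝ} (h0 : ∀ z, |φ z| ≤ C) (h1 : ∀ z, |fderiv ℝ φ z 1| ≤ C)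
    (h2 : ∀ z, |fderiv ℝ φ z Complex.I| ≤ C) (z : ℂ) (u : F3) : ‖mlt φ z u‖ ≤ 3 * C * ‖u‖ := by
  have hC0 : 0 ≤ C := (abs_nonneg _).trans (h0 0)
  apply le_of_sq_le_sq _ (by positivity)
  rw [mul_pow, F3_norm_sq, F3_norm_sq]
  have e0 : φ z ^ 2 ≤ C ^ 2 := by
    have := pow_le_pow_left₀ (abs_nonneg _) (h0 z) 2
    rwa [sq_abs] at this
  have e1 : fderiv ℝ φ z 1 ^ 2 ≤ C ^ 2 := by
    have := pow_le_pow_left₀ (abs_nonneg _) (h1 z) 2
    rwa [sq_abs] at this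
  have e2 : fderiv ℝ φ z Complex.I ^ 2 ≤ C ^ 2 := by
    have := pow_le_pow_left₀ (abs_nonneg _) (h2 z) 2
    rwa [sq_abs] at this
  simp only [mlt, mk3_0, mk3_1, mk3_2]
  have a1 : (φ z * u 0) ^ 2 ≤ C ^ 2 * u 0 ^ 2 := by
    rw [mul_pow]; exact mul_le_mul_of_nonneg_right e0 (sq_nonneg _)
  have a2 : (φ z * u 1 + fderiv ℝ φ z 1 * u 0) ^ 2 ≤ 2 * (C ^ 2 * u 1 ^ 2 + C ^ 2 * u 0 ^ 2) := by
    have b1 := mul_le_mul_of_nonneg_right e0 (sq_nonneg (u 1))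
    have b2 := mul_le_mul_of_nonneg_right e1 (sq_nonneg (u 0))
    nlinarith [sq_nonneg (φ z * u 1 - fderiv ℝ φ z 1 * u 0)]
  have a3 : (φ z * u 2 + fderiv ℝ φ z Complex.I * u 0) ^ 2
      ≤ 2 * (C ^ 2 * u 2 ^ 2 + C ^ 2 * u 0 ^ 2) := by
    have b1 := mul_le_mul_of_nonneg_right e0 (sq_nonneg (u 2))
    have b2 := mul_le_mul_of_nonneg_right e2 (sq_nonneg (u 0))
    nlinarith [sq_nonneg (φ z * u 2 - fderiv ℝ φ z Complex.I * u 0)]
  nlinarith [mul_nonneg (sq_nonneg C) (sq_nonneg (u 0)), mul_nonneg (sq_nonneg C) (sq_nonneg (u 1)),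
    mul_nonneg (sq_nonneg C) (sq_nonneg (u 2))]

theorem bdd_of_compact {φ : ℂ → ℝ} (hφ : ContDiff ℝ 1 φ) (hs : HasCompactSupport φ) :
    ∃ C : ℝ, (∀ z, |φ z| ≤ C) ∧ (∀ z, |fderiv ℝ φ z 1| ≤ C) ∧
      (∀ z, |fderiv ℝ φ z Complex.I| ≤ C) := by
  obtain ⟨C, hC⟩ := (jet_compact hs).exists_bound_of_continuous (jet_cont hφ)
  refine ⟨C, fun z => ?_, fun z => ?_, fun z => ?_⟩
  · exact (show |φ z| ≤ ‖jet φ z‖ from PiLp.norm_apply_le (jet φ z) 0).trans (hC z)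
  · exact (show |fderiv ℝ φ z 1| ≤ ‖jet φ z‖ from
      PiLp.norm_apply_le (jet φ z) 1).trans (hC z)
  · exact (show |fderiv ℝ φ z Complex.I| ≤ ‖jet φ z‖ from
      PiLp.norm_apply_le (jet φ z) 2).trans (hC z)

theorem InH.mul (hfin : volume Ω ≠ ∞) {φ : ℂ → ℝ} (hφ : ContDiff ℝ 1 φ)
    (hs : HasCompactSupport φ) {U : ℂ → F3} (hU : InH Ω U) :
    InH Ω (fun z => mlt φ z (U z)) := by
  obtain ⟨C, h0, h1, h2⟩ := bdd_of_compact hφ hs
  have hcd : Continuous (fderiv ℝ φ) := hφ.continuous_fderiv (by norm_num)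
  refine hU.comp hfin (Ψ := mlt φ) ?_ (C := 3 * C) (mlt_bound h0 h1 h2) ?_
  · have f0 : Continuous fun p : ℂ × F3 => φ p.1 := hφ.continuous.comp continuous_fst
    have f1 : Continuous fun p : ℂ × F3 => fderiv ℝ φ p.1 1 :=
      (hcd.comp continuous_fst).clm_apply continuous_const
    have f2 : Continuous fun p : ℂ × F3 => fderiv ℝ φ p.1 Complex.I :=
      (hcd.comp continuous_fst).clm_apply continuous_const
    have g : ∀ i : Fin 3, Continuous fun p : ℂ × F3 => p.2 i := fun i =>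
      (cont0 i).comp continuous_snd
    exact mk3_cont (f0.mul (g 0)) ((f0.mul (g 1)).add (f1.mul (g 0)))
      ((f0.mul (g 2)).add (f2.mul (g 0)))
  · intro v hv
    refine ⟨φ * v, ⟨hφ.mul hv.smooth, hv.comp.mul_left, ?_⟩, fun z => jet_mlt hφ hv.smooth z⟩
    refine subset_trans (closure_mono ?_) hv.supp
    intro z hz
    rw [Function.mem_support] at hz ⊢
    intro h; apply hz; simp [h]

end Pool.Agent.Helper61.KS
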