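import Mathlib
import Pool.Agent.Helper61.KS.Chain

/-! Integration by parts, the divergence-free drift, and the Poincare inequality. -/

set_option autoImplicit false
open MeasureTheory Topology Filter Set
open scoped ENNReal

namespace Pool.Agent.Helper61.KS

theorem integral_fderiv_zero {F : Type*} [NormedAddCommGroup F] [NormedSpace ℝ F]
    {w : ℂ → F} (hw : ContDiff ℝ 1 w) (hs : HasCompactSupport w) (e : ℂ) :
    ∫ z, fderiv ℝ w z e = 0 := by
  have hcd : Continuous (fun z => fderiv ℝ w z e) :=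
    (hw.continuous_fderiv (by norm_num)).clm_apply continuous_const
  have hsd : HasCompactSupport (fun z => fderiv ℝ w z e) :=
    hs.fderiv_apply (𝕜 := ℝ) e
  have h := integral_smul_fderiv_eq_neg_fderiv_smul_of_integrable (𝕜 := ℝ) (μ := (volume : Measure ℂ))
    (f := fun _ : ℂ => (1 : ℝ)) (g := w) (v := e) ?_ ?_ ?_ ?_ ?_
  · simpa using h
  · simp
  · simpa using hcd.integrable_of_hasCompactSupport hsd
  · simpa using hw.continuous.integrable_of_hasCompactSupport hs
  · intro x _; fun_prop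
  · intro x _; exact hw.differentiable (by norm_num) x

variable {Ω : Set ℂ}

theorem contDiff_mul_supp {k v : ℂ → ℂ} (hΩ : IsOpen Ω) (hk : ContDiffOn ℝ 1 k Ω)
    (hv : ContDiff ℝ 1 v) (hs : tsupport v ⊆ Ω) : ContDiff ℝ 1 (fun z => k z * v z) := by
  rw [contDiff_iff_contDiffAt]
  intro z
  by_cases hz : z ∈ Ω
  · exact ((hk z hz).contDiffAt (hΩ.mem_nhds hz)).mul hv.contDiffAt
  · have hz' : z ∉ tsupport v := fun h => hz (hs h)
    have : (fun z => k z * v z) =ᶠ[𝓝 z] fun _ => 0 := by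
      have h1 : v =ᶠ[𝓝 z] 0 := notMem_tsupport_iff_eventuallyEq.1 hz'
      filter_upwards [h1] with y hy
      simp [hy]
    exact contDiffAt_const.congr_of_eventuallyEq this

/-- `∫ k (v_x + i v_y) = 0` for holomorphic `k` -/
theorem holo_ibp {k v : ℂ → ℂ} (hΩ : IsOpen Ω) (hk : DifferentiableOn ℂ k Ω)
    (hv : ContDiff ℝ 1 v) (hc : HasCompactSupport v) (hs : tsupport v ⊆ Ω) :
    Integrable (fun z => k z * (fderiv ℝ v z 1 + Complex.I * fderiv ℝ v z Complex.I)) ∧
    ∫ z, k z * (fderiv ℝ v z 1 + Complex.I * fderiv ℝ v z Complex.I) = 0 := by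
  have hk1 : ContDiffOn ℝ 1 k Ω := ((hk.contDiffOn hΩ).restrict_scalars ℝ)
  have hw : ContDiff ℝ 1 (fun z => k z * v z) := contDiff_mul_supp hΩ hk1 hv hs
  have hwc : HasCompactSupport (fun z => k z * v z) := hc.mul_left
  have h1 := integral_fderiv_zero hw hwc 1
  have h2 := integral_fderiv_zero hw hwc Complex.I
  have hcd : ∀ e : ℂ, Continuous (fun z => fderiv ℝ (fun z => k z * v z) z e) := fun e =>
    (hw.continuous_fderiv (by norm_num)).clm_apply continuous_const
  have hsd : ∀ e : ℂ, HasCompactSupport (fun z => fderiv ℝ (fun z => k z * v z) z e) := fun e =>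
    hwc.fderiv_apply (𝕜 := ℝ) e
  have key : ∀ z, k z * (fderiv ℝ v z 1 + Complex.I * fderiv ℝ v z Complex.I)
      = fderiv ℝ (fun z => k z * v z) z 1 + Complex.I * fderiv ℝ (fun z => k z * v z) z Complex.I := by
    intro z
    by_cases hz : z ∈ Ω
    · have hkd : HasDerivAt k (deriv k z) z := (hk.differentiableAt (hΩ.mem_nhds hz)).hasDerivAt
      have hkr : HasFDerivAt k ((ContinuousLinearMap.toSpanSingleton ℂ (deriv k z)).restrictScalars ℝ) z :=
        hkd.hasFDerivAt.restrictScalars ℝ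
      have hvr : HasFDerivAt v (fderiv ℝ v z) z := (hv.differentiable (by norm_num) z).hasFDerivAt
      have hm := (hkr.mul hvr).fderiv
      have e : (fun z => k z * v z) = k * v := rfl
      rw [e, hm]
      simp
      ring_nf
      simp
    · have hz' : z ∉ tsupport v := fun h => hz (hs h)
      have h1 : fderiv ℝ v z = 0 :=
        image_eq_zero_of_notMem_tsupport fun h => hz' (tsupport_fderiv_subset ℝ h)
      have h2 : fderiv ℝ (fun z => k z * v z) z = 0 := by
        have : (fun z => k z * v z) =ᶠ[𝓝 z] fun _ => 0 := by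
          have h1 : v =ᶠ[𝓝 z] 0 := notMem_tsupport_iff_eventuallyEq.1 hz'
          filter_upwards [h1] with y hy
          simp [hy]
        rw [this.fderiv_eq]; simp
      simp [h1, h2]
  simp_rw [key]
  refine ⟨((hcd 1).integrable_of_hasCompactSupport (hsd 1)).add
    (((hcd Complex.I).integrable_of_hasCompactSupport (hsd Complex.I)).const_mul _), ?_⟩
  rw [integral_add, integral_const_mul, h1, h2]
  · simp
  · exact (hcd 1).integrable_of_hasCompactSupport (hsd 1)
  · exact ((hcd Complex.I).integrable_of_hasCompactSupport (hsd Complex.I)).const_mul _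

/-! ### `L^2` convergence of real functions -/

/-- `L^2` convergence -/
structure L2T (μ : Measure ℂ) (f : ℕ → ℂ → ℝ) (g : ℂ → ℝ) : Prop where
  mf : ∀ n, MemLp (f n) 2 μ
  mg : MemLp g 2 μ
  lim : Tendsto (fun n => eLpNorm (f n - g) 2 μ) atTop (𝓝 0)

theorem L2T.const {μ : Measure ℂ} {g : ℂ → ℝ} (h : MemLp g 2 μ) : L2T μ (fun _ => g) g :=
  ⟨fun _ => h, h, by simp⟩

theorem L2T.tendsto {μ : Measure ℂ} {f : ℕ → ℂ → ℝ} {g : ℂ → ℝ} (h : L2T μ f g) :
    Tendsto (fun n => (h.mf n).toLp (f n)) atTop (𝓝 (h.mg.toLp g)) := by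
  rw [Lp.tendsto_Lp_iff_tendsto_eLpNorm'']
  exact h.lim

theorem inner_toLp {μ : Measure ℂ} {f g : ℂ → ℝ} (hf : MemLp f 2 μ) (hg : MemLp g 2 μ) :
    inner ℝ (hf.toLp f) (hg.toLp g) = ∫ z, f z * g z ∂μ := by
  rw [L2.inner_def]
  apply integral_congr_ae
  filter_upwards [hf.coeFn_toLp, hg.coeFn_toLp] with z h1 h2
  rw [h1, h2]
  simp [mul_comm]

theorem L2T.integral_mul {μ : Measure ℂ} {f f' : ℕ → ℂ → ℝ} {g g' : ℂ → ℝ} (h : L2T μ f g)
    (h' : L2T μ f' g') :
    Tendsto (fun n => ∫ z, f n z * f' n z ∂μ) atTop (𝓝 (∫ z, g z * g' z ∂μ)) := by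
  have := h.tendsto.inner (𝕜 := ℝ) h'.tendsto
  simpa only [inner_toLp] using this

theorem L2T.bmul {μ : Measure ℂ} {f : ℕ → ℂ → ℝ} {g b : ℂ → ℝ} (h : L2T μ f g)
    (hb : AEStronglyMeasurable b μ) {C : ℝ} (hC : ∀ᵐ z ∂μ, |b z| ≤ C) :
    L2T μ (fun n z => b z * f n z) (fun z => b z * g z) := by
  have hm : ∀ k : ℂ → ℝ, MemLp k 2 μ → MemLp (fun z => b z * k z) 2 μ := fun k hk =>
    MemLp.of_le_mul (c := C) hk (hb.mul hk.1) (by
      filter_upwards [hC] with z hz
      rw [norm_mul]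
      exact mul_le_mul_of_nonneg_right hz (norm_nonneg _))
  refine ⟨fun n => hm _ (h.mf n), hm _ h.mg, ?_⟩
  have hle : ∀ n, eLpNorm ((fun z => b z * f n z) - fun z => b z * g z) 2 μ
      ≤ ENNReal.ofReal C * eLpNorm (f n - g) 2 μ := by
    intro n
    apply eLpNorm_le_mul_eLpNorm_of_ae_le_mul
    filter_upwards [hC] with z hz
    have : ((fun z => b z * f n z) - fun z => b z * g z) z = b z * (f n - g) z := by
      simp [mul_sub]
    rw [this, norm_mul]
    exact mul_le_mul_of_nonneg_right hz (norm_nonneg _)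
  have ht : Tendsto (fun n => ENNReal.ofReal C * eLpNorm (f n - g) 2 μ) atTop (𝓝 0) := by
    have := ENNReal.Tendsto.const_mul (a := ENNReal.ofReal C) h.lim (Or.inr ENNReal.ofReal_ne_top)
    simpa using this
  exact tendsto_of_tendsto_of_tendsto_of_le_of_le tendsto_const_nhds ht (fun _ => bot_le) hle

theorem L2T.add {μ : Measure ℂ} {f f' : ℕ → ℂ → ℝ} {g g' : ℂ → ℝ} (h : L2T μ f g)
    (h' : L2T μ f' g') : L2T μ (fun n z => f n z + f' n z) (fun z => g z + g' z) := by
  refine ⟨fun n => (h.mf n).add (h'.mf n), h.mg.add h'.mg, ?_⟩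
  have hle : ∀ n, eLpNorm ((fun z => f n z + f' n z) - fun z => g z + g' z) 2 μ
      ≤ eLpNorm (f n - g) 2 μ + eLpNorm (f' n - g') 2 μ := by
    intro n
    have e : ((fun z => f n z + f' n z) - fun z => g z + g' z) = (f n - g) + (f' n - g') := by
      ext z; simp; ring
    rw [e]
    exact eLpNorm_add_le ((h.mf n).1.sub h.mg.1) ((h'.mf n).1.sub h'.mg.1) (by norm_num)
  have ht := h.lim.add h'.lim
  rw [add_zero] at ht
  exact tendsto_of_tendsto_of_tendsto_of_le_of_le tendsto_const_nhds ht (fun _ => bot_le) hle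

/-- components of an `L^2` convergent sequence of jets -/
theorem comp_L2T {μ : Measure ℂ} {f : ℕ → ℂ → F3} {g : ℂ → F3} (hf : ∀ n, MemLp (f n) 2 μ)
    (hg : MemLp g 2 μ) (h : Tendsto (fun n => eLpNorm (f n - g) 2 μ) atTop (𝓝 0)) (i : Fin 3) :
    L2T μ (fun n z => f n z i) (fun z => g z i) := by
  have hm : ∀ k : ℂ → F3, MemLp k 2 μ → MemLp (fun z => k z i) 2 μ := fun k hk =>
    MemLp.of_le hk ((cont0 i).comp_aestronglyMeasurable hk.1)
      (Eventually.of_forall fun z => PiLp.norm_apply_le (k z) i)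
  refine ⟨fun n => hm _ (hf n), hm _ hg, ?_⟩
  refine tendsto_of_tendsto_of_tendsto_of_le_of_le tendsto_const_nhds h (fun _ => bot_le) ?_
  intro n
  apply eLpNorm_mono
  intro z
  exact PiLp.norm_apply_le (f n z - g z) i

/-- approximating sequence of an element of `H_0^1` -/
theorem InH.approx {U : ℂ → F3} (hU : InH Ω U) : ∃ v : ℕ → ℂ → ℝ, (∀ n, IsTest Ω (v n)) ∧
    ∀ i : Fin 3, L2T (volume.restrict Ω) (fun n z => jet (v n) z i) (fun z => U z i) := by
  obtain ⟨h1, v, hv, h2⟩ := hU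
  exact ⟨v, hv, fun i => comp_L2T (fun n => (hv n).memLp) h1 h2 i⟩

theorem InH.memLp_comp {U : ℂ → F3} (hU : InH Ω U) (i : Fin 3) :
    MemLp (fun z => U z i) 2 (volume.restrict Ω) := by
  obtain ⟨v, _, h⟩ := hU.approx
  exact (h i).mg

/-- a bounded measurable vector field on `Ω`, divergence-free in the weak sense -/
structure DivFree (Ω : Set ℂ) (c1 c2 : ℂ → ℝ) : Prop where
  m1 : AEStronglyMeasurable c1 (volume.restrict Ω)
  m2 : AEStronglyMeasurable c2 (volume.restrict Ω)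
  bdd : ∃ C : ℝ, (∀ᵐ z ∂(volume.restrict Ω), |c1 z| ≤ C) ∧ (∀ᵐ z ∂(volume.restrict Ω), |c2 z| ≤ C)
  div : ∀ v, IsTest Ω v → ∫ z in Ω, (c1 z * fderiv ℝ v z 1 + c2 z * fderiv ℝ v z Complex.I) = 0

theorem DivFree.inH {c1 c2 : ℂ → ℝ} (hfin : volume Ω ≠ ∞) (hc : DivFree Ω c1 c2) {U : ℂ → F3}
    (hU : InH Ω U) : ∫ z in Ω, (c1 z * U z 1 + c2 z * U z 2) = 0 := by
  have : IsFiniteMeasure (volume.restrict Ω) := ⟨by
    rw [Measure.restrict_apply_univ]; exact lt_top_iff_ne_top.2 hfin⟩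
  obtain ⟨v, hv, h⟩ := hU.approx
  obtain ⟨C, h1, h2⟩ := hc.bdd
  have hone : L2T (volume.restrict Ω) (fun _ _ => (1 : ℝ)) (fun _ => (1 : ℝ)) :=
    L2T.const (memLp_const 1)
  have hsum := ((h 1).bmul hc.m1 h1).add ((h 2).bmul hc.m2 h2)
  have hlim := hsum.integral_mul hone
  simp only [mul_one] at hlim
  have hz : ∀ n, ∫ z in Ω, (c1 z * jet (v n) z 1 + c2 z * jet (v n) z 2) = 0 := fun n =>
    hc.div (v n) (hv n)
  simp_rw [hz] at hlim
  exact tendsto_nhds_unique hlim tendsto_const_nhds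

theorem integral_restrict_supp {f : ℂ → ℝ} {s : Set ℂ} (h : ∀ z, z ∉ s → f z = 0) :
    ∫ z in s, f z = ∫ z, f z := by
  apply setIntegral_eq_integral_of_forall_compl_eq_zero
  exact h

/-- the drift of a bounded holomorphic function -/
theorem divFree_holo {k : ℂ → ℂ} (hΩ : IsOpen Ω) (hk : DifferentiableOn ℂ k Ω) {C : ℝ}
    (hC : ∀ z ∈ Ω, ‖k z‖ ≤ C) : DivFree Ω (fun z => (k z).re) (fun z => -(k z).im) := by
  have hkm : AEStronglyMeasurable k (volume.restrict Ω) :=
    hk.continuousOn.aestronglyMeasurable hΩ.measurableSet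
  refine ⟨Complex.continuous_re.comp_aestronglyMeasurable hkm,
    (Complex.continuous_im.comp_aestronglyMeasurable hkm).neg, ⟨C, ?_, ?_⟩, ?_⟩
  · filter_upwards [ae_restrict_mem hΩ.measurableSet] with z hz
    exact (Complex.abs_re_le_norm _).trans (hC z hz)
  · filter_upwards [ae_restrict_mem hΩ.measurableSet] with z hz
    rw [abs_neg]
    exact (Complex.abs_im_le_norm _).trans (hC z hz)
  · intro v hv
    have hvc : ContDiff ℝ 1 (fun z => (v z : ℂ)) := Complex.ofRealCLM.contDiff.comp hv.smooth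
    have hvs : tsupport (fun z => (v z : ℂ)) ⊆ Ω := by
      refine subset_trans (closure_mono ?_) hv.supp
      intro z hz
      rw [Function.mem_support] at hz ⊢
      intro h; apply hz; simp [h]
    have hvcomp : HasCompactSupport (fun z => (v z : ℂ)) :=
      hv.comp.comp_left (g := fun x : ℝ => (x : ℂ)) (by simp)
    obtain ⟨hint, h⟩ := holo_ibp hΩ hk hvc hvcomp hvs
    have hfd : ∀ z e, fderiv ℝ (fun z => (v z : ℂ)) z e = ((fderiv ℝ v z e : ℝ) : ℂ) := by
      intro z e
      have h1 : HasFDerivAt v (fderiv ℝ v z) z :=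
        (hv.smooth.differentiable (by norm_num) z).hasFDerivAt
      have h2 := (Complex.ofRealCLM.hasFDerivAt (x := v z)).comp z h1
      have h3 : fderiv ℝ (fun z => (v z : ℂ)) z = Complex.ofRealCLM.comp (fderiv ℝ v z) := h2.fderiv
      rw [h3]; rfl
    simp_rw [hfd] at h hint
    have hre := congrArg Complex.re h
    have e1 := integral_re hint
    have e2 : ∫ z, ((k z).re * fderiv ℝ v z 1 + -(k z).im * fderiv ℝ v z Complex.I) = 0 := by
      have : ∀ z, (k z).re * fderiv ℝ v z 1 + -(k z).im * fderiv ℝ v z Complex.I =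
          RCLike.re (k z * (((fderiv ℝ v z 1 : ℝ) : ℂ)
            + Complex.I * ((fderiv ℝ v z Complex.I : ℝ) : ℂ))) := by
        intro z; simp; ring
      simp_rw [this]
      rw [e1, h]; simp
    rw [integral_restrict_supp, e2]
    intro z hz
    have hz' : z ∉ tsupport v := fun h => hz (hv.supp h)
    have h1 : fderiv ℝ v z = 0 :=
      image_eq_zero_of_notMem_tsupport fun h => hz' (tsupport_fderiv_subset ℝ h)
    simp [h1]

/-- Poincare inequality -/
theorem poincare_test {R : ℝ} (hΩR : ∀ z ∈ Ω, |z.re| ≤ R) {v : ℂ → ℝ} (hv : IsTest Ω v) :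
    ∫ z in Ω, v z * v z ≤ 4 * R ^ 2 * ∫ z in Ω, fderiv ℝ v z 1 * fderiv ℝ v z 1 := by
  have hw : ContDiff ℝ 1 (fun z : ℂ => z.re * (v z * v z)) :=
    Complex.reCLM.contDiff.mul (hv.smooth.mul hv.smooth)
  have hwc : HasCompactSupport (fun z : ℂ => z.re * (v z * v z)) := (hv.comp.mul_left).mul_left
  have h0 := integral_fderiv_zero hw hwc 1
  have hd : ∀ z, fderiv ℝ (fun z : ℂ => z.re * (v z * v z)) z 1
      = v z * v z + 2 * z.re * (v z * fderiv ℝ v z 1) := by
    intro z
    have h1 : HasFDerivAt v (fderiv ℝ v z) z :=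
      (hv.smooth.differentiable (by norm_num) z).hasFDerivAt
    have h2 : HasFDerivAt (fun z : ℂ => z.re) Complex.reCLM z := Complex.reCLM.hasFDerivAt
    have h3 := (h2.mul (h1.mul h1)).fderiv
    have e : (fun z : ℂ => z.re * (v z * v z)) = (fun z : ℂ => z.re) * (v * v) := rfl
    rw [e, h3]
    simp
    ring
  simp_rw [hd] at h0
  have c1 : Continuous fun z => fderiv ℝ v z 1 :=
    (hv.smooth.continuous_fderiv (by norm_num)).clm_apply continuous_const
  have s1 : HasCompactSupport fun z => fderiv ℝ v z 1 := hv.comp.fderiv_apply (𝕜 := ℝ) 1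
  have i1 : Integrable (fun z => v z * v z) :=
    (hv.smooth.continuous.mul hv.smooth.continuous).integrable_of_hasCompactSupport hv.comp.mul_left
  have i2 : Integrable (fun z : ℂ => 2 * z.re * (v z * fderiv ℝ v z 1)) := by
    apply Continuous.integrable_of_hasCompactSupport
    · exact (continuous_const.mul Complex.continuous_re).mul (hv.smooth.continuous.mul c1)
    · exact (s1.mul_left).mul_left
  have i3 : Integrable (fun z => fderiv ℝ v z 1 * fderiv ℝ v z 1) :=
    (c1.mul c1).integrable_of_hasCompactSupport s1.mul_left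
  rw [integral_add i1 i2] at h0
  have hz0 : ∀ z, z ∉ Ω → v z = 0 ∧ fderiv ℝ v z = 0 := by
    intro z hz
    have hz' : z ∉ tsupport v := fun h => hz (hv.supp h)
    exact ⟨image_eq_zero_of_notMem_tsupport hz',
      image_eq_zero_of_notMem_tsupport fun h => hz' (tsupport_fderiv_subset ℝ h)⟩
  rw [integral_restrict_supp (fun z hz => by simp [(hz0 z hz).1]),
    integral_restrict_supp (fun z hz => by simp [(hz0 z hz).2])]
  have hpt : ∀ z, -(2 * z.re * (v z * fderiv ℝ v z 1)) ≤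
      1 / 2 * (v z * v z) + 2 * R ^ 2 * (fderiv ℝ v z 1 * fderiv ℝ v z 1) := by
    intro z
    by_cases hz : z ∈ Ω
    · have hr := hΩR z hz
      have hr2 : z.re ^ 2 ≤ R ^ 2 := by
        rw [← sq_abs z.re]; exact pow_le_pow_left₀ (abs_nonneg _) hr 2
      have h4 := mul_le_mul_of_nonneg_right hr2 (mul_self_nonneg (fderiv ℝ v z 1))
      nlinarith [sq_nonneg (v z + 2 * z.re * fderiv ℝ v z 1)]
    · simp [(hz0 z hz).1, (hz0 z hz).2]
  have hmono : ∫ z : ℂ, -(2 * z.re * (v z * fderiv ℝ v z 1)) ≤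
      ∫ z, (1 / 2 * (v z * v z) + 2 * R ^ 2 * (fderiv ℝ v z 1 * fderiv ℝ v z 1)) :=
    integral_mono i2.neg ((i1.const_mul _).add (i3.const_mul _)) hpt
  rw [integral_neg, integral_add (i1.const_mul _) (i3.const_mul _), integral_const_mul,
    integral_const_mul] at hmono
  nlinarith

theorem InH.poincare {R : ℝ} (hΩR : ∀ z ∈ Ω, |z.re| ≤ R) {U : ℂ → F3}
    (hU : InH Ω U) : ∫ z in Ω, U z 0 * U z 0 ≤ 4 * R ^ 2 * ∫ z in Ω, U z 1 * U z 1 := by
  obtain ⟨v, hv, h⟩ := hU.approx
  have h1 := (h 0).integral_mul (h 0)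
  have h2 := ((h 1).integral_mul (h 1)).const_mul (4 * R ^ 2)
  exact le_of_tendsto_of_tendsto' h1 h2 fun n => poincare_test hΩR (hv n)

end Pool.Agent.Helper61.KS
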