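import Mathlib

/-! Abstract continuation argument for positivity of resolvents. -/

set_option autoImplicit false
open MeasureTheory Topology Filter Set

namespace Pool.Agent.Helper61.KS

section pos
variable {α : Type*} [MeasurableSpace α] {μ : Measure α}

/-- positivity preserving operator -/
def PosOp (N : Lp ℝ 2 μ →L[ℝ] Lp ℝ 2 μ) : Prop := ∀ f, 0 ≤ f → 0 ≤ N f

theorem PosOp.mono {N : Lp ℝ 2 μ →L[ℝ] Lp ℝ 2 μ} (h : PosOp N) {f g : Lp ℝ 2 μ} (hfg : f ≤ g) :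
    N f ≤ N g := by
  have := h (g - f) (sub_nonneg.2 hfg)
  rw [map_sub] at this
  exact sub_nonneg.1 this

theorem PosOp.abs_le {N : Lp ℝ 2 μ →L[ℝ] Lp ℝ 2 μ} (h : PosOp N) (f : Lp ℝ 2 μ) :
    |N f| ≤ N |f| := by
  rw [abs_le']
  constructor
  · exact h.mono (le_abs_self f)
  · rw [← map_neg]; exact h.mono (neg_le_abs f)

theorem PosOp.norm_le {N N' : Lp ℝ 2 μ →L[ℝ] Lp ℝ 2 μ} (h : PosOp N)
    (h' : ∀ f, 0 ≤ f → N f ≤ N' f) : ‖N‖ ≤ ‖N'‖ := by
  refine ContinuousLinearMap.opNorm_le_bound _ (norm_nonneg _) fun f => ?_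
  have h1 : |N f| ≤ N' |f| := (h.abs_le f).trans (h' _ (abs_nonneg f))
  have h2 : 0 ≤ N' |f| := (abs_nonneg _).trans h1
  calc ‖N f‖ ≤ ‖N' |f|‖ := by
        apply norm_le_norm_of_abs_le_abs
        rw [abs_of_nonneg h2]; exact h1
    _ ≤ ‖N'‖ * ‖|f|‖ := N'.le_opNorm _
    _ = ‖N'‖ * ‖f‖ := by rw [norm_abs_eq_norm]

theorem isClosed_posOp : IsClosed {N : Lp ℝ 2 μ →L[ℝ] Lp ℝ 2 μ | PosOp N} := by
  have : {N : Lp ℝ 2 μ →L[ℝ] Lp ℝ 2 μ | PosOp N} =
      ⋂ f : Lp ℝ 2 μ, ⋂ (_ : 0 ≤ f), {N | 0 ≤ N f} := by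
    ext N; simp [PosOp]
  rw [this]
  refine isClosed_iInter fun f => isClosed_iInter fun _ => ?_
  exact isClosed_le continuous_const (by fun_prop)

theorem lp_smul_nonneg {c : ℝ} (hc : 0 ≤ c) {f : Lp ℝ 2 μ} (hf : 0 ≤ f) : 0 ≤ c • f := by
  rw [← Lp.coeFn_nonneg] at hf ⊢
  filter_upwards [hf, Lp.coeFn_smul c f] with x h1 h2
  rw [h2]
  exact mul_nonneg hc h1

end pos

section cont
variable {α : Type*} [MeasurableSpace α] {μ : Measure α}
variable {H : Type*} [NormedAddCommGroup H] [NormedSpace ℝ H]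

/-- the abstract data -/
structure Dat (μ : Measure α) (H : Type*) [NormedAddCommGroup H] [NormedSpace ℝ H] where
  J : H →L[ℝ] Lp ℝ 2 μ
  Jt : Lp ℝ 2 μ →L[ℝ] H
  T : ℝ → (H →L[ℝ] H)
  hT : Continuous T
  β : ℝ
  hβ : 0 ≤ β

variable (D : Dat μ H)

/-- the operator -/
noncomputable def Dat.Q (s l : ℝ) : H →L[ℝ] H := D.T s + l • (D.Jt ∘L D.J)

/-- its inverse -/
noncomputable def Dat.R (s l : ℝ) : H →L[ℝ] H := Ring.inverse (D.Q s l)

/-- the sandwiched resolvent -/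
noncomputable def Dat.N (s l : ℝ) : Lp ℝ 2 μ →L[ℝ] Lp ℝ 2 μ := D.J ∘L D.R s l ∘L D.Jt

/-- good parameters -/
def Dat.Good (s l : ℝ) : Prop := IsUnit (D.Q s l) ∧ PosOp (D.N s l)

theorem Dat.Q_cont : Continuous fun p : ℝ × ℝ => D.Q p.1 p.2 := by
  unfold Dat.Q
  have h := D.hT.comp (continuous_fst (X := ℝ) (Y := ℝ))
  exact h.add (continuous_snd.smul continuous_const)

variable [CompleteSpace H]

theorem Dat.R_contAt {p : ℝ × ℝ} (h : IsUnit (D.Q p.1 p.2)) :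
    ContinuousAt (fun p : ℝ × ℝ => D.R p.1 p.2) p := by
  obtain ⟨u, hu⟩ := h
  have h1 := NormedRing.inverse_continuousAt u
  rw [hu] at h1
  exact ContinuousAt.comp (f := fun p : ℝ × ℝ => D.Q p.1 p.2) h1 D.Q_cont.continuousAt

theorem Dat.N_contAt {p : ℝ × ℝ} (h : IsUnit (D.Q p.1 p.2)) :
    ContinuousAt (fun p : ℝ × ℝ => D.N p.1 p.2) p := by
  have h1 := D.R_contAt h
  unfold Dat.N
  exact (continuousAt_const).clm_comp (h1.clm_comp continuousAt_const)

theorem Dat.N_contAt_s {s l : ℝ} (h : IsUnit (D.Q s l)) : ContinuousAt (fun t : ℝ => D.N t l) s :=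
  ContinuousAt.comp (g := fun p : ℝ × ℝ => D.N p.1 p.2) (f := fun t : ℝ => (t, l))
    (D.N_contAt (p := (s, l)) h) (by fun_prop)

theorem Dat.R_contAt_s {s l : ℝ} (h : IsUnit (D.Q s l)) : ContinuousAt (fun t : ℝ => D.R t l) s :=
  ContinuousAt.comp (g := fun p : ℝ × ℝ => D.R p.1 p.2) (f := fun t : ℝ => (t, l))
    (D.R_contAt (p := (s, l)) h) (by fun_prop)

theorem Dat.Q_cont_s (l : ℝ) : Continuous (fun t : ℝ => D.Q t l) :=
  D.Q_cont.comp (by fun_prop : Continuous fun t : ℝ => (t, l))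

theorem Dat.R_mul {s l : ℝ} (h : IsUnit (D.Q s l)) : D.R s l * D.Q s l = 1 :=
  Ring.inverse_mul_cancel _ h

theorem Dat.mul_R {s l : ℝ} (h : IsUnit (D.Q s l)) : D.Q s l * D.R s l = 1 :=
  Ring.mul_inverse_cancel _ h

/-- resolvent identity -/
theorem Dat.R_id {s l l' : ℝ} (h : IsUnit (D.Q s l)) (h' : IsUnit (D.Q s l')) :
    D.R s l' = D.R s l + (l - l') • (D.R s l * (D.Jt ∘L D.J) * D.R s l') := by
  have e : D.Q s l = D.Q s l' + (l - l') • (D.Jt ∘L D.J) := by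
    unfold Dat.Q; module
  calc D.R s l' = (D.R s l * D.Q s l) * D.R s l' := by rw [D.R_mul h, one_mul]
    _ = D.R s l * ((D.Q s l' + (l - l') • (D.Jt ∘L D.J)) * D.R s l') := by
        rw [mul_assoc, ← e]
    _ = _ := by
        rw [add_mul, D.mul_R h', mul_add, mul_one, smul_mul_assoc, mul_smul_comm, mul_assoc]

theorem Dat.R_id' {s l l' : ℝ} (h : IsUnit (D.Q s l)) (h' : IsUnit (D.Q s l')) :
    D.R s l' = D.R s l + (l - l') • (D.R s l' * (D.Jt ∘L D.J) * D.R s l) := by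
  have e : D.Q s l = D.Q s l' + (l - l') • (D.Jt ∘L D.J) := by
    unfold Dat.Q; module
  calc D.R s l' = D.R s l' * (D.Q s l * D.R s l) := by rw [D.mul_R h, mul_one]
    _ = (D.R s l' * (D.Q s l' + (l - l') • (D.Jt ∘L D.J))) * D.R s l := by
        rw [mul_assoc, ← e]
    _ = _ := by
        rw [mul_add, D.R_mul h', add_mul, one_mul, mul_smul_comm, smul_mul_assoc, mul_assoc]

theorem Dat.N_id {s l l' : ℝ} (h : IsUnit (D.Q s l)) (h' : IsUnit (D.Q s l')) :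
    D.N s l' = D.N s l + (l - l') • (D.N s l * D.N s l') := by
  ext1 f
  have := congrArg (fun T : H →L[ℝ] H => D.J (T (D.Jt f))) (D.R_id h h')
  simpa [Dat.N] using this

theorem Dat.N_id' {s l l' : ℝ} (h : IsUnit (D.Q s l)) (h' : IsUnit (D.Q s l')) :
    D.N s l' = D.N s l + (l - l') • (D.N s l' * D.N s l) := by
  ext1 f
  have := congrArg (fun T : H →L[ℝ] H => D.J (T (D.Jt f))) (D.R_id' h h')
  simpa [Dat.N] using this

/-- triple resolvent identity -/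
theorem Dat.R_id3 {s l l' : ℝ} (h : IsUnit (D.Q s l)) (h' : IsUnit (D.Q s l')) :
    D.R s l' = D.R s l + (l - l') • (D.R s l * (D.Jt ∘L D.J) * D.R s l)
      + (l - l') ^ 2 • ((D.R s l ∘L D.Jt) ∘L D.N s l' ∘L (D.J ∘L D.R s l)) := by
  have h1 := D.R_id h h'
  have h2 := D.R_id' h h'
  have h3 : D.R s l * (D.Jt ∘L D.J) * D.R s l' = D.R s l * (D.Jt ∘L D.J) * D.R s l
      + (l - l') • ((D.R s l ∘L D.Jt) ∘L D.N s l' ∘L (D.J ∘L D.R s l)) := by
    conv_lhs => rw [h2]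
    rw [mul_add, mul_smul_comm]
    rfl
  conv_lhs => rw [h1, h3]
  rw [smul_add, smul_smul, ← add_assoc, pow_two]

/-- positivity propagates a little to the left -/
theorem Dat.pos_left {s l l' : ℝ} (h : D.Good s l) (h' : IsUnit (D.Q s l')) (hl : l' ≤ l)
    (hs : (l - l') * ‖D.N s l‖ < 1) : PosOp (D.N s l') := by
  intro f hf
  set N := D.N s l with hN
  set g := D.N s l' f with hg
  set d := l - l' with hd
  have hd0 : 0 ≤ d := by linarith
  have hfix : g = N f + d • N g := by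
    have := congrArg (fun T : Lp ℝ 2 μ →L[ℝ] Lp ℝ 2 μ => T f) (D.N_id h.1 h')
    simpa using this
  let gs : ℕ → Lp ℝ 2 μ := fun n => Nat.rec 0 (fun _ x => N f + d • N x) n
  have hpos : ∀ n, 0 ≤ gs n := by
    intro n
    induction n with
    | zero => exact le_rfl
    | succ n ih =>
      exact add_nonneg (h.2 f hf) (lp_smul_nonneg hd0 (h.2 _ ih))
  have hdist : ∀ n, ‖gs n - g‖ ≤ (d * ‖N‖) ^ n * ‖g‖ := by
    intro n
    induction n with
    | zero => simp [gs]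
    | succ n ih =>
      have e : gs (n + 1) - g = d • N (gs n - g) := by
        change (N f + d • N (gs n)) - g = _
        conv_lhs => rw [hfix]
        rw [map_sub]; module
      rw [e, norm_smul, Real.norm_of_nonneg hd0]
      calc d * ‖N (gs n - g)‖ ≤ d * (‖N‖ * ‖gs n - g‖) :=
            mul_le_mul_of_nonneg_left (N.le_opNorm _) hd0
        _ ≤ d * (‖N‖ * ((d * ‖N‖) ^ n * ‖g‖)) := by gcongr
        _ = _ := by ring
  have hlim : Tendsto gs atTop (𝓝 g) := by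
    rw [tendsto_iff_norm_sub_tendsto_zero]
    refine squeeze_zero (fun n => norm_nonneg _) hdist ?_
    have := (tendsto_pow_atTop_nhds_zero_of_lt_one (by positivity) hs).mul_const ‖g‖
    simpa using this
  exact ge_of_tendsto' hlim hpos

theorem Dat.descend {s L : ℝ} (hu : ∀ l, 0 ≤ l → IsUnit (D.Q s l))
    (hp : PosOp (D.N s L)) : ∀ l, 0 ≤ l → l ≤ L → PosOp (D.N s l) := by
  have key : Icc 0 L ⊆ {t : ℝ | t ≤ L → PosOp (D.N s (L - t))} := by
    apply IsClosed.Icc_subset_of_forall_mem_nhdsWithin (a := 0) (b := L)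
    · have hc : ContinuousOn (fun t : ℝ => D.N s (L - t)) (Icc 0 L) := by
        intro t ht
        apply ContinuousAt.continuousWithinAt
        have h1 : ContinuousAt (fun p : ℝ × ℝ => D.N p.1 p.2) (s, L - t) :=
          D.N_contAt (p := (s, L - t)) (hu _ (by linarith [ht.2]))
        exact ContinuousAt.comp (f := fun t : ℝ => (s, L - t)) h1 (by fun_prop)
      have : {t : ℝ | t ≤ L → PosOp (D.N s (L - t))} ∩ Icc 0 L =
          Icc 0 L ∩ (fun t : ℝ => D.N s (L - t)) ⁻¹' {N | PosOp N} := by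
        ext t
        simp only [mem_inter_iff, mem_ofPred_eq, mem_Icc, mem_preimage]
        constructor
        · rintro ⟨h1, h2⟩; exact ⟨h2, h1 h2.2⟩
        · rintro ⟨h1, h2⟩; exact ⟨fun _ => h2, h1⟩
      rw [this]
      exact hc.preimage_isClosed_of_isClosed isClosed_Icc isClosed_posOp
    · intro _
      simpa using hp
    · rintro t ⟨h1, h2⟩
      have h3 : PosOp (D.N s (L - t)) := h1 h2.2.le
      have h4 : ∀ᶠ t' in 𝓝 t, (t' - t) * ‖D.N s (L - t)‖ < 1 := by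
        have : ContinuousAt (fun t' : ℝ => (t' - t) * ‖D.N s (L - t)‖) t := by fun_prop
        apply this.eventually (gt_mem_nhds _)
        simp
      filter_upwards [nhdsWithin_le_nhds h4, self_mem_nhdsWithin] with t' h5 h6
      intro h7
      refine D.pos_left ⟨hu _ (by linarith [h2.2]), h3⟩ (hu _ (by linarith)) ?_ ?_
      · have : t < t' := h6
        linarith
      · have e : L - t - (L - t') = t' - t := by ring
        rw [e]; exact h5
  intro l hl0 hlL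
  have := key (show L - l ∈ Icc 0 L from ⟨by linarith, by linarith⟩) (by linarith)
  simpa using this

theorem Dat.N_le {s l : ℝ} (hl : 0 ≤ l) (h : D.Good s l) (h0 : D.Good s 0) :
    ‖D.N s l‖ ≤ ‖D.N s 0‖ := by
  refine h.2.norm_le fun f hf => ?_
  have h1 := D.N_id h0.1 h.1
  have h2 := congrArg (fun T : Lp ℝ 2 μ →L[ℝ] Lp ℝ 2 μ => T f) h1
  simp only [_root_.add_apply, _root_.smul_apply] at h2
  have h3 : 0 ≤ l • (D.N s 0 * D.N s l) f := by
    apply lp_smul_nonneg hl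
    exact h0.2 _ (h.2 f hf)
  have h4 : D.N s l f = D.N s 0 f - l • (D.N s 0 * D.N s l) f := by
    rw [zero_sub, neg_smul, ← sub_eq_add_neg] at h2
    exact h2
  rw [h4]
  exact sub_le_self _ h3

/-- Units are stable under limits with bounded inverses. -/
theorem isUnit_of_limit {A : ℕ → (H →L[ℝ] H)} {B : H →L[ℝ] H} {C : ℝ}
    (hA : ∀ n, IsUnit (A n)) (hC : ∀ n, ‖Ring.inverse (A n)‖ ≤ C)
    (hlim : Tendsto A atTop (𝓝 B)) : IsUnit B := by
  rcases subsingleton_or_nontrivial H with hs | hs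
  · have : B = 1 := by ext x; exact Subsingleton.elim _ _
    rw [this]; exact isUnit_one
  · have h0 : Tendsto (fun n => ‖B - A n‖) atTop (𝓝 0) := by
      have := (tendsto_const_nhds (x := B)).sub hlim
      rw [sub_self] at this
      simpa using this.norm
    have hCp : 0 < |C| + 1 := by positivity
    obtain ⟨n, hn⟩ := (h0.eventually (gt_mem_nhds (show (0 : ℝ) < 1 / (|C| + 1) by positivity))).exists
    obtain ⟨u, hu⟩ := hA n
    have hinv : ‖(↑u⁻¹ : H →L[ℝ] H)‖ ≤ |C| := by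
      have := hC n
      rw [← hu, Ring.inverse_unit] at this
      exact this.trans (le_abs_self C)
    have hpos : 0 < ‖(↑u⁻¹ : H →L[ℝ] H)‖ := Units.norm_pos u⁻¹
    have : ‖B - ↑u‖ < ‖(↑u⁻¹ : H →L[ℝ] H)‖⁻¹ := by
      rw [hu]
      refine hn.trans_le ?_
      rw [one_div]
      apply inv_anti₀ hpos
      linarith
    exact ⟨Units.ofNearby u B this, rfl⟩

theorem Dat.closed_step (hbase : ∀ s l, s ^ 2 * D.β ≤ l → D.Good s l)
    {S s : ℝ} (hs : s ∈ Icc 0 S) (hu0 : IsUnit (D.Q s 0)) {sn : ℕ → ℝ}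
    (hlim : Tendsto sn atTop (𝓝 s)) (hsn : ∀ n, sn n ∈ Icc 0 S)
    (hg : ∀ n l, 0 ≤ l → D.Good (sn n) l) {l : ℝ} (hl : 0 ≤ l) : D.Good s l := by
  have hlimN : Tendsto (fun n => D.N (sn n) 0) atTop (𝓝 (D.N s 0)) :=
    (D.N_contAt_s hu0).tendsto.comp hlim
  obtain ⟨C, hC⟩ := hlimN.norm.bddAbove_range
  have hC' : ∀ n, ‖D.N (sn n) l‖ ≤ C := by
    intro n
    have h1 : ‖D.N (sn n) l‖ ≤ ‖D.N (sn n) 0‖ := D.N_le hl (hg n l hl) (hg n 0 le_rfl)
    have h2 : ‖D.N (sn n) 0‖ ≤ C := hC (Set.mem_range_self n)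
    exact h1.trans h2
  obtain ⟨L, hL1, hL2⟩ : ∃ L, l ≤ L ∧ S ^ 2 * D.β ≤ L := ⟨_, le_max_left _ _, le_max_right _ _⟩
  have hL0 : 0 ≤ L := hl.trans hL1
  have hbS : ∀ t ∈ Icc 0 S, t ^ 2 * D.β ≤ L := by
    intro t ht
    refine le_trans ?_ hL2
    apply mul_le_mul_of_nonneg_right _ D.hβ
    exact pow_le_pow_left₀ ht.1 ht.2 2
  have hgL : D.Good s L := hbase s L (hbS s hs)
  have hlimR : Tendsto (fun n => D.R (sn n) L) atTop (𝓝 (D.R s L)) :=
    (D.R_contAt_s hgL.1).tendsto.comp hlim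
  obtain ⟨C2, hC2⟩ := hlimR.norm.bddAbove_range
  have hC2' : ∀ n, ‖D.R (sn n) L‖ ≤ C2 := fun n => hC2 (Set.mem_range_self n)
  have hC20 : 0 ≤ C2 := (norm_nonneg _).trans (hC2' 0)
  have hC0 : 0 ≤ C := (norm_nonneg _).trans (hC' 0)
  have hbound : ∀ n, ‖D.R (sn n) l‖ ≤ C2 + |L - l| * (C2 * (‖D.Jt‖ * ‖D.J‖) * C2)
      + (L - l) ^ 2 * (C2 * ‖D.Jt‖ * (C * (‖D.J‖ * C2))) := by
    intro n
    rw [D.R_id3 (hg n L hL0).1 (hg n l hl).1]
    have b1 : ‖D.R (sn n) L * (D.Jt ∘L D.J) * D.R (sn n) L‖ ≤ C2 * (‖D.Jt‖ * ‖D.J‖) * C2 := by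
      calc ‖D.R (sn n) L * (D.Jt ∘L D.J) * D.R (sn n) L‖
          ≤ ‖D.R (sn n) L * (D.Jt ∘L D.J)‖ * ‖D.R (sn n) L‖ := norm_mul_le _ _
        _ ≤ (‖D.R (sn n) L‖ * ‖D.Jt ∘L D.J‖) * ‖D.R (sn n) L‖ := by
            gcongr; exact norm_mul_le _ _
        _ ≤ _ := by
            gcongr
            · exact hC2' n
            · exact ContinuousLinearMap.opNorm_comp_le _ _
            · exact hC2' n
    have b2 : ‖(D.R (sn n) L ∘L D.Jt) ∘L D.N (sn n) l ∘L (D.J ∘L D.R (sn n) L)‖ ≤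
        C2 * ‖D.Jt‖ * (C * (‖D.J‖ * C2)) := by
      calc ‖(D.R (sn n) L ∘L D.Jt) ∘L D.N (sn n) l ∘L (D.J ∘L D.R (sn n) L)‖
          ≤ ‖D.R (sn n) L ∘L D.Jt‖ * ‖D.N (sn n) l ∘L (D.J ∘L D.R (sn n) L)‖ :=
            ContinuousLinearMap.opNorm_comp_le _ _
        _ ≤ (‖D.R (sn n) L‖ * ‖D.Jt‖) * (‖D.N (sn n) l‖ * (‖D.J‖ * ‖D.R (sn n) L‖)) := by
            gcongr
            · exact ContinuousLinearMap.opNorm_comp_le _ _
            · refine (ContinuousLinearMap.opNorm_comp_le _ _).trans ?_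
              gcongr
              exact ContinuousLinearMap.opNorm_comp_le _ _
        _ ≤ _ := by
            gcongr
            · exact hC2' n
            · exact hC' n
            · exact hC2' n
    refine (norm_add_le _ _).trans (add_le_add ((norm_add_le _ _).trans (add_le_add (hC2' n) ?_)) ?_)
    · rw [norm_smul, Real.norm_eq_abs]
      exact mul_le_mul_of_nonneg_left b1 (abs_nonneg _)
    · rw [norm_smul, Real.norm_of_nonneg (by positivity)]
      exact mul_le_mul_of_nonneg_left b2 (by positivity)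
  have hlimQ : Tendsto (fun n => D.Q (sn n) l) atTop (𝓝 (D.Q s l)) :=
    ((D.Q_cont_s l).tendsto s).comp hlim
  have hunit : IsUnit (D.Q s l) := isUnit_of_limit (fun n => (hg n l hl).1) hbound hlimQ
  refine ⟨hunit, ?_⟩
  have hlimNl : Tendsto (fun n => D.N (sn n) l) atTop (𝓝 (D.N s l)) :=
    (D.N_contAt_s hunit).tendsto.comp hlim
  exact isClosed_posOp.mem_of_tendsto hlimNl (Eventually.of_forall fun n => (hg n l hl).2)

theorem Dat.open_step (hbase : ∀ s l, s ^ 2 * D.β ≤ l → D.Good s l)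
    {s : ℝ} (hg : ∀ l, 0 ≤ l → D.Good s l) :
    ∀ᶠ t in 𝓝 s, 0 ≤ t → ∀ l, 0 ≤ l → D.Good t l := by
  obtain ⟨L, hL⟩ : ∃ L, L = (|s| + 1) ^ 2 * D.β := ⟨_, rfl⟩
  have hL0 : 0 ≤ L := by rw [hL]; exact mul_nonneg (by positivity) D.hβ
  have hopen : IsOpen {p : ℝ × ℝ | IsUnit (D.Q p.1 p.2)} :=
    Units.isOpen.preimage D.Q_cont
  have hsub : ({s} : Set ℝ) ×ˢ Icc 0 L ⊆ {p : ℝ × ℝ | IsUnit (D.Q p.1 p.2)} := by
    rintro ⟨a, b⟩ ⟨h1, h2⟩
    have h3 : a = s := h1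
    subst h3
    exact (hg b h2.1).1
  obtain ⟨u, v, hu, hv, hsu, hLv, huv⟩ :=
    generalized_tube_lemma isCompact_singleton isCompact_Icc hopen hsub
  have hmem : u ∈ 𝓝 s := hu.mem_nhds (hsu rfl)
  have hmem2 : Iio (|s| + 1) ∈ 𝓝 s := Iio_mem_nhds (by linarith [le_abs_self s])
  filter_upwards [hmem, hmem2] with t ht1 ht2
  intro ht0
  have hbt : t ^ 2 * D.β ≤ L := by
    rw [hL]
    apply mul_le_mul_of_nonneg_right _ D.hβ
    have h4 : t < |s| + 1 := ht2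
    exact pow_le_pow_left₀ ht0 h4.le 2
  have hunits : ∀ l, 0 ≤ l → IsUnit (D.Q t l) := by
    intro l hl
    rcases le_total l L with h | h
    · exact huv (show (t, l) ∈ u ×ˢ v from ⟨ht1, hLv ⟨hl, h⟩⟩)
    · exact (hbase t l (hbt.trans h)).1
  intro l hl
  rcases le_total l L with h | h
  · exact ⟨hunits l hl, D.descend hunits (hbase t L hbt).2 l hl h⟩
  · exact hbase t l (hbt.trans h)

theorem Dat.main (hbase : ∀ s l, s ^ 2 * D.β ≤ l → D.Good s l)
    (hinv : ∀ s, 0 ≤ s → IsUnit (D.Q s 0)) : ∀ s, 0 ≤ s → ∀ l, 0 ≤ l → D.Good s l := by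
  have key : ∀ S : ℝ, Icc 0 S ⊆ {s : ℝ | 0 ≤ s → ∀ l, 0 ≤ l → D.Good s l} := by
    intro S
    apply IsClosed.Icc_subset_of_forall_mem_nhdsWithin (a := 0) (b := S)
    · rw [← isSeqClosed_iff_isClosed]
      intro sn s hsn hlim
      have hs : s ∈ Icc 0 S := isClosed_Icc.mem_of_tendsto hlim
        (Eventually.of_forall fun n => (hsn n).2)
      exact ⟨fun hs0 l hl => D.closed_step hbase hs (hinv s hs0) hlim (fun n => (hsn n).2)
        (fun n => (hsn n).1 (hsn n).2.1) hl, hs⟩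
    · intro _ l hl
      exact hbase 0 l (by simpa using hl)
    · rintro s ⟨hs1, hs2⟩
      exact nhdsWithin_le_nhds (D.open_step hbase (hs1 hs2.1))
  intro s hs
  exact key s ⟨hs, le_rfl⟩ hs

end cont

end Pool.Agent.Helper61.KS
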