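import Mathlib
import Pool.Agent.Helper61.KS.IBP

/-! Rellich compactness. -/

set_option autoImplicit false
open MeasureTheory Topology Filter Set
open scoped ENNReal

namespace Pool.Agent.Helper61.KS

/-- squared gradient -/
noncomputable def gsq (v : ℂ → ℝ) (z : ℂ) : ℝ := ‖fderiv ℝ v z‖ ^ 2

theorem sq_integral_le {φ : ℝ → ℝ} (hφ : Continuous φ) :
    (∫ t in (0 : ℝ)..1, φ t) ^ 2 ≤ ∫ t in (0 : ℝ)..1, φ t ^ 2 := by
  set m := ∫ t in (0 : ℝ)..1, φ t with hm
  have h0 : 0 ≤ ∫ t in (0 : ℝ)..1, (φ t - m) ^ 2 :=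
    intervalIntegral.integral_nonneg (by norm_num) fun t _ => sq_nonneg _
  have e : ∀ t, (φ t - m) ^ 2 = φ t ^ 2 - 2 * m * φ t + m ^ 2 := fun t => by ring
  simp_rw [e] at h0
  rw [intervalIntegral.integral_add, intervalIntegral.integral_sub,
    intervalIntegral.integral_const_mul, intervalIntegral.integral_const, ← hm] at h0
  · simp at h0; nlinarith
  · exact (hφ.pow 2).intervalIntegrable _ _
  · exact (hφ.const_mul _).intervalIntegrable _ _
  · exact ((hφ.pow 2).sub (hφ.const_mul _)).intervalIntegrable _ _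
  · exact intervalIntegrable_const

theorem trans_pt {v : ℂ → ℝ} (hv : ContDiff ℝ 1 v) (z h : ℂ) :
    ENNReal.ofReal ((v (z + h) - v z) ^ 2) ≤
      ENNReal.ofReal (‖h‖ ^ 2) * ∫⁻ t in Icc (0 : ℝ) 1, ENNReal.ofReal (gsq v (z + t * h)) := by
  have hcd : Continuous (fderiv ℝ v) := hv.continuous_fderiv (by norm_num)
  have hline : Continuous fun t : ℝ => z + t * h := by fun_prop
  have hφ : Continuous fun t : ℝ => fderiv ℝ v (z + t * h) h :=
    (hcd.comp hline).clm_apply continuous_const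
  have hftc : ∫ t in (0 : ℝ)..1, fderiv ℝ v (z + t * h) h = v (z + h) - v z := by
    have hd : ∀ t : ℝ, HasDerivAt (fun t : ℝ => v (z + t * h)) (fderiv ℝ v (z + t * h) h) t := by
      intro t
      have h1 : HasDerivAt (fun t : ℝ => z + t * h) h t := by
        have h2 : HasDerivAt (fun t : ℝ => (t : ℂ)) 1 t := Complex.ofRealCLM.hasDerivAt
        simpa using (h2.mul_const h).const_add z
      exact (hv.differentiable (by norm_num) _).hasFDerivAt.comp_hasDerivAt t h1
    rw [intervalIntegral.integral_eq_sub_of_hasDerivAt (fun t _ => hd t) (hφ.intervalIntegrable _ _)]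
    simp
  have h1 : (v (z + h) - v z) ^ 2 ≤ ‖h‖ ^ 2 * ∫ t in (0 : ℝ)..1, gsq v (z + t * h) := by
    rw [← hftc]
    refine (sq_integral_le hφ).trans ?_
    rw [← intervalIntegral.integral_const_mul]
    have hg : Continuous fun t : ℝ => gsq v (z + t * h) := ((hcd.comp hline).norm).pow 2
    apply intervalIntegral.integral_mono_on (by norm_num) ((hφ.pow 2).intervalIntegrable _ _)
      ((hg.const_mul _).intervalIntegrable _ _)
    intro t _
    have := (fderiv ℝ v (z + t * h)).le_opNorm h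
    rw [Real.norm_eq_abs] at this
    have h2 := pow_le_pow_left₀ (abs_nonneg _) this 2
    rw [sq_abs, mul_pow] at h2
    show (fderiv ℝ v (z + t * h) h) ^ 2 ≤ ‖h‖ ^ 2 * ‖fderiv ℝ v (z + t * h)‖ ^ 2
    linarith
  have hg : Continuous fun t : ℝ => gsq v (z + t * h) := ((hcd.comp hline).norm).pow 2
  calc ENNReal.ofReal ((v (z + h) - v z) ^ 2)
      ≤ ENNReal.ofReal (‖h‖ ^ 2 * ∫ t in (0 : ℝ)..1, gsq v (z + t * h)) :=
        ENNReal.ofReal_le_ofReal h1
    _ = ENNReal.ofReal (‖h‖ ^ 2) * ENNReal.ofReal (∫ t in (0 : ℝ)..1, gsq v (z + t * h)) :=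
        ENNReal.ofReal_mul (by positivity)
    _ = _ := by
        congr 1
        rw [intervalIntegral.integral_of_le (by norm_num), ← integral_Icc_eq_integral_Ioc,
          ofReal_integral_eq_lintegral_ofReal]
        · exact hg.continuousOn.integrableOn_compact isCompact_Icc
        · exact Eventually.of_forall fun t => by unfold gsq; positivity

theorem trans_est {v : ℂ → ℝ} (hv : ContDiff ℝ 1 v) (h : ℂ) :
    ∫⁻ z, ENNReal.ofReal ((v (z + h) - v z) ^ 2) ≤
      ENNReal.ofReal (‖h‖ ^ 2) * ∫⁻ z, ENNReal.ofReal (gsq v z) := by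
  have hcd : Continuous (fderiv ℝ v) := hv.continuous_fderiv (by norm_num)
  have hgc : Continuous (gsq v) := hcd.norm.pow 2
  have hjm : Measurable fun p : ℂ × ℝ => ENNReal.ofReal (gsq v (p.1 + p.2 * h)) :=
    (hgc.comp (by fun_prop : Continuous fun p : ℂ × ℝ => p.1 + p.2 * h)).measurable.ennreal_ofReal
  calc ∫⁻ z, ENNReal.ofReal ((v (z + h) - v z) ^ 2)
      ≤ ∫⁻ z, ENNReal.ofReal (‖h‖ ^ 2) *
          ∫⁻ t in Icc (0 : ℝ) 1, ENNReal.ofReal (gsq v (z + t * h)) :=
        lintegral_mono fun z => trans_pt hv z h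
    _ = ENNReal.ofReal (‖h‖ ^ 2) *
          ∫⁻ z, ∫⁻ t in Icc (0 : ℝ) 1, ENNReal.ofReal (gsq v (z + t * h)) := by
        rw [lintegral_const_mul]
        exact hjm.lintegral_prod_right'
    _ = ENNReal.ofReal (‖h‖ ^ 2) *
          ∫⁻ t in Icc (0 : ℝ) 1, ∫⁻ z, ENNReal.ofReal (gsq v (z + t * h)) := by
        rw [lintegral_lintegral_swap]
        exact hjm.aemeasurable
    _ = ENNReal.ofReal (‖h‖ ^ 2) *
          ∫⁻ _t in Icc (0 : ℝ) 1, ∫⁻ z, ENNReal.ofReal (gsq v z) := by
        congr 1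
        apply lintegral_congr
        intro t
        exact lintegral_add_right_eq_self (fun z => ENNReal.ofReal (gsq v z)) (t * h)
    _ = _ := by
        rw [lintegral_const]
        simp

/-- cells of the grid -/
def cell (ε : ℝ) (c : ℤ × ℤ) : Set ℂ := {w | ⌊w.re / ε⌋ = c.1 ∧ ⌊w.im / ε⌋ = c.2}

theorem cell_meas (ε : ℝ) (c : ℤ × ℤ) : MeasurableSet (cell ε c) := by
  have h1 : Measurable fun w : ℂ => ⌊w.re / ε⌋ :=
    Int.measurable_floor.comp (Complex.measurable_re.div_const ε)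
  have h2 : Measurable fun w : ℂ => ⌊w.im / ε⌋ :=
    Int.measurable_floor.comp (Complex.measurable_im.div_const ε)
  exact (h1 (measurableSet_singleton c.1)).inter (h2 (measurableSet_singleton c.2))

theorem cell_vol {ε : ℝ} (hε : 0 < ε) (c : ℤ × ℤ) : volume (cell ε c) = ENNReal.ofReal (ε ^ 2) := by
  have h : cell ε c = Complex.measurableEquivRealProd ⁻¹'
      (Ico (c.1 * ε) ((c.1 + 1) * ε) ×ˢ Ico (c.2 * ε) ((c.2 + 1) * ε)) := by
    ext w
    simp only [cell, mem_ofPred_eq, Int.floor_eq_iff, mem_preimage, mem_prod, mem_Ico,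
      Complex.measurableEquivRealProd_apply, le_div_iff₀ hε, div_lt_iff₀ hε]
  rw [h, Complex.volume_preserving_equiv_real_prod.measure_preimage
    (measurableSet_Ico.prod measurableSet_Ico).nullMeasurableSet, Measure.volume_eq_prod,
    Measure.prod_prod, Real.volume_Ico, Real.volume_Ico, ← ENNReal.ofReal_mul (by nlinarith)]
  congr 1
  ring

theorem cell_dist {ε : ℝ} (hε : 0 < ε) {c : ℤ × ℤ} {z w : ℂ} (hz : z ∈ cell ε c)
    (hw : w ∈ cell ε c) : ‖w - z‖ < 2 * ε := by
  obtain ⟨h1, h2⟩ := hz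
  obtain ⟨h3, h4⟩ := hw
  rw [Int.floor_eq_iff, le_div_iff₀ hε, div_lt_iff₀ hε] at h1 h2 h3 h4
  have a : |(w - z).re| < ε := by
    rw [Complex.sub_re, abs_lt]; constructor <;> nlinarith
  have b : |(w - z).im| < ε := by
    rw [Complex.sub_im, abs_lt]; constructor <;> nlinarith
  have := Complex.norm_le_abs_re_add_abs_im (w - z)
  linarith

/-- variance inequality on a set of finite measure -/
theorem var_le {Q : Set ℂ} (hQ : volume Q ≠ ∞) {v : ℂ → ℝ} (hv : Continuous v)
    (hc : HasCompactSupport v) (x : ℝ) {A : ℝ} (hA : A = (volume Q).toReal) (hA0 : 0 < A) :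
    A * (x - A⁻¹ * ∫ w in Q, v w) ^ 2 ≤ ∫ w in Q, (x - v w) ^ 2 := by
  set m := A⁻¹ * ∫ w in Q, v w with hm
  have : IsFiniteMeasure (volume.restrict Q) := ⟨by
    rw [Measure.restrict_apply_univ]; exact lt_top_iff_ne_top.2 hQ⟩
  have i1 : Integrable v (volume.restrict Q) := (hv.integrable_of_hasCompactSupport hc).restrict
  have i2 : Integrable (fun w => v w ^ 2) (volume.restrict Q) := by
    have : HasCompactSupport fun w => v w ^ 2 := hc.comp_left (g := fun x : ℝ => x ^ 2) (by norm_num)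
    exact ((hv.pow 2).integrable_of_hasCompactSupport this).restrict
  have h1 : ∫ w in Q, v w = A * m := by
    rw [hm, ← mul_assoc, mul_inv_cancel₀ hA0.ne', one_mul]
  have h0 : 0 ≤ ∫ w in Q, (v w - m) ^ 2 := integral_nonneg fun w => sq_nonneg _
  have e0 : ∫ w in Q, (v w - m) ^ 2 = (∫ w in Q, v w ^ 2) - 2 * m * (A * m) + m ^ 2 * A := by
    have e : ∀ w, (v w - m) ^ 2 = v w ^ 2 - 2 * m * v w + m ^ 2 := fun w => by ring
    have i3 : Integrable (fun w => v w ^ 2 - 2 * m * v w) (volume.restrict Q) :=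
      i2.sub (i1.const_mul _)
    simp_rw [e]
    rw [integral_add i3 (integrable_const _), integral_sub i2 (i1.const_mul _),
      integral_const_mul, h1, integral_const]
    simp [Measure.real, hA, mul_comm]
  have e1 : ∫ w in Q, (x - v w) ^ 2 = (∫ w in Q, v w ^ 2) - 2 * x * (A * m) + x ^ 2 * A := by
    have e : ∀ w, (x - v w) ^ 2 = v w ^ 2 - 2 * x * v w + x ^ 2 := fun w => by ring
    have i3 : Integrable (fun w => v w ^ 2 - 2 * x * v w) (volume.restrict Q) :=
      i2.sub (i1.const_mul _)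
    simp_rw [e]
    rw [integral_add i3 (integrable_const _), integral_sub i2 (i1.const_mul _),
      integral_const_mul, h1, integral_const]
    simp [Measure.real, hA, mul_comm]
  rw [e1]
  rw [e0] at h0
  nlinarith

/-- index of the cell -/
noncomputable def cidx (ε : ℝ) (z : ℂ) : ℤ × ℤ := (⌊z.re / ε⌋, ⌊z.im / ε⌋)

theorem mem_cidx (ε : ℝ) (z : ℂ) : z ∈ cell ε (cidx ε z) := ⟨rfl, rfl⟩

/-- averages over cells -/
noncomputable def cavg (ε : ℝ) (v : ℂ → ℝ) (z : ℂ) : ℝ := (ε ^ 2)⁻¹ * ∫ w in cell ε (cidx ε z), v w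

theorem cavg_pt {ε : ℝ} (hε : 0 < ε) {v : ℂ → ℝ} (hv : Continuous v) (hc : HasCompactSupport v)
    (z : ℂ) : ENNReal.ofReal ((v z - cavg ε v z) ^ 2) ≤ (ENNReal.ofReal (ε ^ 2))⁻¹ *
      ∫⁻ h in Metric.ball (0 : ℂ) (2 * ε), ENNReal.ofReal ((v (z + h) - v z) ^ 2) := by
  set Q := cell ε (cidx ε z) with hQ
  have hvol : volume Q = ENNReal.ofReal (ε ^ 2) := cell_vol hε _
  have hfin : volume Q ≠ ∞ := by rw [hvol]; exact ENNReal.ofReal_ne_top
  have hA : ε ^ 2 = (volume Q).toReal := by rw [hvol, ENNReal.toReal_ofReal (by positivity)]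
  have h1 := var_le hfin hv hc (v z) hA (by positivity)
  have h2 : (v z - cavg ε v z) ^ 2 ≤ (ε ^ 2)⁻¹ * ∫ w in Q, (v z - v w) ^ 2 := by
    rw [inv_mul_eq_div, le_div_iff₀ (by positivity), mul_comm]
    exact h1
  have : IsFiniteMeasure (volume.restrict Q) := ⟨by
    rw [Measure.restrict_apply_univ]; exact lt_top_iff_ne_top.2 hfin⟩
  have hbdd : ∃ C, ∀ w, ‖v w‖ ≤ C := hc.exists_bound_of_continuous hv
  obtain ⟨C, hC⟩ := hbdd
  have hint : Integrable (fun w => (v z - v w) ^ 2) (volume.restrict Q) := by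
    refine Integrable.of_bound (C := (C + C) ^ 2)
      (((continuous_const.sub hv).pow 2).aestronglyMeasurable) (Eventually.of_forall fun w => ?_)
    rw [norm_pow]
    apply pow_le_pow_left₀ (norm_nonneg _)
    exact (norm_sub_le _ _).trans (add_le_add (hC z) (hC w))
  have h3 : ENNReal.ofReal (∫ w in Q, (v z - v w) ^ 2) = ∫⁻ w in Q, ENNReal.ofReal ((v z - v w) ^ 2) :=
    ofReal_integral_eq_lintegral_ofReal hint (Eventually.of_forall fun w => sq_nonneg _)
  calc ENNReal.ofReal ((v z - cavg ε v z) ^ 2)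
      ≤ ENNReal.ofReal ((ε ^ 2)⁻¹ * ∫ w in Q, (v z - v w) ^ 2) := ENNReal.ofReal_le_ofReal h2
    _ = (ENNReal.ofReal (ε ^ 2))⁻¹ * ∫⁻ w in Q, ENNReal.ofReal ((v z - v w) ^ 2) := by
        rw [ENNReal.ofReal_mul (by positivity), h3, ENNReal.ofReal_inv_of_pos (by positivity)]
    _ ≤ (ENNReal.ofReal (ε ^ 2))⁻¹ *
          ∫⁻ w in Metric.ball z (2 * ε), ENNReal.ofReal ((v z - v w) ^ 2) := by
        gcongr
        intro w hw
        rw [Metric.mem_ball, dist_eq_norm]
        exact cell_dist hε (mem_cidx ε z) hw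
    _ = _ := by
        congr 1
        have hmp : MeasurePreserving (fun h : ℂ => z + h) volume volume :=
          measurePreserving_add_left volume z
        have hpre : (fun h : ℂ => z + h) ⁻¹' (Metric.ball z (2 * ε)) = Metric.ball 0 (2 * ε) := by
          ext h; simp
        rw [← hpre, ← hmp.setLIntegral_comp_preimage_emb (measurableEmbedding_addLeft z)]
        apply lintegral_congr
        intro h
        congr 1
        ring

theorem cavg_est {ε : ℝ} (hε : 0 < ε) {v : ℂ → ℝ} (hv : ContDiff ℝ 1 v)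
    (hc : HasCompactSupport v) :
    ∫⁻ z, ENNReal.ofReal ((v z - cavg ε v z) ^ 2) ≤
      ENNReal.ofReal (16 * Real.pi * ε ^ 2) * ∫⁻ z, ENNReal.ofReal (gsq v z) := by
  have hjm : Measurable fun p : ℂ × ℂ => ENNReal.ofReal ((v (p.1 + p.2) - v p.1) ^ 2) := by
    apply Measurable.ennreal_ofReal
    apply Continuous.measurable
    have := hv.continuous
    fun_prop
  calc ∫⁻ z, ENNReal.ofReal ((v z - cavg ε v z) ^ 2)
      ≤ ∫⁻ z, (ENNReal.ofReal (ε ^ 2))⁻¹ *
          ∫⁻ h in Metric.ball (0 : ℂ) (2 * ε), ENNReal.ofReal ((v (z + h) - v z) ^ 2) :=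
        lintegral_mono fun z => cavg_pt hε hv.continuous hc z
    _ = (ENNReal.ofReal (ε ^ 2))⁻¹ *
          ∫⁻ h in Metric.ball (0 : ℂ) (2 * ε), ∫⁻ z, ENNReal.ofReal ((v (z + h) - v z) ^ 2) := by
        rw [lintegral_const_mul, lintegral_lintegral_swap]
        · exact hjm.aemeasurable
        · exact hjm.lintegral_prod_right'
    _ ≤ (ENNReal.ofReal (ε ^ 2))⁻¹ *
          ∫⁻ _h in Metric.ball (0 : ℂ) (2 * ε), ENNReal.ofReal ((2 * ε) ^ 2) *
            ∫⁻ z, ENNReal.ofReal (gsq v z) := by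
        refine mul_le_mul' le_rfl (setLIntegral_mono measurable_const ?_)
        intro h hh
        refine (trans_est hv h).trans ?_
        gcongr
        rw [mem_ball_zero_iff] at hh
        exact hh.le
    _ = (ENNReal.ofReal (ε ^ 2))⁻¹ * (ENNReal.ofReal ((2 * ε) ^ 2) *
            (∫⁻ z, ENNReal.ofReal (gsq v z)) * volume (Metric.ball (0 : ℂ) (2 * ε))) := by
        rw [setLIntegral_const]
    _ = _ := by
        rw [Complex.volume_ball, ← ENNReal.ofReal_inv_of_pos (by positivity)]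
        have : (NNReal.pi : ℝ≥0∞) = ENNReal.ofReal Real.pi := by
          rw [← NNReal.coe_real_pi, ENNReal.ofReal_coe_nnreal]
        rw [this, ← ENNReal.ofReal_pow (by positivity)]
        rw [show ∀ a b c d e : ℝ≥0∞, a * (b * c * (d * e)) = (a * b * d * e) * c from
          fun a b c d e => by ring]
        congr 1
        rw [← ENNReal.ofReal_mul (by positivity), ← ENNReal.ofReal_mul (by positivity),
          ← ENNReal.ofReal_mul (by positivity)]
        congr 1
        field_simp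
        ring

end Pool.Agent.Helper61.KS
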