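import Mathlib
import Pool.Agent.Helper61.KS.Rellich

/-! Compactness of the embedding of `H_0^1` in `L^2`. -/

set_option autoImplicit false
open MeasureTheory Topology Filter Set
open scoped ENNReal

namespace Pool.Agent.Helper61.KS

variable {Ω : Set ℂ}

/-- component operators -/
noncomputable def Jc (Ω : Set ℂ) (i : Fin 3) :
    Lp F3 2 (volume.restrict Ω) →L[ℝ] Lp ℝ 2 (volume.restrict Ω) :=
  (EuclideanSpace.proj i : F3 →L[ℝ] ℝ).compLpL 2 (volume.restrict Ω)

theorem Jc_ae (i : Fin 3) (U : Lp F3 2 (volume.restrict Ω)) :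
    Jc Ω i U =ᵐ[volume.restrict Ω] fun z => U z i :=
  ContinuousLinearMap.coeFn_compLpL _ _

/-- squared norms as lower integrals -/
theorem norm_sq_eq_lint {E : Type*} [NormedAddCommGroup E] {μ : Measure ℂ} (g : Lp E 2 μ) :
    ENNReal.ofReal (‖g‖ ^ 2) = ∫⁻ z, ENNReal.ofReal (‖g z‖ ^ 2) ∂μ := by
  rw [Lp.norm_def, ← ENNReal.toReal_pow, ENNReal.ofReal_toReal
    (ENNReal.pow_ne_top (Lp.eLpNorm_ne_top g))]
  rw [eLpNorm_eq_lintegral_rpow_enorm_toReal (by norm_num) (by norm_num)]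
  rw [← ENNReal.rpow_natCast, ← ENNReal.rpow_mul]
  norm_num

/-- indicator of a cell -/
noncomputable def chi (Ω : Set ℂ) [IsFiniteMeasure (volume.restrict Ω)] (ε : ℝ) (c : ℤ × ℤ) :
    Lp ℝ 2 (volume.restrict Ω) :=
  indicatorConstLp 2 (cell_meas ε c) (measure_ne_top _ _) (1 : ℝ)

/-- averaging operator -/
noncomputable def Eop (Ω : Set ℂ) [IsFiniteMeasure (volume.restrict Ω)] (F : Finset (ℤ × ℤ))
    (ε : ℝ) : Lp ℝ 2 (volume.restrict Ω) →L[ℝ] Lp ℝ 2 (volume.restrict Ω) :=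
  ∑ c ∈ F, (innerSL ℝ (chi Ω ε c)).smulRight ((ε ^ 2)⁻¹ • chi Ω ε c)

theorem Eop_compact [IsFiniteMeasure (volume.restrict Ω)] (F : Finset (ℤ × ℤ)) (ε : ℝ) :
    IsCompactOperator (Eop Ω F ε) := by
  unfold Eop
  induction F using Finset.induction_on with
  | empty => simp only [Finset.sum_empty]; exact isCompactOperator_zero
  | insert a s ha ih =>
    rw [Finset.sum_insert ha]
    refine IsCompactOperator.add ?_ ih
    have h1 : IsCompactOperator (innerSL ℝ (chi Ω ε a)) :=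
      isCompactOperator_of_locallyCompactSpace_dom _
    have h2 := h1.clm_comp (ContinuousLinearMap.toSpanSingleton ℝ ((ε ^ 2)⁻¹ • chi Ω ε a))
    exact h2

theorem Eop_ae [IsFiniteMeasure (volume.restrict Ω)] (hΩm : MeasurableSet Ω)
    {F : Finset (ℤ × ℤ)} {ε : ℝ}
    (hF : ∀ z ∈ Ω, cidx ε z ∈ F) (f : Lp ℝ 2 (volume.restrict Ω)) :
    Eop Ω F ε f =ᵐ[volume.restrict Ω]
      fun z => (ε ^ 2)⁻¹ * ∫ w in cell ε (cidx ε z), f w ∂(volume.restrict Ω) := by
  have e1 : Eop Ω F ε f = ∑ c ∈ F, ((∫ w in cell ε c, f w ∂(volume.restrict Ω)) * (ε ^ 2)⁻¹) •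
      chi Ω ε c := by
    unfold Eop
    rw [_root_.sum_apply]
    apply Finset.sum_congr rfl
    intro c _
    rw [ContinuousLinearMap.smulRight_apply, innerSL_apply_apply, smul_smul]
    congr 2
    exact L2.inner_indicatorConstLp_one (𝕜 := ℝ) (cell_meas ε c) (measure_ne_top _ _) f
  rw [e1]
  have h1 := Lp.coeFn_finsetSum (μ := volume.restrict Ω) (p := 2) F
    (fun c => ((∫ w in cell ε c, f w ∂(volume.restrict Ω)) * (ε ^ 2)⁻¹) • chi Ω ε c)
  have h2 : ∀ᵐ z ∂(volume.restrict Ω), ∀ c ∈ F,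
      (((∫ w in cell ε c, f w ∂(volume.restrict Ω)) * (ε ^ 2)⁻¹) • chi Ω ε c :
        Lp ℝ 2 (volume.restrict Ω)) z =
      ((∫ w in cell ε c, f w ∂(volume.restrict Ω)) * (ε ^ 2)⁻¹) *
        (cell ε c).indicator (fun _ => (1 : ℝ)) z := by
    rw [Filter.eventually_all_finset]
    intro c _
    have h3 := Lp.coeFn_smul ((∫ w in cell ε c, f w ∂(volume.restrict Ω)) * (ε ^ 2)⁻¹) (chi Ω ε c)
    have h4 : chi Ω ε c =ᵐ[volume.restrict Ω] (cell ε c).indicator (fun _ => (1 : ℝ)) :=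
      indicatorConstLp_coeFn
    filter_upwards [h3, h4] with z h5 h6
    rw [h5, Pi.smul_apply, h6, smul_eq_mul]
  filter_upwards [h1, h2, ae_restrict_mem hΩm] with z h3 h4 hz
  rw [h3, Finset.sum_apply, Finset.sum_congr rfl h4, Finset.sum_eq_single (cidx ε z)]
  · rw [indicator_of_mem (mem_cidx ε z), mul_one, mul_comm]
  · intro c _ hne
    have : z ∉ cell ε c := by
      rintro ⟨h5, h6⟩
      exact hne (Prod.ext h5.symm h6.symm)
    rw [indicator_of_notMem this, mul_zero]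
  · intro h
    exact absurd (hF z hz) h

theorem Eop_est [IsFiniteMeasure (volume.restrict Ω)] (hΩm : MeasurableSet Ω)
    {F : Finset (ℤ × ℤ)} {ε : ℝ} (hε : 0 < ε)
    (hF : ∀ z ∈ Ω, cidx ε z ∈ F) {U : Lp F3 2 (volume.restrict Ω)} (hU : U ∈ core Ω) :
    ‖Jc Ω 0 U - Eop Ω F ε (Jc Ω 0 U)‖ ≤ √(16 * Real.pi) * ε * ‖U‖ := by
  obtain ⟨v, hv, hUv⟩ := hU
  set f := Jc Ω 0 U with hf
  have hfv : f =ᵐ[volume.restrict Ω] v := by
    filter_upwards [Jc_ae 0 U, hUv] with z h1 h2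
    rw [hf, h1, h2]; rfl
  have hz0 : ∀ z, z ∉ Ω → v z = 0 := fun z hz =>
    image_eq_zero_of_notMem_tsupport fun h => hz (hv.supp h)
  have hE : Eop Ω F ε f =ᵐ[volume.restrict Ω] cavg ε v := by
    filter_upwards [Eop_ae hΩm hF f] with z h1
    rw [h1]
    unfold cavg
    congr 1
    have h2 : ∫ w in cell ε (cidx ε z), f w ∂(volume.restrict Ω)
        = ∫ w in cell ε (cidx ε z), v w ∂(volume.restrict Ω) :=
      integral_congr_ae (ae_restrict_of_ae hfv)
    rw [h2, Measure.restrict_restrict (cell_meas _ _)]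
    have h3 : ∫ w in cell ε (cidx ε z) ∩ Ω, v w = ∫ w in cell ε (cidx ε z), v w := by
      rw [← integral_indicator ((cell_meas _ _).inter hΩm), ← integral_indicator (cell_meas _ _)]
      congr 1
      ext w
      by_cases h4 : w ∈ cell ε (cidx ε z)
      · by_cases h5 : w ∈ Ω
        · rw [indicator_of_mem (show w ∈ cell ε (cidx ε z) ∩ Ω from ⟨h4, h5⟩),
            indicator_of_mem h4]
        · rw [indicator_of_notMem (show w ∉ cell ε (cidx ε z) ∩ Ω from fun h => h5 h.2),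
            indicator_of_mem h4, hz0 w h5]
      · rw [indicator_of_notMem (show w ∉ cell ε (cidx ε z) ∩ Ω from fun h => h4 h.1),
          indicator_of_notMem h4]
    exact h3
  have h1 : ENNReal.ofReal (‖f - Eop Ω F ε f‖ ^ 2) ≤
      ENNReal.ofReal ((√(16 * Real.pi) * ε * ‖U‖) ^ 2) := by
    rw [norm_sq_eq_lint]
    calc ∫⁻ z in Ω, ENNReal.ofReal (‖(f - Eop Ω F ε f) z‖ ^ 2)
        = ∫⁻ z in Ω, ENNReal.ofReal ((v z - cavg ε v z) ^ 2) := by
          apply lintegral_congr_ae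
          filter_upwards [Lp.coeFn_sub f (Eop Ω F ε f), hfv, hE] with z h2 h3 h4
          rw [h2, Pi.sub_apply, h3, h4, Real.norm_eq_abs, sq_abs]
      _ ≤ ∫⁻ z, ENNReal.ofReal ((v z - cavg ε v z) ^ 2) := setLIntegral_le_lintegral _ _
      _ ≤ ENNReal.ofReal (16 * Real.pi * ε ^ 2) * ∫⁻ z, ENNReal.ofReal (gsq v z) :=
          cavg_est hε hv.smooth hv.comp
      _ ≤ ENNReal.ofReal (16 * Real.pi * ε ^ 2) * ENNReal.ofReal (‖U‖ ^ 2) := by
          gcongr
          rw [norm_sq_eq_lint]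
          calc ∫⁻ z, ENNReal.ofReal (gsq v z) = ∫⁻ z in Ω, ENNReal.ofReal (gsq v z) := by
                rw [← lintegral_indicator hΩm]
                apply lintegral_congr
                intro z
                by_cases hz : z ∈ Ω
                · rw [indicator_of_mem hz]
                · rw [indicator_of_notMem hz]
                  have hz' : z ∉ tsupport v := fun h => hz (hv.supp h)
                  have h1 : fderiv ℝ v z = 0 :=
                    image_eq_zero_of_notMem_tsupport fun h => hz' (tsupport_fderiv_subset ℝ h)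
                  simp [gsq, h1]
            _ ≤ ∫⁻ z in Ω, ENNReal.ofReal (‖U z‖ ^ 2) := by
                apply lintegral_mono_ae
                filter_upwards [hUv] with z hz
                rw [hz]
                apply ENNReal.ofReal_le_ofReal
                rw [F3_norm_sq]
                simp only [jet, mk3_0, mk3_1, mk3_2, gsq]
                have hop : ‖fderiv ℝ v z‖ ≤
                    √((fderiv ℝ v z 1) ^ 2 + (fderiv ℝ v z Complex.I) ^ 2) := by
                  apply ContinuousLinearMap.opNorm_le_bound _ (Real.sqrt_nonneg _)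
                  intro h
                  have hh : fderiv ℝ v z h = h.re * fderiv ℝ v z 1 + h.im * fderiv ℝ v z Complex.I := by
                    have : h = h.re • (1 : ℂ) + h.im • Complex.I := by
                      apply Complex.ext <;> simp
                    conv_lhs => rw [this]
                    rw [map_add, map_smul, map_smul, smul_eq_mul, smul_eq_mul]
                  rw [hh, Real.norm_eq_abs]
                  apply abs_le_of_sq_le_sq _ (by positivity)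
                  rw [mul_pow, Real.sq_sqrt (by positivity), ← Complex.normSq_eq_norm_sq,
                    Complex.normSq_apply]
                  nlinarith [sq_nonneg (h.re * fderiv ℝ v z Complex.I - h.im * fderiv ℝ v z 1)]
                have := pow_le_pow_left₀ (norm_nonneg _) hop 2
                rw [Real.sq_sqrt (by positivity)] at this
                nlinarith [sq_nonneg (v z)]
      _ = _ := by
          rw [← ENNReal.ofReal_mul (by positivity)]
          congr 1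
          rw [mul_pow, mul_pow, Real.sq_sqrt (by positivity)]
  have h2 := (ENNReal.ofReal_le_ofReal_iff (by positivity)).1 h1
  exact le_of_sq_le_sq h2 (by positivity)

theorem Eop_est' [IsFiniteMeasure (volume.restrict Ω)] (hΩm : MeasurableSet Ω)
    {F : Finset (ℤ × ℤ)} {ε : ℝ} (hε : 0 < ε)
    (hF : ∀ z ∈ Ω, cidx ε z ∈ F) {U : Lp F3 2 (volume.restrict Ω)} (hU : U ∈ Hsub Ω) :
    ‖Jc Ω 0 U - Eop Ω F ε (Jc Ω 0 U)‖ ≤ √(16 * Real.pi) * ε * ‖U‖ := by
  have hcl : IsClosed {U : Lp F3 2 (volume.restrict Ω) |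
      ‖Jc Ω 0 U - Eop Ω F ε (Jc Ω 0 U)‖ ≤ √(16 * Real.pi) * ε * ‖U‖} := by
    apply isClosed_le <;> fun_prop
  have hsub : (core Ω : Set (Lp F3 2 (volume.restrict Ω))) ⊆
      {U : Lp F3 2 (volume.restrict Ω) |
        ‖Jc Ω 0 U - Eop Ω F ε (Jc Ω 0 U)‖ ≤ √(16 * Real.pi) * ε * ‖U‖} :=
    fun U hU => Eop_est hΩm hε hF hU
  exact closure_minimal hsub hcl hU

/-- the embedding `H_0^1 → L^2` -/
noncomputable def JH (Ω : Set ℂ) : Hsub Ω →L[ℝ] Lp ℝ 2 (volume.restrict Ω) :=
  (Jc Ω 0) ∘L (Hsub Ω).subtypeL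

theorem cidx_mem {R : ℝ} {ε : ℝ} (hε : 0 < ε) {z : ℂ} (h1 : |z.re| ≤ R) (h2 : |z.im| ≤ R) :
    cidx ε z ∈ (Finset.Icc ⌊-R / ε⌋ ⌊R / ε⌋) ×ˢ (Finset.Icc ⌊-R / ε⌋ ⌊R / ε⌋) := by
  rw [abs_le] at h1 h2
  rw [Finset.mem_product, Finset.mem_Icc, Finset.mem_Icc]
  refine ⟨⟨?_, ?_⟩, ?_, ?_⟩ <;> apply Int.floor_le_floor <;>
    apply div_le_div_of_nonneg_right _ hε.le <;> linarith [h1.1, h1.2, h2.1, h2.2]

theorem JH_compact (hfin : volume Ω ≠ ∞) (hΩm : MeasurableSet Ω) {R : ℝ}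
    (hR : ∀ z ∈ Ω, |z.re| ≤ R ∧ |z.im| ≤ R) : IsCompactOperator (JH Ω) := by
  have : IsFiniteMeasure (volume.restrict Ω) := ⟨by
    rw [Measure.restrict_apply_univ]; exact lt_top_iff_ne_top.2 hfin⟩
  let F : ℕ → Finset (ℤ × ℤ) := fun n =>
    (Finset.Icc ⌊-R / (1 / ((n : ℝ) + 1))⌋ ⌊R / (1 / ((n : ℝ) + 1))⌋) ×ˢ
      (Finset.Icc ⌊-R / (1 / ((n : ℝ) + 1))⌋ ⌊R / (1 / ((n : ℝ) + 1))⌋)
  have hε : ∀ n : ℕ, (0 : ℝ) < 1 / ((n : ℝ) + 1) := fun n => by positivity
  have hlim : Tendsto (fun n : ℕ => (Eop Ω (F n) (1 / ((n : ℝ) + 1))) ∘L (JH Ω)) atTop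
      (𝓝 (JH Ω)) := by
    refine (tendsto_iff_norm_sub_tendsto_zero (E := Hsub Ω →L[ℝ] Lp ℝ 2 (volume.restrict Ω))).2 ?_
    have h1 : Tendsto (fun n : ℕ => √(16 * Real.pi) * (1 / ((n : ℝ) + 1))) atTop (𝓝 0) := by
      have := (tendsto_one_div_add_atTop_nhds_zero_nat (𝕜 := ℝ)).const_mul (√(16 * Real.pi))
      simpa using this
    refine squeeze_zero (fun n => ContinuousLinearMap.opNorm_nonneg _) (fun n => ?_) h1
    apply ContinuousLinearMap.opNorm_le_bound _ (by positivity)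
    intro U
    have h2 := Eop_est' hΩm (hε n) (F := F n)
      (fun z hz => cidx_mem (hε n) (hR z hz).1 (hR z hz).2) U.2
    rw [norm_sub_rev] at h2
    exact h2
  refine isCompactOperator_of_tendsto hlim (Eventually.of_forall fun n => ?_)
  exact (Eop_compact (F n) _).comp_clm (JH Ω)

end Pool.Agent.Helper61.KS
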