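import Mathlib
import Pool.Agent.Helper61.KS.IBP

/-! The vector field carried by a closed curve. -/

set_option autoImplicit false
open MeasureTheory Topology Filter Set
open scoped ENNReal

namespace Pool.Agent.Helper61.KS

/-- Fubini for a continuous function with compact support in the first variable -/
theorem fub {E : Type*} [NormedAddCommGroup E] [NormedSpace ℝ E] {F : ℂ → ℝ → E} {K : Set ℂ}
    (hK : IsCompact K) (hF : ContinuousOn (Function.uncurry F) (K ×ˢ Icc (0 : ℝ) 1))
    (h0 : ∀ z, z ∉ K → ∀ t ∈ Icc (0 : ℝ) 1, F z t = 0) :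
    ∫ z, ∫ t in (0 : ℝ)..1, F z t = ∫ t in (0 : ℝ)..1, ∫ z, F z t ∧
    IntervalIntegrable (fun t => ∫ z, F z t) volume 0 1 := by
  have hint : Integrable (Function.uncurry F)
      ((volume.restrict K).prod (volume.restrict (Ioc (0 : ℝ) 1))) := by
    rw [Measure.prod_restrict]
    have h1 : IntegrableOn (Function.uncurry F) (K ×ˢ Icc (0 : ℝ) 1)
        ((volume : Measure ℂ).prod (volume : Measure ℝ)) :=
      hF.integrableOn_compact (hK.prod isCompact_Icc)
    exact h1.mono_set (Set.prod_mono le_rfl Ioc_subset_Icc_self)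
  have e1 : ∫ z, ∫ t in (0 : ℝ)..1, F z t = ∫ z in K, ∫ t in Ioc (0 : ℝ) 1, F z t := by
    rw [← setIntegral_eq_integral_of_forall_compl_eq_zero (s := K)]
    · simp_rw [intervalIntegral.integral_of_le zero_le_one]
    · intro z hz
      rw [intervalIntegral.integral_of_le zero_le_one]
      apply setIntegral_eq_zero_of_forall_eq_zero
      intro t ht
      exact h0 z hz t (Ioc_subset_Icc_self ht)
  have e2 : ∫ t in (0 : ℝ)..1, ∫ z, F z t = ∫ t in Ioc (0 : ℝ) 1, ∫ z in K, F z t := by
    rw [intervalIntegral.integral_of_le zero_le_one]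
    apply setIntegral_congr_fun measurableSet_Ioc
    intro t ht
    symm
    apply setIntegral_eq_integral_of_forall_compl_eq_zero
    intro z hz
    exact h0 z hz t (Ioc_subset_Icc_self ht)
  refine ⟨?_, ?_⟩
  · rw [e1, e2]
    exact integral_integral_swap hint
  · rw [intervalIntegrable_iff_integrableOn_Ioc_of_le zero_le_one]
    have h3 : Integrable (fun t => ∫ z in K, F z t) (volume.restrict (Ioc (0 : ℝ) 1)) :=
      hint.integral_prod_right
    refine h3.congr ?_
    filter_upwards [ae_restrict_mem measurableSet_Ioc] with t ht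
    apply setIntegral_eq_integral_of_forall_compl_eq_zero
    intro z hz
    exact h0 z hz t (Ioc_subset_Icc_self ht)

/-- a mollifier -/
structure Mol (η : ℂ → ℝ) (δ : ℝ) : Prop where
  smooth : ContDiff ℝ 1 η
  nonneg : ∀ z, 0 ≤ η z
  supp : ∀ z, δ ≤ ‖z‖ → η z = 0
  int : ∫ z, η z = 1

theorem exists_mol {δ : ℝ} (hδ : 0 < δ) : ∃ η, Mol η δ := by
  let φ : ContDiffBump (0 : ℂ) := ⟨δ / 2, δ, by linarith, by linarith⟩
  refine ⟨φ.normed volume, φ.contDiff_normed (n := 1), fun z => φ.nonneg_normed z, ?_,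
    φ.integral_normed⟩
  intro z hz
  have h : z ∉ Function.support (φ.normed volume) := by
    rw [φ.support_normed_eq]
    simp only [Metric.mem_ball, dist_zero_right, not_lt]
    exact hz
  rwa [Function.notMem_support] at h

variable {η : ℂ → ℝ} {δ : ℝ}

theorem Mol.comp (h : Mol η δ) : HasCompactSupport η :=
  HasCompactSupport.intro (isCompact_closedBall (0 : ℂ) δ) fun z hz => h.supp z (by
    simp only [Metric.mem_closedBall, dist_zero_right, not_le] at hz
    exact hz.le)

/-- the density of the curve -/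
noncomputable def mden (η : ℂ → ℝ) (γ : ℝ → ℂ) (z : ℂ) : ℝ := ∫ t in (0 : ℝ)..1, η (z - γ t)

/-- the current of the curve -/
noncomputable def bden (η : ℂ → ℝ) (γ : ℝ → ℂ) (z : ℂ) : ℂ :=
  ∫ t in (0 : ℝ)..1, (η (z - γ t) : ℂ) * deriv γ t

variable {γ : ℝ → ℂ}

theorem mden_smooth (h : Mol η δ) (hγ : Continuous γ) : ContDiff ℝ 1 (mden η γ) := by
  have e : mden η γ = convolution (fun _ => (1 : ℝ)) η (ContinuousLinearMap.lsmul ℝ ℝ)
      (Measure.map γ (volume.restrict (Ioc (0 : ℝ) 1))) := by
    ext z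
    unfold mden convolution
    rw [intervalIntegral.integral_of_le zero_le_one, integral_map hγ.aemeasurable]
    · simp
    · apply Continuous.aestronglyMeasurable
      have := h.smooth.continuous
      simp only [ContinuousLinearMap.lsmul_apply]
      fun_prop
  rw [e]
  have : IsFiniteMeasure (Measure.map γ (volume.restrict (Ioc (0 : ℝ) 1))) := by
    infer_instance
  exact h.comp.contDiff_convolution_right (n := 1) _ (locallyIntegrable_const 1) h.smooth

theorem bden_cont (h : Mol η δ) (hγ : ContDiff ℝ 1 γ) : Continuous (bden η γ) := by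
  unfold bden
  apply intervalIntegral.continuous_parametric_intervalIntegral_of_continuous'
  have h1 := h.smooth.continuous
  have h2 := hγ.continuous
  have h3 := hγ.continuous_deriv (by norm_num)
  unfold Function.uncurry
  simp only
  exact (Complex.continuous_ofReal.comp (h1.comp (continuous_fst.sub (h2.comp continuous_snd)))).mul
    (h3.comp continuous_snd)

theorem bden_le (h : Mol η δ) (hγ : ContDiff ℝ 1 γ) {M : ℝ}
    (hM : ∀ t ∈ Icc (0 : ℝ) 1, ‖deriv γ t‖ ≤ M) (z : ℂ) : ‖bden η γ z‖ ≤ M * |mden η γ z| := by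
  have h1 := h.smooth.continuous
  have h2 := hγ.continuous
  have hm : 0 ≤ mden η γ z := by
    unfold mden
    exact intervalIntegral.integral_nonneg zero_le_one fun t _ => h.nonneg _
  rw [abs_of_nonneg hm]
  unfold bden mden
  rw [← intervalIntegral.integral_const_mul]
  apply intervalIntegral.norm_integral_le_of_norm_le zero_le_one
  · filter_upwards with t ht
    rw [norm_mul, Complex.norm_real, Real.norm_of_nonneg (h.nonneg _), mul_comm]
    exact mul_le_mul_of_nonneg_right (hM t (Ioc_subset_Icc_self ht)) (h.nonneg _)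
  · apply Continuous.intervalIntegrable
    fun_prop

theorem fderiv_split (v : ℂ → ℝ) (z w : ℂ) :
    fderiv ℝ v z w = w.re * fderiv ℝ v z 1 + w.im * fderiv ℝ v z Complex.I := by
  have e : w = w.re • (1 : ℂ) + w.im • Complex.I := by
    simp only [Complex.real_smul, mul_one]
    exact (Complex.re_add_im w).symm
  conv_lhs => rw [e]
  rw [map_add, map_smul, map_smul, smul_eq_mul, smul_eq_mul]

theorem bden_div (h : Mol η δ) (hγ : ContDiff ℝ 1 γ) (hcl : γ 0 = γ 1) {v : ℂ → ℝ}
    (hv : ContDiff ℝ 1 v) (hvc : HasCompactSupport v) : ∫ z, fderiv ℝ v z (bden η γ z) = 0 := by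
  have c1 := h.smooth.continuous
  have c2 := hγ.continuous
  have c3 : Continuous (deriv γ) := hγ.continuous_deriv (by norm_num)
  have c4 : Continuous (fderiv ℝ v) := hv.continuous_fderiv (by norm_num)
  have e1 : ∀ z, fderiv ℝ v z (bden η γ z)
      = ∫ t in (0 : ℝ)..1, η (z - γ t) * fderiv ℝ v z (deriv γ t) := by
    intro z
    unfold bden
    rw [← ContinuousLinearMap.intervalIntegral_comp_comm]
    · apply intervalIntegral.integral_congr
      intro t _
      simp only
      rw [← Complex.real_smul, map_smul, smul_eq_mul]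
    · apply Continuous.intervalIntegrable
      exact (Complex.continuous_ofReal.comp (c1.comp (continuous_const.sub c2))).mul c3
  simp_rw [e1]
  rw [(fub (F := fun z t => η (z - γ t) * fderiv ℝ v z (deriv γ t)) (K := tsupport v)
    hvc ?_ ?_).1]
  · have e2 : ∀ t : ℝ, ∫ z, η (z - γ t) * fderiv ℝ v z (deriv γ t)
        = ∫ w, η w * fderiv ℝ v (w + γ t) (deriv γ t) := by
      intro t
      rw [← integral_add_right_eq_self _ (γ t)]
      simp
    simp_rw [e2]
    rw [← (fub (F := fun w t => η w * fderiv ℝ v (w + γ t) (deriv γ t))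
      (K := Metric.closedBall (0 : ℂ) δ) (isCompact_closedBall _ _) ?_ ?_).1]
    · have e3 : ∀ w : ℂ, ∫ t in (0 : ℝ)..1, η w * fderiv ℝ v (w + γ t) (deriv γ t) = 0 := by
        intro w
        rw [intervalIntegral.integral_const_mul]
        have hd : ∀ t ∈ uIcc (0 : ℝ) 1, HasDerivAt (fun t => v (w + γ t))
            (fderiv ℝ v (w + γ t) (deriv γ t)) t := by
          intro t _
          have d1 : HasDerivAt γ (deriv γ t) t :=
            (hγ.differentiable (by norm_num) t).hasDerivAt
          have d2 : HasFDerivAt v (fderiv ℝ v (w + γ t)) (w + γ t) :=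
            (hv.differentiable (by norm_num) _).hasFDerivAt
          exact d2.comp_hasDerivAt t (d1.const_add w)
        rw [intervalIntegral.integral_eq_sub_of_hasDerivAt hd]
        · rw [hcl]; simp
        · apply Continuous.intervalIntegrable
          exact (c4.comp (continuous_const.add c2)).clm_apply c3
      simp_rw [e3]
      simp
    · apply Continuous.continuousOn
      unfold Function.uncurry
      exact (c1.comp continuous_fst).mul ((c4.comp (continuous_fst.add
        (c2.comp continuous_snd))).clm_apply (c3.comp continuous_snd))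
    · intro z hz t _
      rw [h.supp z, zero_mul]
      simp only [Metric.mem_closedBall, dist_zero_right, not_le] at hz
      exact hz.le
  · apply Continuous.continuousOn
    unfold Function.uncurry
    exact (c1.comp (continuous_fst.sub (c2.comp continuous_snd))).mul
      ((c4.comp continuous_fst).clm_apply (c3.comp continuous_snd))
  · intro z hz t _
    have : fderiv ℝ v z = 0 :=
      image_eq_zero_of_notMem_tsupport fun h => hz (tsupport_fderiv_subset ℝ h)
    rw [this]; simp

variable {Ω : Set ℂ} {k : ℂ → ℂ}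

theorem flux_close (h : Mol η δ) (hγ : ContDiff ℝ 1 γ) {K : Set ℂ} (hK : IsCompact K)
    (hKΩ : K ⊆ Ω) (hk : ContinuousOn k Ω)
    (hball : ∀ t ∈ Icc (0 : ℝ) 1, ∀ z, ‖z - γ t‖ < δ → z ∈ K) {ε M : ℝ}
    (hcl : ∀ t ∈ Icc (0 : ℝ) 1, ∀ z, ‖z - γ t‖ < δ → ‖k z - k (γ t)‖ ≤ ε)
    (hM : ∀ t ∈ Icc (0 : ℝ) 1, ‖deriv γ t‖ ≤ M) (hmem : ∀ t ∈ Icc (0 : ℝ) 1, γ t ∈ Ω) :
    ‖(∫ z in Ω, k z * bden η γ z) - ∫ t in (0 : ℝ)..1, k (γ t) * deriv γ t‖ ≤ ε * M := by
  have c1 := h.smooth.continuous
  have c2 := hγ.continuous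
  have c3 : Continuous (deriv γ) := hγ.continuous_deriv (by norm_num)
  have hz0 : ∀ z, z ∉ K → ∀ t ∈ Icc (0 : ℝ) 1, η (z - γ t) = 0 := by
    intro z hz t ht
    apply h.supp
    by_contra hlt
    exact hz (hball t ht z (not_le.1 hlt))
  have hb0 : ∀ z, z ∉ K → bden η γ z = 0 := by
    intro z hz
    unfold bden
    rw [intervalIntegral.integral_of_le zero_le_one]
    apply setIntegral_eq_zero_of_forall_eq_zero
    intro t ht
    rw [hz0 z hz t (Ioc_subset_Icc_self ht)]; simp
  have e1 : ∫ z in Ω, k z * bden η γ z = ∫ z, k z * bden η γ z := by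
    apply setIntegral_eq_integral_of_forall_compl_eq_zero
    intro z hz
    rw [hb0 z fun h => hz (hKΩ h), mul_zero]
  have e2 : ∀ z, k z * bden η γ z
      = ∫ t in (0 : ℝ)..1, k z * ((η (z - γ t) : ℂ) * deriv γ t) := by
    intro z
    unfold bden
    rw [intervalIntegral.integral_const_mul]
  have hF : ContinuousOn (Function.uncurry fun (z : ℂ) (t : ℝ) =>
      k z * ((η (z - γ t) : ℂ) * deriv γ t)) (K ×ˢ Icc (0 : ℝ) 1) := by
    unfold Function.uncurry
    apply ContinuousOn.mul
    · exact (hk.mono hKΩ).comp continuousOn_fst fun p hp => hp.1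
    · apply Continuous.continuousOn
      exact (Complex.continuous_ofReal.comp (c1.comp (continuous_fst.sub
        (c2.comp continuous_snd)))).mul (c3.comp continuous_snd)
  obtain ⟨f1, f2⟩ := fub (F := fun z t => k z * ((η (z - γ t) : ℂ) * deriv γ t)) hK hF
    (by intro z hz t ht; rw [hz0 z hz t ht]; simp)
  rw [e1]
  simp_rw [e2]
  rw [f1]
  · have hkK : ContinuousOn k K := hk.mono hKΩ
    have hη : ∀ t : ℝ, Integrable fun z => η (z - γ t) := by
      intro t
      exact ((c1.integrable_of_hasCompactSupport h.comp).comp_sub_right (γ t))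
    have hηc : ∀ t : ℝ, Integrable fun z => (η (z - γ t) : ℂ) := fun t => (hη t).ofReal
    have hη1 : ∀ t : ℝ, ∫ z, η (z - γ t) = 1 := by
      intro t
      rw [← h.int]
      exact integral_sub_right_eq_self η (γ t)
    have hin : ∀ t ∈ Icc (0 : ℝ) 1, Integrable fun z => k z * (η (z - γ t) : ℂ) := by
      intro t ht
      have h1 : IntegrableOn (fun z => k z * (η (z - γ t) : ℂ)) K := by
        refine ContinuousOn.integrableOn_compact hK ?_
        apply hkK.mul
        exact (Complex.continuous_ofReal.comp (c1.comp (continuous_id.sub continuous_const))).continuousOn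
      rw [← integrableOn_univ]
      apply h1.of_forall_sdiff_eq_zero MeasurableSet.univ
      intro z hz
      rw [hz0 z hz.2 t ht]; simp
    have key : ∀ t ∈ Icc (0 : ℝ) 1, ‖(∫ z, k z * ((η (z - γ t) : ℂ) * deriv γ t))
        - k (γ t) * deriv γ t‖ ≤ ε * M := by
      intro t ht
      have e3 : ∫ z, k z * ((η (z - γ t) : ℂ) * deriv γ t)
          = (∫ z, k z * (η (z - γ t) : ℂ)) * deriv γ t := by
        rw [← integral_mul_const]
        congr 1; ext z; ring
      have e4 : ∫ z, k (γ t) * (η (z - γ t) : ℂ) = k (γ t) := by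
        rw [integral_const_mul]
        have : ∫ z, (η (z - γ t) : ℂ) = 1 := by
          have := integral_ofReal (𝕜 := ℂ) (μ := (volume : Measure ℂ)) (f := fun z => η (z - γ t))
          refine this.trans ?_
          rw [hη1]; simp
        rw [this, mul_one]
      have e5 : (∫ z, k z * ((η (z - γ t) : ℂ) * deriv γ t)) - k (γ t) * deriv γ t
          = (∫ z, (k z * (η (z - γ t) : ℂ) - k (γ t) * (η (z - γ t) : ℂ))) * deriv γ t := by
        rw [integral_sub (hin t ht) ((hηc t).const_mul _), e4, e3]
        ring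
      rw [e5, norm_mul]
      have e6 : ‖∫ z, (k z * (η (z - γ t) : ℂ) - k (γ t) * (η (z - γ t) : ℂ))‖ ≤ ε := by
        have e7 : ∫ z, ε * η (z - γ t) = ε := by rw [integral_const_mul, hη1, mul_one]
        rw [← e7]
        apply norm_integral_le_of_norm_le ((hη t).const_mul ε)
        filter_upwards with z
        rw [← sub_mul, norm_mul, Complex.norm_real, Real.norm_of_nonneg (h.nonneg _)]
        by_cases hz : ‖z - γ t‖ < δ
        · exact mul_le_mul_of_nonneg_right (hcl t ht z hz) (h.nonneg _)
        · rw [h.supp _ (not_lt.1 hz)]; simp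
      have hε0 : 0 ≤ ε := (norm_nonneg _).trans e6
      exact mul_le_mul e6 (hM t ht) (norm_nonneg _) hε0
    have f3 : IntervalIntegrable (fun t => k (γ t) * deriv γ t) volume 0 1 := by
      apply ContinuousOn.intervalIntegrable
      rw [uIcc_of_le zero_le_one]
      exact (hk.comp c2.continuousOn fun t ht => hmem t ht).mul c3.continuousOn
    rw [← intervalIntegral.integral_sub f2 f3]
    have := intervalIntegral.norm_integral_le_of_norm_le_const (a := (0 : ℝ)) (b := 1)
      (C := ε * M) (f := fun t => (∫ z, k z * ((η (z - γ t) : ℂ) * deriv γ t))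
        - k (γ t) * deriv γ t) (fun t ht => key t (by
          rw [uIoc_of_le zero_le_one] at ht
          exact Ioc_subset_Icc_self ht))
    simpa using this

/-- The field of a closed curve with nonzero period. -/
theorem exists_field (hΩ : IsOpen Ω) (hk : ContinuousOn k Ω) (hγ : ContDiff ℝ 1 γ)
    (hcl : γ 0 = γ 1) (hmem : ∀ t ∈ Icc (0 : ℝ) 1, γ t ∈ Ω)
    (hne : (∫ t in (0 : ℝ)..1, k (γ t) * deriv γ t).re ≠ 0) :
    ∃ (b1 b2 v : ℂ → ℝ) (M : ℝ), DivFree Ω b1 b2 ∧ IsTest Ω v ∧
      (∀ z, |b1 z| ≤ M * |v z|) ∧ (∀ z, |b2 z| ≤ M * |v z|) ∧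
      ∫ z in Ω, ((k z).re * b1 z + -(k z).im * b2 z) ≠ 0 := by
  have c3 : Continuous (deriv γ) := hγ.continuous_deriv (by norm_num)
  -- bound of the speed
  obtain ⟨M, hM⟩ : ∃ M, ∀ t ∈ Icc (0 : ℝ) 1, ‖deriv γ t‖ ≤ M :=
    isCompact_Icc.exists_bound_of_continuousOn c3.continuousOn
  have hM0 : 0 ≤ M := (norm_nonneg _).trans (hM 0 ⟨le_rfl, zero_le_one⟩)
  obtain ⟨P, hP⟩ : ∃ P, P = ∫ t in (0 : ℝ)..1, k (γ t) * deriv γ t := ⟨_, rfl⟩
  rw [← hP] at hne
  have hPpos : 0 < |P.re| := abs_pos.2 hne
  obtain ⟨ε, hε, hεM⟩ : ∃ ε : ℝ, 0 < ε ∧ ε * M < |P.re| := by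
    refine ⟨|P.re| / (2 * (M + 1)), by positivity, ?_⟩
    rw [div_mul_eq_mul_div, div_lt_iff₀ (by positivity)]
    nlinarith
  -- compact neighbourhood
  have hK0 : IsCompact (γ '' Icc (0 : ℝ) 1) := isCompact_Icc.image hγ.continuous
  have hK0Ω : γ '' Icc (0 : ℝ) 1 ⊆ Ω := by
    rintro _ ⟨t, ht, rfl⟩; exact hmem t ht
  obtain ⟨δ0, hδ0, hthick⟩ := hK0.exists_cthickening_subset_open hΩ hK0Ω
  have hK : IsCompact (Metric.cthickening δ0 (γ '' Icc (0 : ℝ) 1)) := hK0.cthickening
  have huc := hK.uniformContinuousOn_of_continuous (hk.mono hthick)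
  rw [Metric.uniformContinuousOn_iff_le] at huc
  obtain ⟨δ1, hδ1, huc'⟩ := huc ε hε
  obtain ⟨δ, hδ, hδa, hδb⟩ : ∃ δ : ℝ, 0 < δ ∧ δ ≤ δ0 ∧ δ ≤ δ1 :=
    ⟨min δ0 δ1, lt_min hδ0 hδ1, min_le_left _ _, min_le_right _ _⟩
  obtain ⟨η, hη⟩ := exists_mol hδ
  have hball : ∀ t ∈ Icc (0 : ℝ) 1, ∀ z, ‖z - γ t‖ < δ →
      z ∈ Metric.cthickening δ0 (γ '' Icc (0 : ℝ) 1) := by
    intro t ht z hz
    apply Metric.mem_cthickening_of_dist_le z (γ t) δ0 (γ '' Icc (0 : ℝ) 1) ⟨t, ht, rfl⟩
    rw [dist_eq_norm]; linarith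
  have hclose : ∀ t ∈ Icc (0 : ℝ) 1, ∀ z, ‖z - γ t‖ < δ → ‖k z - k (γ t)‖ ≤ ε := by
    intro t ht z hz
    rw [← dist_eq_norm]
    refine huc' z (hball t ht z hz) (γ t) (hball t ht _ (by simpa using hδ)) ?_
    rw [dist_eq_norm]; linarith
  have hflux := flux_close hη hγ hK hthick hk hball hclose hM hmem
  have hbc := bden_cont hη hγ
  have hm := mden_smooth hη hγ.continuous
  have hm0 : ∀ z, z ∉ Metric.cthickening δ0 (γ '' Icc (0 : ℝ) 1) → mden η γ z = 0 := by
    intro z hz
    unfold mden
    rw [intervalIntegral.integral_of_le zero_le_one]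
    apply setIntegral_eq_zero_of_forall_eq_zero
    intro t ht
    apply hη.supp
    by_contra hlt
    exact hz (hball t (Ioc_subset_Icc_self ht) z (not_le.1 hlt))
  have htest : IsTest Ω (mden η γ) := by
    refine ⟨hm, HasCompactSupport.intro hK hm0, ?_⟩
    refine subset_trans (closure_minimal ?_ hK.isClosed) hthick
    intro z hz
    by_contra h
    exact hz (hm0 z h)
  have hle := bden_le hη hγ hM
  have hre : ∀ z, |(bden η γ z).re| ≤ M * |mden η γ z| := fun z =>
    (Complex.abs_re_le_norm _).trans (hle z)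
  have him : ∀ z, |(bden η γ z).im| ≤ M * |mden η γ z| := fun z =>
    (Complex.abs_im_le_norm _).trans (hle z)
  obtain ⟨C, hC⟩ := htest.comp.exists_bound_of_continuous hm.continuous
  refine ⟨fun z => (bden η γ z).re, fun z => (bden η γ z).im, mden η γ, M, ?_, htest, hre, him, ?_⟩
  · refine ⟨(Complex.continuous_re.comp hbc).aestronglyMeasurable,
      (Complex.continuous_im.comp hbc).aestronglyMeasurable, ⟨M * C, ?_, ?_⟩, ?_⟩
    · filter_upwards with z
      exact (hre z).trans (mul_le_mul_of_nonneg_left (hC z) hM0)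
    · filter_upwards with z
      exact (him z).trans (mul_le_mul_of_nonneg_left (hC z) hM0)
    · intro v hv
      have h1 := bden_div hη hγ hcl hv.smooth hv.comp
      have h2 : ∫ z, ((bden η γ z).re * fderiv ℝ v z 1
          + (bden η γ z).im * fderiv ℝ v z Complex.I) = 0 := by
        rw [← h1]
        congr 1
        ext z
        exact (fderiv_split v z _).symm
      rw [← h2]
      apply setIntegral_eq_integral_of_forall_compl_eq_zero
      intro z hz
      have hz' : z ∉ tsupport v := fun h => hz (hv.supp h)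
      have h1 : fderiv ℝ v z = 0 :=
        image_eq_zero_of_notMem_tsupport fun h => hz' (tsupport_fderiv_subset ℝ h)
      simp [h1]
  · intro h0
    have hint : IntegrableOn (fun z => k z * bden η γ z) Ω := by
      have h1 : IntegrableOn (fun z => k z * bden η γ z)
          (Metric.cthickening δ0 (γ '' Icc (0 : ℝ) 1)) :=
        ContinuousOn.integrableOn_compact hK ((hk.mono hthick).mul hbc.continuousOn)
      have h2 : Integrable (fun z => k z * bden η γ z) := by
        rw [← integrableOn_univ]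
        apply h1.of_forall_sdiff_eq_zero MeasurableSet.univ
        intro z hz
        have : bden η γ z = 0 := by
          have h3 := hle z
          rw [hm0 z hz.2] at h3
          simpa using h3
        rw [this, mul_zero]
      exact h2.integrableOn
    have h2 : (∫ z in Ω, k z * bden η γ z).re = 0 := by
      have h3 := integral_re (𝕜 := ℂ) hint
      have h4 : (∫ z in Ω, k z * bden η γ z).re = ∫ z in Ω, RCLike.re (k z * bden η γ z) :=
        h3.symm
      rw [h4, ← h0]
      apply integral_congr_ae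
      filter_upwards with z
      simp
      ring
    rw [← hP] at hflux
    have h5 := (Complex.abs_re_le_norm _).trans hflux
    rw [Complex.sub_re, h2, zero_sub, abs_neg] at h5
    linarith

end Pool.Agent.Helper61.KS
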