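import Mathlib
import Pool.Agent.Helper61.KS.IBP
import Pool.Agent.Helper61.KS.Compact
import Pool.Agent.Helper61.KS.Abs

/-! The quadratic form and its operator. -/

set_option autoImplicit false
open MeasureTheory Topology Filter Set
open scoped ENNReal InnerProduct

namespace Pool.Agent.Helper61.KS

theorem memLp_bmul {μ : Measure ℂ} {b f : ℂ → ℝ} (hm : AEStronglyMeasurable b μ)
    (hb : ∃ C : ℝ, ∀ᵐ z ∂μ, |b z| ≤ C) (hf : MemLp f 2 μ) : MemLp (fun z => b z * f z) 2 μ := by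
  obtain ⟨C, hC⟩ := hb
  refine MemLp.of_le_mul (c := C) hf (hm.mul hf.1) ?_
  filter_upwards [hC] with z hz
  rw [norm_mul]
  exact mul_le_mul_of_nonneg_right hz (norm_nonneg _)

/-- multiplication operator -/
noncomputable def Mb {μ : Measure ℂ} {b : ℂ → ℝ} (hm : AEStronglyMeasurable b μ)
    (hb : ∃ C : ℝ, ∀ᵐ z ∂μ, |b z| ≤ C) : Lp ℝ 2 μ →L[ℝ] Lp ℝ 2 μ :=
  LinearMap.mkContinuous
    { toFun := fun f => (memLp_bmul hm hb (Lp.memLp f)).toLp (fun z => b z * f z)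
      map_add' := by
        intro f g
        rw [← MemLp.toLp_add]
        apply MemLp.toLp_congr
        filter_upwards [Lp.coeFn_add f g] with z hz
        rw [hz]
        exact mul_add _ _ _
      map_smul' := by
        intro c f
        rw [RingHom.id_apply, ← MemLp.toLp_const_smul]
        apply MemLp.toLp_congr
        filter_upwards [Lp.coeFn_smul c f] with z hz
        rw [hz]
        exact mul_left_comm _ _ _ } hb.choose (by
      intro f
      apply Lp.norm_le_mul_norm_of_ae_le_mul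
      filter_upwards [MemLp.coeFn_toLp (memLp_bmul hm hb (Lp.memLp f)), hb.choose_spec] with z h1 h2
      simp only [LinearMap.coe_mk, AddHom.coe_mk]
      rw [h1, norm_mul]
      exact mul_le_mul_of_nonneg_right h2 (norm_nonneg _))

theorem Mb_ae {μ : Measure ℂ} {b : ℂ → ℝ} (hm : AEStronglyMeasurable b μ)
    (hb : ∃ C : ℝ, ∀ᵐ z ∂μ, |b z| ≤ C) (f : Lp ℝ 2 μ) : Mb hm hb f =ᵐ[μ] fun z => b z * f z :=
  MemLp.coeFn_toLp (memLp_bmul hm hb (Lp.memLp f))

theorem inner_eq {μ : Measure ℂ} (f g : Lp ℝ 2 μ) : inner ℝ f g = ∫ z, f z * g z ∂μ := by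
  rw [L2.inner_def]
  apply integral_congr_ae
  filter_upwards with z
  simp [mul_comm]

theorem int_mul {μ : Measure ℂ} {f g : ℂ → ℝ} (hf : MemLp f 2 μ) (hg : MemLp g 2 μ) :
    Integrable (fun z => f z * g z) μ := hf.integrable_mul hg

variable {Ω : Set ℂ}

instance : CompleteSpace (Hsub Ω) := by
  unfold Hsub; infer_instance

theorem inner_H (U V : Lp F3 2 (volume.restrict Ω)) : inner ℝ U V =
    ∫ z in Ω, (U z 0 * V z 0 + U z 1 * V z 1 + U z 2 * V z 2) := by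
  rw [L2.inner_def]
  apply integral_congr_ae
  filter_upwards with z
  rw [PiLp.inner_apply, Fin.sum_univ_three]
  simp [mul_comm]

variable {a1 a2 : ℂ → ℝ}

/-- squared length of the drift -/
def sqn (a1 a2 : ℂ → ℝ) (z : ℂ) : ℝ := a1 z ^ 2 + a2 z ^ 2

theorem sqn_nonneg (z : ℂ) : 0 ≤ sqn a1 a2 z := by unfold sqn; positivity

theorem DivFree.sqn_m (hd : DivFree Ω a1 a2) :
    AEStronglyMeasurable (sqn a1 a2) (volume.restrict Ω) :=
  (hd.m1.pow 2).add (hd.m2.pow 2)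

/-- a bound for the squared drift -/
noncomputable def DivFree.beta (hd : DivFree Ω a1 a2) : ℝ := 2 * hd.bdd.choose ^ 2

theorem DivFree.sqn_le (hd : DivFree Ω a1 a2) :
    ∀ᵐ z ∂(volume.restrict Ω), sqn a1 a2 z ≤ hd.beta := by
  filter_upwards [hd.bdd.choose_spec.1, hd.bdd.choose_spec.2] with z h1 h2
  have e1 := pow_le_pow_left₀ (abs_nonneg _) h1 2
  have e2 := pow_le_pow_left₀ (abs_nonneg _) h2 2
  rw [sq_abs] at e1 e2
  unfold sqn DivFree.beta
  linarith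

theorem DivFree.sqn_b (hd : DivFree Ω a1 a2) :
    ∃ C : ℝ, ∀ᵐ z ∂(volume.restrict Ω), |sqn a1 a2 z| ≤ C := by
  refine ⟨hd.beta, ?_⟩
  filter_upwards [hd.sqn_le] with z h
  rwa [abs_of_nonneg (sqn_nonneg z)]

theorem DivFree.b1 (hd : DivFree Ω a1 a2) : ∃ C : ℝ, ∀ᵐ z ∂(volume.restrict Ω), |a1 z| ≤ C :=
  ⟨_, hd.bdd.choose_spec.1⟩

theorem DivFree.b2 (hd : DivFree Ω a1 a2) : ∃ C : ℝ, ∀ᵐ z ∂(volume.restrict Ω), |a2 z| ≤ C :=
  ⟨_, hd.bdd.choose_spec.2⟩

/-- the drift operator -/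
noncomputable def CH (hd : DivFree Ω a1 a2) : Hsub Ω →L[ℝ] Lp ℝ 2 (volume.restrict Ω) :=
  (Mb hd.m1 hd.b1 ∘L Jc Ω 1 + Mb hd.m2 hd.b2 ∘L Jc Ω 2) ∘L (Hsub Ω).subtypeL

theorem CH_ae (hd : DivFree Ω a1 a2) (U : Hsub Ω) : CH hd U =ᵐ[volume.restrict Ω]
    fun z => a1 z * (U : Lp F3 2 (volume.restrict Ω)) z 1
      + a2 z * (U : Lp F3 2 (volume.restrict Ω)) z 2 := by
  have h : CH hd U = Mb hd.m1 hd.b1 (Jc Ω 1 U) + Mb hd.m2 hd.b2 (Jc Ω 2 U) := rfl
  rw [h]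
  filter_upwards [Lp.coeFn_add (Mb hd.m1 hd.b1 (Jc Ω 1 U)) (Mb hd.m2 hd.b2 (Jc Ω 2 U)),
    Mb_ae hd.m1 hd.b1 (Jc Ω 1 U), Mb_ae hd.m2 hd.b2 (Jc Ω 2 U),
    Jc_ae 1 (U : Lp F3 2 (volume.restrict Ω)), Jc_ae 2 (U : Lp F3 2 (volume.restrict Ω))]
    with z h1 h2 h3 h4 h5
  rw [h1, Pi.add_apply, h2, h3, h4, h5]

theorem JH_ae (U : Hsub Ω) : JH Ω U =ᵐ[volume.restrict Ω]
    fun z => (U : Lp F3 2 (volume.restrict Ω)) z 0 := Jc_ae 0 _

/-- the data -/
noncomputable def D (hd : DivFree Ω a1 a2) : Dat (volume.restrict Ω) (Hsub Ω) where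
  J := JH Ω
  Jt := ContinuousLinearMap.adjoint (JH Ω)
  T := fun s => 1 - ContinuousLinearMap.adjoint (JH Ω) ∘L JH Ω
    + (2 * s) • (ContinuousLinearMap.adjoint (CH hd) ∘L JH Ω)
    - s ^ 2 • (ContinuousLinearMap.adjoint (JH Ω) ∘L Mb hd.sqn_m hd.sqn_b ∘L JH Ω)
  hT := by
    apply Continuous.sub
    · apply Continuous.add continuous_const
      exact (continuous_const.mul continuous_id).smul continuous_const
    · exact (continuous_pow 2).smul continuous_const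
  β := hd.beta
  hβ := by unfold DivFree.beta; positivity

/-- the integrand of the form -/
def pf (a1 a2 : ℂ → ℝ) (s l : ℝ) (U V : ℂ → F3) (z : ℂ) : ℝ :=
  U z 1 * V z 1 + U z 2 * V z 2 + 2 * s * (U z 0 * (a1 z * V z 1 + a2 z * V z 2))
    - s ^ 2 * (sqn a1 a2 z * U z 0 * V z 0) + l * (U z 0 * V z 0)

/-- the form -/
noncomputable def PF (Ω : Set ℂ) (a1 a2 : ℂ → ℝ) (s l : ℝ) (U V : ℂ → F3) : ℝ :=
  ∫ z in Ω, pf a1 a2 s l U V z

theorem comp_memLp {μ : Measure ℂ} {U : ℂ → F3} (hU : MemLp U 2 μ) (i : Fin 3) :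
    MemLp (fun z => U z i) 2 μ :=
  MemLp.of_le hU ((cont0 i).comp_aestronglyMeasurable hU.1)
    (Eventually.of_forall fun z => PiLp.norm_apply_le (U z) i)

theorem pf_int (hd : DivFree Ω a1 a2) (s l : ℝ) {U V : ℂ → F3}
    (hU : MemLp U 2 (volume.restrict Ω)) (hV : MemLp V 2 (volume.restrict Ω)) :
    Integrable (pf a1 a2 s l U V) (volume.restrict Ω) := by
  have U0 := comp_memLp hU 0
  have U1 := comp_memLp hU 1
  have U2 := comp_memLp hU 2
  have V0 := comp_memLp hV 0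
  have V1 := comp_memLp hV 1
  have V2 := comp_memLp hV 2
  have aV := (memLp_bmul hd.m1 hd.b1 V1).add (memLp_bmul hd.m2 hd.b2 V2)
  have nU := memLp_bmul hd.sqn_m hd.sqn_b U0
  exact (((((int_mul U1 V1).add (int_mul U2 V2)).add ((int_mul U0 aV).const_mul (2 * s))).sub
    ((int_mul nU V0).const_mul (s ^ 2))).add ((int_mul U0 V0).const_mul l))

theorem five {μ : Measure ℂ} {g0 g1 g2 g3 g4 : ℂ → ℝ} (i0 : Integrable g0 μ)
    (i1 : Integrable g1 μ) (i2 : Integrable g2 μ) (i3 : Integrable g3 μ) (i4 : Integrable g4 μ)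
    (c3 c4 c5 : ℝ) : ((∫ z, (g0 z + g1 z + g2 z) ∂μ) - ∫ z, g0 z ∂μ) + c3 * ∫ z, g3 z ∂μ
      - c4 * ∫ z, g4 z ∂μ + c5 * ∫ z, g0 z ∂μ
      = ∫ z, (g1 z + g2 z + c3 * g3 z - c4 * g4 z + c5 * g0 z) ∂μ := by
  have j01 : Integrable (fun z => g0 z + g1 z) μ := i0.add i1
  have j12 : Integrable (fun z => g1 z + g2 z) μ := i1.add i2
  have j3 : Integrable (fun z => c3 * g3 z) μ := i3.const_mul _
  have j4 : Integrable (fun z => c4 * g4 z) μ := i4.const_mul _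
  have j5 : Integrable (fun z => c5 * g0 z) μ := i0.const_mul _
  have j123 : Integrable (fun z => g1 z + g2 z + c3 * g3 z) μ := j12.add j3
  have j1234 : Integrable (fun z => g1 z + g2 z + c3 * g3 z - c4 * g4 z) μ := j123.sub j4
  rw [integral_add j01 i2, integral_add i0 i1, integral_add j1234 j5, integral_sub j123 j4,
    integral_add j12 j3, integral_add i1 i2, integral_const_mul, integral_const_mul,
    integral_const_mul]
  ring

theorem Q_inner (hd : DivFree Ω a1 a2) (s l : ℝ) (U V : Hsub Ω) :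
    inner ℝ ((D hd).Q s l U) V = PF Ω a1 a2 s l (U : Lp F3 2 (volume.restrict Ω))
      (V : Lp F3 2 (volume.restrict Ω)) := by
  have e : (D hd).Q s l U = U - ContinuousLinearMap.adjoint (JH Ω) (JH Ω U)
      + (2 * s) • (ContinuousLinearMap.adjoint (CH hd) (JH Ω U))
      - s ^ 2 • (ContinuousLinearMap.adjoint (JH Ω) (Mb hd.sqn_m hd.sqn_b (JH Ω U)))
      + l • (ContinuousLinearMap.adjoint (JH Ω) (JH Ω U)) := rfl
  rw [e]
  have hsm : ∀ (c : ℝ) (x : Hsub Ω), inner ℝ (c • x) V = c * inner ℝ x V := fun c x =>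
    real_inner_smul_left x V c
  rw [inner_add_left, inner_sub_left, inner_add_left, inner_sub_left, hsm, hsm, hsm,
    ContinuousLinearMap.adjoint_inner_left,
    ContinuousLinearMap.adjoint_inner_left, ContinuousLinearMap.adjoint_inner_left]
  have hin : inner ℝ U V = inner ℝ (U : Lp F3 2 (volume.restrict Ω))
      (V : Lp F3 2 (volume.restrict Ω)) := rfl
  rw [hin, inner_H, inner_eq, inner_eq, inner_eq]
  obtain ⟨U', hU'⟩ : ∃ U' : ℂ → F3, U' = ((U : Lp F3 2 (volume.restrict Ω)) : ℂ → F3) := ⟨_, rfl⟩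
  obtain ⟨V', hV'⟩ : ∃ V' : ℂ → F3, V' = ((V : Lp F3 2 (volume.restrict Ω)) : ℂ → F3) := ⟨_, rfl⟩
  have hU : MemLp U' 2 (volume.restrict Ω) := by rw [hU']; exact Lp.memLp _
  have hV : MemLp V' 2 (volume.restrict Ω) := by rw [hV']; exact Lp.memLp _
  rw [← hU', ← hV']
  have U0 := comp_memLp hU 0
  have U1 := comp_memLp hU 1
  have U2 := comp_memLp hU 2
  have V0 := comp_memLp hV 0
  have V1 := comp_memLp hV 1
  have V2 := comp_memLp hV 2
  have aV := (memLp_bmul hd.m1 hd.b1 V1).add (memLp_bmul hd.m2 hd.b2 V2)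
  have nU := memLp_bmul hd.sqn_m hd.sqn_b U0
  have e1 : ∫ z in Ω, (JH Ω U) z * (JH Ω V) z = ∫ z in Ω, U' z 0 * V' z 0 := by
    apply integral_congr_ae
    filter_upwards [JH_ae U, JH_ae V] with z h1 h2
    rw [h1, h2, hU', hV']
  have e2 : ∫ z in Ω, (JH Ω U) z * (CH hd V) z
      = ∫ z in Ω, U' z 0 * (a1 z * V' z 1 + a2 z * V' z 2) := by
    apply integral_congr_ae
    filter_upwards [JH_ae U, CH_ae hd V] with z h1 h2
    rw [h1, h2, hU', hV']
  have e3 : ∫ z in Ω, (Mb hd.sqn_m hd.sqn_b (JH Ω U)) z * (JH Ω V) z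
      = ∫ z in Ω, (sqn a1 a2 z * U' z 0) * V' z 0 := by
    apply integral_congr_ae
    filter_upwards [JH_ae U, JH_ae V, Mb_ae hd.sqn_m hd.sqn_b (JH Ω U)] with z h1 h2 h3
    rw [h3, h1, h2, hU', hV']
  rw [e1, e2, e3]
  unfold PF pf
  exact five (int_mul U0 V0) (int_mul U1 V1) (int_mul U2 V2) (int_mul U0 aV) (int_mul nU V0)
    (2 * s) (s ^ 2) l

end Pool.Agent.Helper61.KS
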