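import Mathlib
import Pool.Agent.Helper61.KS.Form

/-! Coercivity, Fredholm alternative and positivity for large `l`. -/

set_option autoImplicit false
open MeasureTheory Topology Filter Set
open scoped ENNReal InnerProduct

namespace Pool.Agent.Helper61.KS

variable {Ω : Set ℂ} {a1 a2 : ℂ → ℝ}

/-- the product rule for a divergence-free field -/
theorem DivFree.prod (hd : DivFree Ω a1 a2) {U V : ℂ → F3} (hU : InH Ω U) (hV : InH Ω V) :
    ∫ z in Ω, (U z 0 * (a1 z * V z 1 + a2 z * V z 2) + V z 0 * (a1 z * U z 1 + a2 z * U z 2)) = 0 := by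
  obtain ⟨v, hv, h⟩ := hU.approx
  obtain ⟨w, hw, k⟩ := hV.approx
  obtain ⟨C, h1, h2⟩ := hd.bdd
  have A := (h 0).integral_mul (((k 1).bmul hd.m1 h1).add ((k 2).bmul hd.m2 h2))
  have B := (k 0).integral_mul (((h 1).bmul hd.m1 h1).add ((h 2).bmul hd.m2 h2))
  have AB := A.add B
  have e : ∀ n, (∫ z in Ω, jet (v n) z 0 * (a1 z * jet (w n) z 1 + a2 z * jet (w n) z 2))
      + (∫ z in Ω, jet (w n) z 0 * (a1 z * jet (v n) z 1 + a2 z * jet (v n) z 2)) = 0 := by
    intro n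
    rw [← integral_add]
    · have ht : IsTest Ω (v n * w n) := by
        refine ⟨(hv n).smooth.mul (hw n).smooth, (hw n).comp.mul_left, ?_⟩
        refine subset_trans (closure_mono ?_) (hw n).supp
        intro z hz
        rw [Function.mem_support] at hz ⊢
        intro h; apply hz; simp [h]
      have hz := hd.div _ ht
      rw [← hz]
      apply integral_congr_ae
      filter_upwards with z
      have h1 : fderiv ℝ (v n * w n) z = v n z • fderiv ℝ (w n) z + w n z • fderiv ℝ (v n) z :=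
        fderiv_mul ((hv n).smooth.differentiable (by norm_num) z)
          ((hw n).smooth.differentiable (by norm_num) z)
      rw [h1]
      simp [jet]
      ring
    · exact int_mul ((h 0).mf n) ((((k 1).bmul hd.m1 h1).add ((k 2).bmul hd.m2 h2)).mf n)
    · exact int_mul ((k 0).mf n) ((((h 1).bmul hd.m1 h1).add ((h 2).bmul hd.m2 h2)).mf n)
  have hlim := tendsto_nhds_unique AB (by simp_rw [e]; exact tendsto_const_nhds)
  rw [integral_add]
  · exact hlim
  · exact int_mul (h 0).mg (((k 1).bmul hd.m1 h1).add ((k 2).bmul hd.m2 h2)).mg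
  · exact int_mul (k 0).mg (((h 1).bmul hd.m1 h1).add ((h 2).bmul hd.m2 h2)).mg

/-- primitive of a continuous function -/
noncomputable def prm (g : ℝ → ℝ) (t : ℝ) : ℝ := ∫ x in (0 : ℝ)..t, g x

theorem prm_deriv {g : ℝ → ℝ} (hg : Continuous g) (t : ℝ) : HasDerivAt (prm g) (g t) t :=
  intervalIntegral.integral_hasDerivAt_right (hg.intervalIntegrable _ _)
    (hg.stronglyMeasurableAtFilter _ _) hg.continuousAt

theorem prm_contDiff {g : ℝ → ℝ} (hg : Continuous g) : ContDiff ℝ 1 (prm g) := by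
  rw [contDiff_one_iff_deriv]
  refine ⟨fun t => (prm_deriv hg t).differentiableAt, ?_⟩
  have : deriv (prm g) = g := funext fun t => (prm_deriv hg t).deriv
  rw [this]; exact hg

/-- chain rule with a prescribed continuous bounded derivative -/
theorem InH.chp (hfin : volume Ω ≠ ∞) {g : ℝ → ℝ} (hg : Continuous g) {C : ℝ}
    (hC : ∀ t, |g t| ≤ C) {U : ℂ → F3} (hU : InH Ω U) :
    InH Ω (fun z => mk3 (prm g (U z 0)) (g (U z 0) * U z 1) (g (U z 0) * U z 2)) := by
  have hd : deriv (prm g) = g := funext fun t => (prm_deriv hg t).deriv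
  have := hU.chain hfin (prm_contDiff hg) (by simp [prm]) (C := C) (by rw [hd]; exact hC)
  unfold chn at this
  rw [hd] at this
  exact this

/-- the symmetric part of the form -/
theorem PF_self (hd : DivFree Ω a1 a2) (s l : ℝ) {U : ℂ → F3} (hU : InH Ω U) :
    PF Ω a1 a2 s l U U = ∫ z in Ω, (U z 1 * U z 1 + U z 2 * U z 2
      + (l - s ^ 2 * sqn a1 a2 z) * (U z 0 * U z 0)) := by
  have h := hd.prod hU hU
  have hi := pf_int hd s l hU.1 hU.1
  have U0 := comp_memLp hU.1 0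
  have U1 := comp_memLp hU.1 1
  have U2 := comp_memLp hU.1 2
  have aU := (memLp_bmul hd.m1 hd.b1 U1).add (memLp_bmul hd.m2 hd.b2 U2)
  have hj : Integrable (fun z => U z 0 * (a1 z * U z 1 + a2 z * U z 2)
      + U z 0 * (a1 z * U z 1 + a2 z * U z 2)) (volume.restrict Ω) :=
    (int_mul U0 aU).add (int_mul U0 aU)
  have h2 : PF Ω a1 a2 s l U U = ∫ z in Ω, (pf a1 a2 s l U U z
      - s * (U z 0 * (a1 z * U z 1 + a2 z * U z 2) + U z 0 * (a1 z * U z 1 + a2 z * U z 2))) := by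
    rw [integral_sub hi (hj.const_mul s), integral_const_mul, h]
    simp [PF]
  rw [h2]
  apply integral_congr_ae
  filter_upwards with z
  simp only [pf]
  ring

theorem grad_int {U : ℂ → F3} (hU : MemLp U 2 (volume.restrict Ω)) (i : Fin 3) :
    Integrable (fun z => U z i * U z i) (volume.restrict Ω) :=
  int_mul (comp_memLp hU i) (comp_memLp hU i)

/-- coercivity -/
theorem PF_coer (hd : DivFree Ω a1 a2) {s l : ℝ} (hl : s ^ 2 * hd.beta ≤ l) {U : ℂ → F3}
    (hU : InH Ω U) : ∫ z in Ω, U z 1 * U z 1 ≤ PF Ω a1 a2 s l U U := by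
  rw [PF_self hd s l hU]
  have U0 := comp_memLp hU.1 0
  have nU := memLp_bmul hd.sqn_m hd.sqn_b U0
  have i0 := grad_int hU.1 0
  have i1 := grad_int hU.1 1
  have i2 := grad_int hU.1 2
  apply integral_mono_ae i1
  · have h3 : Integrable (fun z => l * (U z 0 * U z 0) - s ^ 2 * ((sqn a1 a2 z * U z 0) * U z 0))
        (volume.restrict Ω) := (i0.const_mul l).sub ((int_mul nU U0).const_mul (s ^ 2))
    have h4 := (i1.add i2).add h3
    refine h4.congr ?_
    filter_upwards with z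
    simp only [Pi.add_apply]
    ring
  · filter_upwards [hd.sqn_le] with z hz
    have h1 : s ^ 2 * sqn a1 a2 z ≤ l := le_trans (mul_le_mul_of_nonneg_left hz (sq_nonneg s)) hl
    have h2 : 0 ≤ (l - s ^ 2 * sqn a1 a2 z) * (U z 0 * U z 0) :=
      mul_nonneg (by linarith) (mul_self_nonneg _)
    have h3 := mul_self_nonneg (U z 2)
    linarith

/-- an element with vanishing first derivative vanishes -/
theorem InH.zero_of_d1 {R : ℝ} (hΩR : ∀ z ∈ Ω, |z.re| ≤ R) {U : ℂ → F3} (hU : InH Ω U)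
    (h : ∫ z in Ω, U z 1 * U z 1 ≤ 0) : ∀ᵐ z ∂(volume.restrict Ω), U z 0 = 0 := by
  have h1 := hU.poincare hΩR
  have h2 : ∫ z in Ω, U z 0 * U z 0 ≤ 0 := by
    refine h1.trans ?_
    exact mul_nonpos_of_nonneg_of_nonpos (by positivity) h
  have h3 : ∫ z in Ω, U z 0 * U z 0 = 0 :=
    le_antisymm h2 (integral_nonneg fun z => mul_self_nonneg _)
  rw [integral_eq_zero_iff_of_nonneg (fun z => mul_self_nonneg _) (grad_int hU.1 0)] at h3
  filter_upwards [h3] with z hz
  exact mul_self_eq_zero.1 hz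

theorem grad_zero {U : ℂ → F3} (hU : MemLp U 2 (volume.restrict Ω)) (i : Fin 3)
    (h : ∫ z in Ω, U z i * U z i ≤ 0) : ∀ᵐ z ∂(volume.restrict Ω), U z i = 0 := by
  have h3 : ∫ z in Ω, U z i * U z i = 0 :=
    le_antisymm h (integral_nonneg fun z => mul_self_nonneg _)
  rw [integral_eq_zero_iff_of_nonneg (fun z => mul_self_nonneg _) (grad_int hU i)] at h3
  filter_upwards [h3] with z hz
  exact mul_self_eq_zero.1 hz

theorem Q_zero (hd : DivFree Ω a1 a2) {s l : ℝ} {U : Hsub Ω}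
    (h : (D hd).Q s l U = 0) (V : Hsub Ω) : PF Ω a1 a2 s l (U : Lp F3 2 (volume.restrict Ω))
      (V : Lp F3 2 (volume.restrict Ω)) = 0 := by
  rw [← Q_inner hd, h, inner_zero_left]

theorem Q_compact (hd : DivFree Ω a1 a2) (hJ : IsCompactOperator (JH Ω)) (s l : ℝ) :
    IsCompactOperator ((1 - (D hd).Q s l : Hsub Ω →L[ℝ] Hsub Ω)) := by
  have e : (1 - (D hd).Q s l : Hsub Ω →L[ℝ] Hsub Ω) = (ContinuousLinearMap.adjoint (JH Ω)
      - (2 * s) • ContinuousLinearMap.adjoint (CH hd)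
      + s ^ 2 • (ContinuousLinearMap.adjoint (JH Ω) ∘L Mb hd.sqn_m hd.sqn_b)
      - l • ContinuousLinearMap.adjoint (JH Ω)) ∘L JH Ω := by
    have e1 : (D hd).Q s l = 1 - ContinuousLinearMap.adjoint (JH Ω) ∘L JH Ω
      + (2 * s) • (ContinuousLinearMap.adjoint (CH hd) ∘L JH Ω)
      - s ^ 2 • (ContinuousLinearMap.adjoint (JH Ω) ∘L Mb hd.sqn_m hd.sqn_b ∘L JH Ω)
      + l • (ContinuousLinearMap.adjoint (JH Ω) ∘L JH Ω) := rfl
    rw [e1]
    ext1 U
    simp only [ContinuousLinearMap.comp_apply, _root_.add_apply, _root_.sub_apply,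
      _root_.smul_apply, one_apply_eq_self]
    module
  rw [e]
  exact hJ.clm_comp (ContinuousLinearMap.adjoint (JH Ω)
      - (2 * s) • ContinuousLinearMap.adjoint (CH hd)
      + s ^ 2 • (ContinuousLinearMap.adjoint (JH Ω) ∘L Mb hd.sqn_m hd.sqn_b)
      - l • ContinuousLinearMap.adjoint (JH Ω))

theorem Q_unit (hd : DivFree Ω a1 a2) (hJ : IsCompactOperator (JH Ω)) {s l : ℝ}
    (hinj : ∀ U : Hsub Ω, (∀ V : Hsub Ω, PF Ω a1 a2 s l (U : Lp F3 2 (volume.restrict Ω))
      (V : Lp F3 2 (volume.restrict Ω)) = 0) → U = 0) : IsUnit ((D hd).Q s l) := by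
  have hK := Q_compact hd hJ s l
  rcases hK.hasEigenvalue_or_mem_resolventSet (one_ne_zero (α := ℝ)) with h | h
  · exfalso
    obtain ⟨U, hU⟩ := h.exists_hasEigenvector
    have h1 := hU.apply_eq_smul
    apply hU.2
    apply hinj U
    apply Q_zero
    have h2 : U - (D hd).Q s l U = (1 : ℝ) • U := h1
    rw [one_smul] at h2
    have h3 : (D hd).Q s l U = U - (U - (D hd).Q s l U) := by abel
    rw [h3, h2, sub_self]
  · rw [spectrum.mem_resolventSet_iff] at h
    have e : (algebraMap ℝ (Hsub Ω →L[ℝ] Hsub Ω)) 1 - (1 - (D hd).Q s l) = (D hd).Q s l := by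
      rw [map_one]; abel
    rwa [e] at h

/-- cutoff derivative -/
noncomputable def gm (t : ℝ) : ℝ := 2 * min t 0 / (1 + t ^ 2) ^ 2

theorem gm_cont : Continuous gm := by
  unfold gm
  apply Continuous.div
  · fun_prop
  · fun_prop
  · intro t; positivity

theorem gm_nonpos (t : ℝ) : gm t ≤ 0 := by
  unfold gm
  apply div_nonpos_of_nonpos_of_nonneg
  · have := min_le_right t 0
    linarith
  · positivity

theorem gm_bound (t : ℝ) : -2 ≤ gm t := by
  unfold gm
  rw [le_div_iff₀ (by positivity)]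
  have h1 : -(1 + t ^ 2) ≤ min t 0 := by
    apply le_min
    · nlinarith [sq_nonneg (t + 1), sq_nonneg (t - 1)]
    · nlinarith [sq_nonneg t]
  nlinarith [sq_nonneg t, mul_nonneg (sq_nonneg t) (sq_nonneg t)]

theorem gmt_bound (t : ℝ) : |t * gm t| ≤ 2 := by
  unfold gm
  rw [← mul_div_assoc, abs_div, abs_of_nonneg (show (0 : ℝ) ≤ (1 + t ^ 2) ^ 2 by positivity),
    div_le_iff₀ (by positivity), abs_mul, abs_mul]
  have h1 : |min t 0| ≤ |t| := by
    rcases le_total t 0 with h | h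
    · rw [min_eq_left h]
    · rw [min_eq_right h]; simp
  have h2 : |t| * (|2| * |min t 0|) ≤ 2 * t ^ 2 := by
    rw [abs_two, ← sq_abs t]
    nlinarith [abs_nonneg t, abs_nonneg (min t 0)]
  refine h2.trans ?_
  nlinarith [sq_nonneg t, mul_nonneg (sq_nonneg t) (sq_nonneg t)]

theorem gm_prm_pos {t : ℝ} (ht : 0 ≤ t) : prm gm t = 0 := by
  unfold prm
  have : ∫ x in (0 : ℝ)..t, gm x = ∫ x in (0 : ℝ)..t, (0 : ℝ) := by
    apply intervalIntegral.integral_congr
    intro x hx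
    rw [uIcc_of_le ht] at hx
    simp [gm, min_eq_right hx.1]
  rw [this]; simp

theorem gm_prm_neg {t : ℝ} (ht : t ≤ 0) : prm gm t = t ^ 2 / (1 + t ^ 2) := by
  unfold prm
  have h1 : ∀ x ∈ uIcc (0 : ℝ) t, HasDerivAt (fun x : ℝ => x ^ 2 / (1 + x ^ 2)) (gm x) x := by
    intro x hx
    rw [uIcc_of_ge ht] at hx
    have h2 : HasDerivAt (fun x : ℝ => x ^ 2) (2 * x) x := by simpa using hasDerivAt_pow 2 x
    have h3 : HasDerivAt (fun x : ℝ => 1 + x ^ 2) (2 * x) x := by simpa using h2.const_add 1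
    have h4 := h2.div h3 (by positivity)
    refine h4.congr_deriv ?_
    unfold gm
    rw [min_eq_left hx.2]
    congr 1
    ring
  rw [intervalIntegral.integral_eq_sub_of_hasDerivAt h1 (gm_cont.intervalIntegrable _ _)]
  simp

theorem gm_prm_nonneg (t : ℝ) : 0 ≤ prm gm t := by
  rcases le_total t 0 with h | h
  · rw [gm_prm_neg h]; positivity
  · rw [gm_prm_pos h]

theorem gm_prm_mul (t : ℝ) : t * prm gm t ≤ 0 := by
  rcases le_total t 0 with h | h
  · exact mul_nonpos_of_nonpos_of_nonneg h (gm_prm_nonneg t)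
  · rw [gm_prm_pos h]; simp

theorem gm_prm_zero {t : ℝ} (h : prm gm t = 0) : 0 ≤ t := by
  by_contra hn
  push Not at hn
  rw [gm_prm_neg hn.le] at h
  have : (0 : ℝ) < t ^ 2 / (1 + t ^ 2) := by
    have := sq_pos_of_neg hn
    positivity
  linarith

/-- the weak maximum principle for large `l` -/
theorem pos_of (hd : DivFree Ω a1 a2) (hfin : volume Ω ≠ ∞) {R : ℝ}
    (hΩR : ∀ z ∈ Ω, |z.re| ≤ R) {s l : ℝ} (hl : s ^ 2 * hd.beta ≤ l) {U : ℂ → F3}
    (hU : InH Ω U)
    (hs : ∀ V, InH Ω V → (∀ z, 0 ≤ V z 0) → 0 ≤ PF Ω a1 a2 s l U V) :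
    ∀ᵐ z ∂(volume.restrict Ω), 0 ≤ U z 0 := by
  have hg2 : ∀ t, |gm t| ≤ 2 := fun t =>
    abs_le.2 ⟨gm_bound t, (gm_nonpos t).trans (by norm_num)⟩
  have hV := hU.chp hfin gm_cont hg2
  have hW := hU.chp hfin (g := fun t => t * gm t) (continuous_id.mul gm_cont) gmt_bound
  have h1 := hs _ hV (fun z => gm_prm_nonneg _)
  have h2 := hd.inH hfin hW
  simp only [mk3_1, mk3_2] at h2
  have W1 := comp_memLp hW.1 1
  have W2 := comp_memLp hW.1 2
  simp only [mk3_1, mk3_2] at W1 W2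
  have : IsFiniteMeasure (volume.restrict Ω) := ⟨by
    rw [Measure.restrict_apply_univ]; exact lt_top_iff_ne_top.2 hfin⟩
  have iW : Integrable (fun z => a1 z * (U z 0 * gm (U z 0) * U z 1)
      + a2 z * (U z 0 * gm (U z 0) * U z 2)) (volume.restrict Ω) :=
    ((memLp_bmul hd.m1 hd.b1 W1).integrable (by norm_num)).add
      ((memLp_bmul hd.m2 hd.b2 W2).integrable (by norm_num))
  have ip := pf_int hd s l hU.1 hV.1
  have hi : ∫ z in Ω, (-2) * (pf a1 a2 s l U
      (fun z => mk3 (prm gm (U z 0)) (gm (U z 0) * U z 1) (gm (U z 0) * U z 2)) z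
      - 2 * s * (a1 z * (U z 0 * gm (U z 0) * U z 1)
      + a2 z * (U z 0 * gm (U z 0) * U z 2))) ≤ 0 := by
    rw [integral_const_mul, integral_sub ip (iW.const_mul (2 * s)), integral_const_mul, h2]
    have : 0 ≤ ∫ z in Ω, pf a1 a2 s l U
      (fun z => mk3 (prm gm (U z 0)) (gm (U z 0) * U z 1) (gm (U z 0) * U z 2)) z := h1
    linarith
  have h3 := hV.zero_of_d1 hΩR (by
    refine le_trans (integral_mono_ae (grad_int hV.1 1)
      ((ip.sub (iW.const_mul (2 * s))).const_mul (-2)) ?_) hi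
    filter_upwards [hd.sqn_le] with z hz
    simp only [mk3_1, Pi.sub_apply, pf, mk3_0, mk3_2]
    have e1 : s ^ 2 * sqn a1 a2 z ≤ l := le_trans (mul_le_mul_of_nonneg_left hz (sq_nonneg s)) hl
    have e2 : (l - s ^ 2 * sqn a1 a2 z) * (U z 0 * prm gm (U z 0)) ≤ 0 :=
      mul_nonpos_of_nonneg_of_nonpos (by linarith) (gm_prm_mul _)
    have e3 := gm_nonpos (U z 0)
    have e4 := gm_bound (U z 0)
    have e5 : gm (U z 0) * (gm (U z 0) + 2) ≤ 0 :=
      mul_nonpos_of_nonpos_of_nonneg e3 (by linarith)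
    have e6 := mul_nonneg_of_nonpos_of_nonpos e5 (neg_nonpos.2 (mul_self_nonneg (U z 1)))
    have e7 := mul_nonneg_of_nonpos_of_nonpos e3 (neg_nonpos.2 (mul_self_nonneg (U z 2)))
    nlinarith)
  filter_upwards [h3] with z hz
  exact gm_prm_zero hz

theorem PF_congr {s l : ℝ} {U U' V V' : ℂ → F3} (h1 : U =ᵐ[volume.restrict Ω] U')
    (h2 : V =ᵐ[volume.restrict Ω] V') : PF Ω a1 a2 s l U V = PF Ω a1 a2 s l U' V' := by
  unfold PF
  apply integral_congr_ae
  filter_upwards [h1, h2] with z e1 e2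
  simp only [pf, e1, e2]

/-- the form of a solution -/
theorem solve_form (hd : DivFree Ω a1 a2) {s l : ℝ} (hu : IsUnit ((D hd).Q s l))
    (f : Lp ℝ 2 (volume.restrict Ω)) {V : ℂ → F3} (hV : InH Ω V) :
    PF Ω a1 a2 s l (((D hd).R s l ((D hd).Jt f) : Hsub Ω) : Lp F3 2 (volume.restrict Ω)) V
      = ∫ z in Ω, f z * V z 0 := by
  have e1 : (D hd).Q s l ((D hd).R s l ((D hd).Jt f)) = (D hd).Jt f := by
    have := congrArg (fun T : Hsub Ω →L[ℝ] Hsub Ω => T ((D hd).Jt f)) ((D hd).mul_R hu)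
    exact this
  have e2 := Q_inner hd s l ((D hd).R s l ((D hd).Jt f)) ⟨hV.1.toLp V, hV.mem⟩
  have e3 : PF Ω a1 a2 s l (((D hd).R s l ((D hd).Jt f) : Hsub Ω) : Lp F3 2 (volume.restrict Ω)) V
      = PF Ω a1 a2 s l (((D hd).R s l ((D hd).Jt f) : Hsub Ω) : Lp F3 2 (volume.restrict Ω))
        (hV.1.toLp V) := PF_congr EventuallyEq.rfl hV.1.coeFn_toLp.symm
  rw [e3]
  refine e2.symm.trans ?_
  rw [e1]
  have e4 : inner ℝ ((D hd).Jt f) (⟨hV.1.toLp V, hV.mem⟩ : Hsub Ω)
      = inner ℝ f (JH Ω ⟨hV.1.toLp V, hV.mem⟩) :=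
    ContinuousLinearMap.adjoint_inner_left (JH Ω) _ f
  rw [e4, inner_eq]
  apply integral_congr_ae
  filter_upwards [JH_ae (⟨hV.1.toLp V, hV.mem⟩ : Hsub Ω), hV.1.coeFn_toLp] with z h1 h2
  rw [h1]
  simp only [h2]

theorem sol_inH (U : Hsub Ω) : InH Ω (U : Lp F3 2 (volume.restrict Ω)) :=
  (mem_Hsub_iff _).1 U.2

theorem Hsub_zero {U : Hsub Ω} (h : ∀ i : Fin 3, ∀ᵐ z ∂(volume.restrict Ω),
    (U : Lp F3 2 (volume.restrict Ω)) z i = 0) : U = 0 := by
  apply Subtype.ext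
  apply Lp.ext
  filter_upwards [h 0, h 1, h 2, Lp.coeFn_zero F3 2 (volume.restrict Ω)] with z h0 h1 h2 h3
  rw [Submodule.coe_zero, h3]
  exact F3_ext h0 h1 h2

theorem base_good (hd : DivFree Ω a1 a2) (hfin : volume Ω ≠ ∞) (hJ : IsCompactOperator (JH Ω))
    {R : ℝ} (hΩR : ∀ z ∈ Ω, |z.re| ≤ R) (s l : ℝ) (hl : s ^ 2 * (D hd).β ≤ l) :
    (D hd).Good s l := by
  have hl' : s ^ 2 * hd.beta ≤ l := hl
  have hu : IsUnit ((D hd).Q s l) := by
    apply Q_unit hd hJ
    intro U hU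
    have hin := sol_inH U
    have h0 : ∫ z in Ω, (U : Lp F3 2 (volume.restrict Ω)) z 1 *
        (U : Lp F3 2 (volume.restrict Ω)) z 1 ≤ 0 := (PF_coer hd hl' hin).trans (hU U).le
    have h1 := hin.zero_of_d1 hΩR h0
    have h2 := grad_zero hin.1 1 h0
    have h3 : ∀ᵐ z ∂(volume.restrict Ω), (U : Lp F3 2 (volume.restrict Ω)) z 2 = 0 := by
      apply grad_zero hin.1 2
      have h4 := hU U
      rw [PF_self hd s l hin] at h4
      have h5 : ∫ z in Ω, (U : Lp F3 2 (volume.restrict Ω)) z 2 *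
        (U : Lp F3 2 (volume.restrict Ω)) z 2 = 0 := by
        rw [← h4]
        apply integral_congr_ae
        filter_upwards [h1, h2] with z e1 e2
        rw [e1, e2]; ring
      exact h5.le
    apply Hsub_zero
    intro i
    fin_cases i
    · exact h1
    · exact h2
    · exact h3
  refine ⟨hu, ?_⟩
  intro f hf
  have hf' := (Lp.coeFn_nonneg f).2 hf
  rw [← Lp.coeFn_nonneg]
  have h1 : (D hd).N s l f = JH Ω ((D hd).R s l ((D hd).Jt f)) := rfl
  rw [h1]
  have h2 := pos_of hd hfin hΩR hl' (sol_inH ((D hd).R s l ((D hd).Jt f))) (by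
    intro V hV hV0
    rw [solve_form hd hu f hV]
    apply integral_nonneg_of_ae
    filter_upwards [hf'] with z hz
    exact mul_nonneg hz (hV0 z))
  filter_upwards [JH_ae ((D hd).R s l ((D hd).Jt f)), h2] with z e1 e2
  rw [e1]
  exact e2

end Pool.Agent.Helper61.KS
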