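import Mathlib
import Pool.Agent.Helper61.KS.Pos

/-! The flux inequality, and its consequences. -/

set_option autoImplicit false
open MeasureTheory Topology Filter Set
open scoped ENNReal InnerProduct

namespace Pool.Agent.Helper61.KS

variable {Ω : Set ℂ} {a1 a2 : ℂ → ℝ}

/-- `1 / (t^+ + ε)` -/
noncomputable def ge (ε t : ℝ) : ℝ := (max t 0 + ε)⁻¹

theorem ge_cont {ε : ℝ} (hε : 0 < ε) : Continuous (ge ε) := by
  unfold ge
  apply Continuous.inv₀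
  · fun_prop
  · intro t
    have := le_max_right t 0
    positivity

theorem ge_pos {ε : ℝ} (hε : 0 < ε) (t : ℝ) : 0 < ge ε t := by
  unfold ge
  have := le_max_right t 0
  positivity

theorem ge_le {ε : ℝ} (hε : 0 < ε) (t : ℝ) : ge ε t ≤ ε⁻¹ := by
  unfold ge
  apply inv_anti₀ hε
  have := le_max_right t 0
  linarith

theorem ge_abs {ε : ℝ} (hε : 0 < ε) (t : ℝ) : |ge ε t| ≤ ε⁻¹ := by
  rw [abs_of_pos (ge_pos hε t)]; exact ge_le hε t

theorem ge_prm {ε : ℝ} (hε : 0 < ε) {t : ℝ} (ht : 0 ≤ t) :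
    prm (fun t => ge ε t ^ 2) t = ε⁻¹ - ge ε t := by
  unfold prm
  have h1 : ∀ x ∈ uIcc (0 : ℝ) t, HasDerivAt (fun x : ℝ => -(x + ε)⁻¹) (ge ε x ^ 2) x := by
    intro x hx
    rw [uIcc_of_le ht] at hx
    have hx0 : x + ε ≠ 0 := by linarith [hx.1]
    have h2 : HasDerivAt (fun x : ℝ => x + ε) 1 x := (hasDerivAt_id x).add_const ε
    have h3 := (h2.inv hx0).neg
    refine h3.congr_deriv ?_
    unfold ge
    rw [max_eq_left hx.1]
    field_simp
  rw [intervalIntegral.integral_eq_sub_of_hasDerivAt h1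
    (((ge_cont hε).pow 2).intervalIntegrable _ _)]
  unfold ge
  rw [max_eq_left ht]
  ring

/-- the pointwise inequality behind the flux estimate -/
theorem flux_pt {s ε g u u1 u2 p1 p2 b1 b2 M v v1 v2 : ℝ} (hg : 0 < g)
    (hgu : g * (u + ε) = 1) (hs : s ^ 2 * (p1 ^ 2 + p2 ^ 2) * ε ≤ 1)
    (hb1 : |b1| ≤ M * |v|) (hb2 : |b2| ≤ M * |v|) :
    s * (p1 * b1 + p2 * b2) ≤ -(b1 * (g * u1) + b2 * (g * u2)) + M ^ 2 + 2 * (v1 ^ 2 + v2 ^ 2)
      + s * (p1 * (2 * v * v1) + p2 * (2 * v * v2))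
      - 2 * s * ε * (p1 * (2 * v * v1 * g - v ^ 2 * (g ^ 2 * u1))
        + p2 * (2 * v * v2 * g - v ^ 2 * (g ^ 2 * u2)))
      + (v ^ 2 * g - (u1 * (2 * v * v1 * g - v ^ 2 * (g ^ 2 * u1))
        + u2 * (2 * v * v2 * g - v ^ 2 * (g ^ 2 * u2))
        + 2 * s * (u * (p1 * (2 * v * v1 * g - v ^ 2 * (g ^ 2 * u1))
        + p2 * (2 * v * v2 * g - v ^ 2 * (g ^ 2 * u2))))
        - s ^ 2 * ((p1 ^ 2 + p2 ^ 2) * u * (v ^ 2 * g)))) := by
  obtain ⟨X1, hX1⟩ : ∃ X1, X1 = g * u1 + s * p1 := ⟨_, rfl⟩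
  obtain ⟨X2, hX2⟩ : ∃ X2, X2 = g * u2 + s * p2 := ⟨_, rfl⟩
  have hu : g * u = 1 - g * ε := by linarith
  -- the algebraic identity
  have key : -(b1 * (g * u1) + b2 * (g * u2)) + M ^ 2 + 2 * (v1 ^ 2 + v2 ^ 2)
      + s * (p1 * (2 * v * v1) + p2 * (2 * v * v2))
      - 2 * s * ε * (p1 * (2 * v * v1 * g - v ^ 2 * (g ^ 2 * u1))
        + p2 * (2 * v * v2 * g - v ^ 2 * (g ^ 2 * u2)))
      + (v ^ 2 * g - (u1 * (2 * v * v1 * g - v ^ 2 * (g ^ 2 * u1))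
        + u2 * (2 * v * v2 * g - v ^ 2 * (g ^ 2 * u2))
        + 2 * s * (u * (p1 * (2 * v * v1 * g - v ^ 2 * (g ^ 2 * u1))
        + p2 * (2 * v * v2 * g - v ^ 2 * (g ^ 2 * u2))))
        - s ^ 2 * ((p1 ^ 2 + p2 ^ 2) * u * (v ^ 2 * g)))) - s * (p1 * b1 + p2 * b2)
      = (M ^ 2 + 1 / 2 * v ^ 2 * (X1 ^ 2 + X2 ^ 2) - (b1 * X1 + b2 * X2))
        + (1 / 2 * v ^ 2 * (X1 ^ 2 + X2 ^ 2) + 2 * (v1 ^ 2 + v2 ^ 2)
          - (2 * v * v1 * X1 + 2 * v * v2 * X2))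
        + v ^ 2 * g * (1 - s ^ 2 * (p1 ^ 2 + p2 ^ 2) * ε) := by
    rw [hX1, hX2]
    linear_combination (-(2 * s * (p1 * (2 * v * v1 - v ^ 2 * (g * u1))
      + p2 * (2 * v * v2 - v ^ 2 * (g * u2)))) + s ^ 2 * (p1 ^ 2 + p2 ^ 2) * v ^ 2) * hu
  have h1 : b1 * X1 ≤ 1 / 2 * M ^ 2 + 1 / 2 * v ^ 2 * X1 ^ 2 := by
    have e1 : b1 * X1 ≤ |b1| * |X1| := by rw [← abs_mul]; exact le_abs_self _
    have e2 : |b1| * |X1| ≤ M * |v| * |X1| := mul_le_mul_of_nonneg_right hb1 (abs_nonneg _)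
    have e3 : (|v| * |X1|) ^ 2 = v ^ 2 * X1 ^ 2 := by rw [mul_pow, sq_abs, sq_abs]
    nlinarith [sq_nonneg (M - |v| * |X1|)]
  have h2 : b2 * X2 ≤ 1 / 2 * M ^ 2 + 1 / 2 * v ^ 2 * X2 ^ 2 := by
    have e1 : b2 * X2 ≤ |b2| * |X2| := by rw [← abs_mul]; exact le_abs_self _
    have e2 : |b2| * |X2| ≤ M * |v| * |X2| := mul_le_mul_of_nonneg_right hb2 (abs_nonneg _)
    have e3 : (|v| * |X2|) ^ 2 = v ^ 2 * X2 ^ 2 := by rw [mul_pow, sq_abs, sq_abs]
    nlinarith [sq_nonneg (M - |v| * |X2|)]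
  have h3 : 0 ≤ 1 / 2 * v ^ 2 * (X1 ^ 2 + X2 ^ 2) + 2 * (v1 ^ 2 + v2 ^ 2)
          - (2 * v * v1 * X1 + 2 * v * v2 * X2) := by
    nlinarith [sq_nonneg (v * X1 - 2 * v1), sq_nonneg (v * X2 - 2 * v2)]
  have h4 : 0 ≤ v ^ 2 * g * (1 - s ^ 2 * (p1 ^ 2 + p2 ^ 2) * ε) :=
    mul_nonneg (by positivity) (by linarith)
  linarith

theorem IsTest.mul_self {v : ℂ → ℝ} (hv : IsTest Ω v) : IsTest Ω (v * v) := by
  refine ⟨hv.smooth.mul hv.smooth, hv.comp.mul_left, ?_⟩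
  refine subset_trans (closure_mono ?_) hv.supp
  intro z hz
  rw [Function.mem_support] at hz ⊢
  intro h; apply hz; simp [h]

theorem IsTest.jet_mul_self {v : ℂ → ℝ} (hv : IsTest Ω v) (z : ℂ) :
    jet (v * v) z = mk3 (v z ^ 2) (2 * v z * fderiv ℝ v z 1)
      (2 * v z * fderiv ℝ v z Complex.I) := by
  have h1 : fderiv ℝ (v * v) z = v z • fderiv ℝ v z + v z • fderiv ℝ v z :=
    fderiv_mul (hv.smooth.differentiable (by norm_num) z) (hv.smooth.differentiable (by norm_num) z)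
  apply F3_ext
  · simp [jet]; ring
  · simp [jet, h1]; ring
  · simp [jet, h1]; ring

theorem lin7 {μ : Measure ℂ} {F1 F2 F3 F4 F5 F6 F7 : ℂ → ℝ} {s c : ℝ}
    (h : ∀ᵐ z ∂μ, s * F7 z ≤ -F1 z + F6 z + s * F3 z - c * F2 z + (F4 z - F5 z))
    (i1 : Integrable F1 μ) (i2 : Integrable F2 μ) (i3 : Integrable F3 μ) (i4 : Integrable F4 μ)
    (i5 : Integrable F5 μ) (i6 : Integrable F6 μ) (i7 : Integrable F7 μ)
    (z1 : ∫ z, F1 z ∂μ = 0) (z2 : ∫ z, F2 z ∂μ = 0) (z3 : ∫ z, F3 z ∂μ = 0)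
    (z4 : ∫ z, F5 z ∂μ = ∫ z, F4 z ∂μ) : s * ∫ z, F7 z ∂μ ≤ ∫ z, F6 z ∂μ := by
  have j1 : Integrable (fun z => -F1 z) μ := i1.neg
  have j2 : Integrable (fun z => -F1 z + F6 z) μ := j1.add i6
  have j3 : Integrable (fun z => s * F3 z) μ := i3.const_mul _
  have j4 : Integrable (fun z => -F1 z + F6 z + s * F3 z) μ := j2.add j3
  have j5 : Integrable (fun z => c * F2 z) μ := i2.const_mul _
  have j6 : Integrable (fun z => -F1 z + F6 z + s * F3 z - c * F2 z) μ := j4.sub j5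
  have j7 : Integrable (fun z => F4 z - F5 z) μ := i4.sub i5
  have j8 : Integrable (fun z => -F1 z + F6 z + s * F3 z - c * F2 z + (F4 z - F5 z)) μ := j6.add j7
  have := integral_mono_ae (i7.const_mul s) j8 h
  rw [integral_add j6 j7, integral_sub j4 j5, integral_add j2 j3, integral_add j1 i6,
    integral_sub i4 i5, integral_neg, integral_const_mul, integral_const_mul, integral_const_mul,
    z1, z2, z3, z4] at this
  linarith

/-- The flux estimate. -/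
theorem flux (hd : DivFree Ω a1 a2) (hfin : volume Ω ≠ ∞) {b1 b2 : ℂ → ℝ}
    (hb : DivFree Ω b1 b2) {v : ℂ → ℝ} (hv : IsTest Ω v) {M : ℝ}
    (hM1 : ∀ᵐ z ∂(volume.restrict Ω), |b1 z| ≤ M * |v z|)
    (hM2 : ∀ᵐ z ∂(volume.restrict Ω), |b2 z| ≤ M * |v z|) {s : ℝ} {U : ℂ → F3}
    (hU : InH Ω U) (hU0 : ∀ᵐ z ∂(volume.restrict Ω), 0 ≤ U z 0)
    (hs : ∀ V, InH Ω V → PF Ω a1 a2 s 0 U V = ∫ z in Ω, V z 0) :
    s * ∫ z in Ω, (a1 z * b1 z + a2 z * b2 z) ≤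
      ∫ z in Ω, (M ^ 2 + 2 * (fderiv ℝ v z 1 ^ 2 + fderiv ℝ v z Complex.I ^ 2)) := by
  have : IsFiniteMeasure (volume.restrict Ω) := ⟨by
    rw [Measure.restrict_apply_univ]; exact lt_top_iff_ne_top.2 hfin⟩
  obtain ⟨ε, hεdef⟩ : ∃ ε, ε = (s ^ 2 * hd.beta + 1)⁻¹ := ⟨_, rfl⟩
  have hβ : 0 ≤ hd.beta := (D hd).hβ
  have hε : 0 < ε := by rw [hεdef]; positivity
  have hεs : s ^ 2 * hd.beta * ε ≤ 1 := by
    rw [hεdef, ← div_eq_mul_inv, div_le_one (by positivity)]; linarith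
  have hg2c : Continuous fun t => ge ε t ^ 2 := (ge_cont hε).pow 2
  have hg2b : ∀ t, |ge ε t ^ 2| ≤ ε⁻¹ ^ 2 := by
    intro t
    rw [abs_pow]
    exact pow_le_pow_left₀ (abs_nonneg _) (ge_abs hε t) 2
  have hW := hU.chp hfin (ge_cont hε) (ge_abs hε)
  have hP := hU.chp hfin hg2c hg2b
  have hw := hv.mul_self
  have hV0 := (hw.inH.smul ε⁻¹).add ((hP.mul hfin hw.smooth hw.comp).smul (-1))
  have hV : InH Ω (fun z => mk3 (v z ^ 2 * ge ε (U z 0))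
      (2 * v z * fderiv ℝ v z 1 * ge ε (U z 0) - v z ^ 2 * (ge ε (U z 0) ^ 2 * U z 1))
      (2 * v z * fderiv ℝ v z Complex.I * ge ε (U z 0)
        - v z ^ 2 * (ge ε (U z 0) ^ 2 * U z 2))) := by
    refine hV0.congr ?_
    filter_upwards [hU0] with z hz
    have e0 := ge_prm hε hz
    have ej := hv.jet_mul_self z
    have j0 : (v * v) z = v z ^ 2 := congrArg (fun u : F3 => u 0) ej
    have j1 : fderiv ℝ (v * v) z 1 = 2 * v z * fderiv ℝ v z 1 :=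
      congrArg (fun u : F3 => u 1) ej
    have j2 : fderiv ℝ (v * v) z Complex.I = 2 * v z * fderiv ℝ v z Complex.I :=
      congrArg (fun u : F3 => u 2) ej
    apply F3_ext
    · simp only [Pi.add_apply, Pi.smul_apply, PiLp.add_apply, PiLp.smul_apply, ej, mlt, mk3_0,
        smul_eq_mul, e0, j0]
      ring
    · simp only [Pi.add_apply, Pi.smul_apply, PiLp.add_apply, PiLp.smul_apply, ej, mlt, mk3_0,
        mk3_1, smul_eq_mul, e0, j0, j1]
      ring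
    · simp only [Pi.add_apply, Pi.smul_apply, PiLp.add_apply, PiLp.smul_apply, ej, mlt, mk3_0,
        mk3_2, smul_eq_mul, e0, j0, j2]
      ring
  -- the vanishing integrals
  have z1 := hb.inH hfin hW
  have z2 := hd.inH hfin hV
  have z3 := hd.inH hfin hw.inH
  have z4 := hs _ hV
  simp only [mk3_0, mk3_1, mk3_2] at z1 z2 z4
  have z3' : ∫ z in Ω, (a1 z * (2 * v z * fderiv ℝ v z 1)
      + a2 z * (2 * v z * fderiv ℝ v z Complex.I)) = 0 := by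
    rw [← z3]
    apply integral_congr_ae
    filter_upwards with z
    rw [hv.jet_mul_self z]
    simp
  -- integrability
  have W1 := comp_memLp hW.1 1
  have W2 := comp_memLp hW.1 2
  have V0' := comp_memLp hV.1 0
  have V1 := comp_memLp hV.1 1
  have V2 := comp_memLp hV.1 2
  have w1 := comp_memLp hw.inH.1 1
  have w2 := comp_memLp hw.inH.1 2
  simp only [mk3_0, mk3_1, mk3_2] at W1 W2 V0' V1 V2
  simp_rw [hv.jet_mul_self] at w1 w2
  simp only [mk3_1, mk3_2] at w1 w2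
  have i1 : Integrable (fun z => b1 z * (ge ε (U z 0) * U z 1)
      + b2 z * (ge ε (U z 0) * U z 2)) (volume.restrict Ω) :=
    ((memLp_bmul hb.m1 hb.b1 W1).integrable (by norm_num)).add
      ((memLp_bmul hb.m2 hb.b2 W2).integrable (by norm_num))
  have i2 := ((memLp_bmul hd.m1 hd.b1 V1).integrable (by norm_num)).add
      ((memLp_bmul hd.m2 hd.b2 V2).integrable (by norm_num))
  have i3 := ((memLp_bmul hd.m1 hd.b1 w1).integrable (by norm_num)).add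
      ((memLp_bmul hd.m2 hd.b2 w2).integrable (by norm_num))
  have i4 := V0'.integrable (by norm_num)
  have i5 := pf_int hd s 0 hU.1 hV.1
  have iv1 := grad_int hv.inH.1 1
  have iv2 := grad_int hv.inH.1 2
  have i6 : Integrable (fun z => M ^ 2 + 2 * (fderiv ℝ v z 1 ^ 2
      + fderiv ℝ v z Complex.I ^ 2)) (volume.restrict Ω) := by
    have := (integrable_const (μ := volume.restrict Ω) (M ^ 2)).add ((iv1.add iv2).const_mul 2)
    refine this.congr ?_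
    filter_upwards with z
    simp [jet, pow_two]
  have i7 : Integrable (fun z => a1 z * b1 z + a2 z * b2 z) (volume.restrict Ω) := by
    have c1 : MemLp a1 2 (volume.restrict Ω) := by
      obtain ⟨C, hC⟩ := hd.b1
      exact MemLp.of_bound hd.m1 C hC
    have c2 : MemLp a2 2 (volume.restrict Ω) := by
      obtain ⟨C, hC⟩ := hd.b2
      exact MemLp.of_bound hd.m2 C hC
    have c3 : MemLp b1 2 (volume.restrict Ω) := by
      obtain ⟨C, hC⟩ := hb.b1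
      exact MemLp.of_bound hb.m1 C hC
    have c4 : MemLp b2 2 (volume.restrict Ω) := by
      obtain ⟨C, hC⟩ := hb.b2
      exact MemLp.of_bound hb.m2 C hC
    exact (int_mul c1 c3).add (int_mul c2 c4)
  refine lin7 (c := 2 * s * ε) ?_ i1 i2 i3 i4 i5 i6 i7 z1 z2 z3' z4
  filter_upwards [hU0, hM1, hM2, hd.sqn_le] with z h0 h1 h2 h3
  have hg := ge_pos hε (U z 0)
  have hgu : ge ε (U z 0) * (U z 0 + ε) = 1 := by
    unfold ge
    rw [max_eq_left h0]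
    exact inv_mul_cancel₀ (by linarith)
  have hsn : s ^ 2 * (a1 z ^ 2 + a2 z ^ 2) * ε ≤ 1 := by
    refine le_trans ?_ hεs
    apply mul_le_mul_of_nonneg_right _ hε.le
    exact mul_le_mul_of_nonneg_left h3 (sq_nonneg s)
  have := flux_pt (s := s) (u1 := U z 1) (u2 := U z 2) (v1 := fderiv ℝ v z 1)
    (v2 := fderiv ℝ v z Complex.I) hg hgu hsn h1 h2
  simp only [pf, sqn, mk3_0, mk3_1, mk3_2, Pi.add_apply]
  linarith

theorem DivFree.neg {b1 b2 : ℂ → ℝ} (hb : DivFree Ω b1 b2) :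
    DivFree Ω (fun z => -b1 z) (fun z => -b2 z) := by
  refine ⟨hb.m1.neg, hb.m2.neg, ?_, ?_⟩
  · obtain ⟨C, h1, h2⟩ := hb.bdd
    refine ⟨C, ?_, ?_⟩
    · filter_upwards [h1] with z hz
      rwa [abs_neg]
    · filter_upwards [h2] with z hz
      rwa [abs_neg]
  · intro v hv
    have := hb.div v hv
    have e : ∀ z, -b1 z * fderiv ℝ v z 1 + -b2 z * fderiv ℝ v z Complex.I
        = -(b1 z * fderiv ℝ v z 1 + b2 z * fderiv ℝ v z Complex.I) := fun z => by ring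
    simp_rw [e]
    rw [integral_neg, this, neg_zero]

/-- The form has a kernel for some positive `s`. -/
theorem exists_kernel (hd : DivFree Ω a1 a2) (hfin : volume Ω ≠ ∞) (hΩm : MeasurableSet Ω) {R : ℝ}
    (hR : ∀ z ∈ Ω, |z.re| ≤ R ∧ |z.im| ≤ R) {b1 b2 : ℂ → ℝ} (hb : DivFree Ω b1 b2)
    {v : ℂ → ℝ} (hv : IsTest Ω v) {M : ℝ}
    (hM1 : ∀ᵐ z ∂(volume.restrict Ω), |b1 z| ≤ M * |v z|)
    (hM2 : ∀ᵐ z ∂(volume.restrict Ω), |b2 z| ≤ M * |v z|)
    (hne : ∫ z in Ω, (a1 z * b1 z + a2 z * b2 z) ≠ 0) :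
    ∃ s : ℝ, 0 < s ∧ ∃ U : ℂ → F3, InH Ω U ∧ (¬ ∀ᵐ z ∂(volume.restrict Ω), U z = 0) ∧
      ∀ V, InH Ω V → PF Ω a1 a2 s 0 U V = 0 := by
  by_contra hno'
  have hno : ∀ s : ℝ, 0 < s → ∀ U : ℂ → F3, InH Ω U → (¬ ∀ᵐ z ∂(volume.restrict Ω), U z = 0) →
      ∃ V, InH Ω V ∧ PF Ω a1 a2 s 0 U V ≠ 0 := by
    intro s hs U hU hU0
    by_contra h
    apply hno'
    exact ⟨s, hs, U, hU, hU0, fun V hV => by_contra fun hne => h ⟨V, hV, hne⟩⟩
  have : IsFiniteMeasure (volume.restrict Ω) := ⟨by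
    rw [Measure.restrict_apply_univ]; exact lt_top_iff_ne_top.2 hfin⟩
  have hJ : IsCompactOperator (JH Ω) := JH_compact hfin hΩm hR
  have hΩR : ∀ z ∈ Ω, |z.re| ≤ R := fun z hz => (hR z hz).1
  have hinv : ∀ s : ℝ, 0 ≤ s → IsUnit ((D hd).Q s 0) := by
    intro s hs
    rcases hs.eq_or_lt with h | h
    · subst h
      exact (base_good hd hfin hJ hΩR 0 0 (by simp)).1
    · apply Q_unit hd hJ
      intro U hU
      by_contra hU0
      have h1 : ¬ ∀ᵐ z ∂(volume.restrict Ω), (U : Lp F3 2 (volume.restrict Ω)) z = 0 := by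
        intro h2
        apply hU0
        apply Hsub_zero
        intro i
        filter_upwards [h2] with z hz
        rw [hz]; rfl
      obtain ⟨V, hV, hVne⟩ := hno s h _ (sol_inH U) h1
      apply hVne
      have h3 := hU ⟨hV.1.toLp V, hV.mem⟩
      exact (PF_congr EventuallyEq.rfl hV.1.coeFn_toLp.symm).trans h3
  have hgood := (D hd).main (base_good hd hfin hJ hΩR) hinv
  obtain ⟨f, hf⟩ : ∃ f : Lp ℝ 2 (volume.restrict Ω), f = (memLp_const (1 : ℝ)).toLp _ := ⟨_, rfl⟩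
  have hfae : f =ᵐ[volume.restrict Ω] fun _ => (1 : ℝ) := by
    rw [hf]; exact MemLp.coeFn_toLp _
  have hf0 : 0 ≤ f := by
    rw [← Lp.coeFn_nonneg]
    filter_upwards [hfae] with z hz
    rw [hz]; simp
  have key : ∀ (b1 b2 : ℂ → ℝ), DivFree Ω b1 b2 →
      (∀ᵐ z ∂(volume.restrict Ω), |b1 z| ≤ M * |v z|) →
      (∀ᵐ z ∂(volume.restrict Ω), |b2 z| ≤ M * |v z|) →
      ∀ s : ℝ, 0 < s → s * ∫ z in Ω, (a1 z * b1 z + a2 z * b2 z) ≤
        ∫ z in Ω, (M ^ 2 + 2 * (fderiv ℝ v z 1 ^ 2 + fderiv ℝ v z Complex.I ^ 2)) := by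
    intro b1 b2 hb h1 h2 s hs
    have hg := hgood s hs.le 0 le_rfl
    refine flux hd hfin hb hv h1 h2 (sol_inH ((D hd).R s 0 ((D hd).Jt f))) ?_ ?_
    · have h3 := hg.2 f hf0
      rw [← Lp.coeFn_nonneg] at h3
      have h4 : (D hd).N s 0 f = JH Ω ((D hd).R s 0 ((D hd).Jt f)) := rfl
      rw [h4] at h3
      filter_upwards [h3, JH_ae ((D hd).R s 0 ((D hd).Jt f))] with z e1 e2
      rw [e2] at e1
      exact e1
    · intro V hV
      rw [solve_form hd hg.1 f hV]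
      apply integral_congr_ae
      filter_upwards [hfae] with z hz
      rw [hz, one_mul]
  have hcontra : ∀ I K : ℝ, 0 < I → (∀ s : ℝ, 0 < s → s * I ≤ K) → False := by
    intro I K hI h
    have h1 := h ((|K| + 1) / I) (by positivity)
    rw [div_mul_cancel₀ _ hI.ne'] at h1
    linarith [le_abs_self K]
  rcases lt_or_gt_of_ne hne with h | h
  · refine hcontra _ _ ?_ (key _ _ hb.neg ?_ ?_)
    · have e : ∀ z, a1 z * -b1 z + a2 z * -b2 z = -(a1 z * b1 z + a2 z * b2 z) := fun z => by ring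
      simp_rw [e]
      rw [integral_neg]
      linarith
    · filter_upwards [hM1] with z hz
      rwa [abs_neg]
    · filter_upwards [hM2] with z hz
      rwa [abs_neg]
  · exact hcontra _ _ h (key _ _ hb hM1 hM2)

end Pool.Agent.Helper61.KS
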