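import Mathlib

/-! Paths constant near the ends, and a single-valued imaginary part of a primitive. -/

set_option autoImplicit false
open MeasureTheory Topology Filter Set
open scoped ENNReal

namespace Pool.Agent.Helper61.KS

/-- a `C^1` path from `z` to `w` in `Ω`, constant outside `[0,1]` -/
structure FP (Ω : Set ℂ) (γ : ℝ → ℂ) (z w : ℂ) : Prop where
  smooth : ContDiff ℝ 1 γ
  left : ∀ t ≤ 0, γ t = z
  right : ∀ t, 1 ≤ t → γ t = w
  mem : ∀ t, γ t ∈ Ω

/-- integral along a path -/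
noncomputable def PI (k : ℂ → ℂ) (γ : ℝ → ℂ) : ℂ := ∫ t, k (γ t) * deriv γ t

variable {Ω : Set ℂ} {γ γ1 γ2 : ℝ → ℂ} {z w x : ℂ} {k : ℂ → ℂ}

theorem FP.d_left (h : FP Ω γ z w) {t : ℝ} (ht : t < 0) : deriv γ t = 0 := by
  have : γ =ᶠ[𝓝 t] fun _ => z := by
    filter_upwards [Iio_mem_nhds ht] with x hx
    exact h.left x (le_of_lt hx)
  rw [this.deriv_eq]; simp

theorem FP.d_right (h : FP Ω γ z w) {t : ℝ} (ht : 1 < t) : deriv γ t = 0 := by
  have : γ =ᶠ[𝓝 t] fun _ => w := by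
    filter_upwards [Ioi_mem_nhds ht] with x hx
    exact h.right x (le_of_lt hx)
  rw [this.deriv_eq]; simp

theorem FP.d_out (h : FP Ω γ z w) {t : ℝ} (ht : t ∉ Icc (0 : ℝ) 1) : deriv γ t = 0 := by
  rw [mem_Icc, not_and_or, not_le, not_le] at ht
  rcases ht with ht | ht
  · exact h.d_left ht
  · exact h.d_right ht

theorem FP.cont (h : FP Ω γ z w) (hk : ContinuousOn k Ω) :
    Continuous fun t => k (γ t) * deriv γ t :=
  (hk.comp_continuous h.smooth.continuous h.mem).mul (h.smooth.continuous_deriv (by norm_num))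

theorem FP.integrable (h : FP Ω γ z w) (hk : ContinuousOn k Ω) :
    Integrable fun t => k (γ t) * deriv γ t := by
  apply (h.cont hk).integrable_of_hasCompactSupport
  refine HasCompactSupport.intro (isCompact_Icc (a := (0 : ℝ)) (b := 1)) fun t ht => ?_
  rw [h.d_out ht, mul_zero]

theorem FP.PI_eq (h : FP Ω γ z w) : PI k γ = ∫ t in (0 : ℝ)..1, k (γ t) * deriv γ t := by
  rw [intervalIntegral.integral_of_le zero_le_one, ← integral_Icc_eq_integral_Ioc]
  symm
  apply setIntegral_eq_integral_of_forall_compl_eq_zero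
  intro t ht
  rw [h.d_out ht, mul_zero]

theorem FP.concat (h1 : FP Ω γ1 z w) (h2 : FP Ω γ2 w x) :
    FP Ω (fun t => γ1 (2 * t) + γ2 (2 * t - 1) - w) z x := by
  refine ⟨?_, ?_, ?_, ?_⟩
  · have e1 : ContDiff ℝ 1 fun t : ℝ => 2 * t := by fun_prop
    have e2 : ContDiff ℝ 1 fun t : ℝ => 2 * t - 1 := by fun_prop
    exact ((h1.smooth.comp e1).add (h2.smooth.comp e2)).sub contDiff_const
  · intro t ht
    rw [h1.left _ (by linarith), h2.left _ (by linarith)]; ring
  · intro t ht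
    rw [h1.right _ (by linarith), h2.right _ (by linarith)]; ring
  · intro t
    rcases le_total t (1 / 2) with ht | ht
    · rw [h2.left _ (by linarith)]
      simpa using h1.mem _
    · rw [h1.right _ (by linarith)]
      have := h2.mem (2 * t - 1)
      convert! this using 1
      ring

theorem FP.PI_concat (h1 : FP Ω γ1 z w) (h2 : FP Ω γ2 w x) (hk : ContinuousOn k Ω) :
    PI k (fun t => γ1 (2 * t) + γ2 (2 * t - 1) - w) = PI k γ1 + PI k γ2 := by
  have hd : ∀ t, deriv (fun t => γ1 (2 * t) + γ2 (2 * t - 1) - w) t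
      = 2 * deriv γ1 (2 * t) + 2 * deriv γ2 (2 * t - 1) := by
    intro t
    have e1 : HasDerivAt (fun t : ℝ => 2 * t) 2 t := by
      simpa using (hasDerivAt_id t).const_mul (2 : ℝ)
    have e2 : HasDerivAt (fun t : ℝ => 2 * t - 1) 2 t := e1.sub_const 1
    have d1 : HasDerivAt γ1 (deriv γ1 (2 * t)) (2 * t) :=
      (h1.smooth.differentiable (by norm_num) _).hasDerivAt
    have d2 : HasDerivAt γ2 (deriv γ2 (2 * t - 1)) (2 * t - 1) :=
      (h2.smooth.differentiable (by norm_num) _).hasDerivAt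
    have := ((d1.scomp t e1).add (d2.scomp t e2)).sub_const w
    refine this.deriv.trans ?_
    simp
  have key : ∀ t, k (γ1 (2 * t) + γ2 (2 * t - 1) - w)
      * deriv (fun t => γ1 (2 * t) + γ2 (2 * t - 1) - w) t
      = 2 * (k (γ1 (2 * t)) * deriv γ1 (2 * t))
        + 2 * (k (γ2 (2 * t - 1)) * deriv γ2 (2 * t - 1)) := by
    intro t
    rw [hd]
    rcases lt_trichotomy t (1 / 2) with ht | ht | ht
    · rw [h2.left (2 * t - 1) (by linarith), h2.d_left (t := 2 * t - 1) (by linarith)]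
      rw [add_sub_cancel_right]; ring
    · have e1 : γ1 (2 * t) = w := h1.right _ (by linarith)
      have e2 : γ2 (2 * t - 1) = w := h2.left _ (by linarith)
      rw [e1, e2, add_sub_cancel_right]; ring
    · rw [h1.right (2 * t) (by linarith), h1.d_right (t := 2 * t) (by linarith)]
      rw [add_sub_cancel_left]; ring
  unfold PI
  simp_rw [key]
  have i1 : Integrable fun t => k (γ1 (2 * t)) * deriv γ1 (2 * t) :=
    (h1.integrable hk).comp_mul_left' (R := 2) (by norm_num)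
  have i2 : Integrable fun t => k (γ2 (2 * t - 1)) * deriv γ2 (2 * t - 1) := by
    have := ((h2.integrable hk).comp_sub_right 1).comp_mul_left' (R := 2) (by norm_num)
    exact this
  rw [integral_add (i1.const_mul 2) (i2.const_mul 2), integral_const_mul, integral_const_mul]
  have e1 : ∫ t, k (γ1 (2 * t)) * deriv γ1 (2 * t)
      = |(2 : ℝ)⁻¹| • ∫ t, k (γ1 t) * deriv γ1 t :=
    Measure.integral_comp_mul_left (fun t => k (γ1 t) * deriv γ1 t) 2
  have e2 : ∫ t, k (γ2 (2 * t - 1)) * deriv γ2 (2 * t - 1)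
      = |(2 : ℝ)⁻¹| • ∫ t, k (γ2 (t - 1)) * deriv γ2 (t - 1) :=
    Measure.integral_comp_mul_left (fun t => k (γ2 (t - 1)) * deriv γ2 (t - 1)) 2
  have e3 : ∫ t, k (γ2 (t - 1)) * deriv γ2 (t - 1) = ∫ t, k (γ2 t) * deriv γ2 t :=
    integral_sub_right_eq_self (fun t => k (γ2 t) * deriv γ2 t) 1
  rw [e1, e2, e3]
  simp

theorem FP.rev (h : FP Ω γ z w) : FP Ω (fun t => γ (1 - t)) w z := by
  refine ⟨?_, ?_, ?_, ?_⟩
  · exact h.smooth.comp (by fun_prop)
  · intro t ht; exact h.right _ (by linarith)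
  · intro t ht; exact h.left _ (by linarith)
  · intro t; exact h.mem _

theorem FP.PI_rev (h : FP Ω γ z w) : PI k (fun t => γ (1 - t)) = -PI k γ := by
  have hd : ∀ t, deriv (fun t => γ (1 - t)) t = -deriv γ (1 - t) := by
    intro t
    have e1 : HasDerivAt (fun t : ℝ => 1 - t) (-1) t := by
      simpa using (hasDerivAt_id t).const_sub 1
    have d1 : HasDerivAt γ (deriv γ (1 - t)) (1 - t) :=
      (h.smooth.differentiable (by norm_num) _).hasDerivAt
    refine (d1.scomp t e1).deriv.trans ?_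
    simp
  unfold PI
  simp_rw [hd]
  have e1 : ∫ t, k (γ (1 - t)) * deriv γ (1 - t) = ∫ t, k (γ t) * deriv γ t :=
    integral_sub_left_eq_self (fun t => k (γ t) * deriv γ t) volume 1
  rw [← e1, ← integral_neg]
  congr 1
  ext t
  ring

/-- smooth segment -/
noncomputable def seg (z w : ℂ) (t : ℝ) : ℂ := z + (Real.smoothTransition t : ℂ) * (w - z)

theorem seg_FP {c : ℂ} {r : ℝ} (hz : z ∈ Metric.ball c r) (hw : w ∈ Metric.ball c r)
    (hb : Metric.ball c r ⊆ Ω) : FP Ω (seg z w) z w ∧ ∀ t, seg z w t ∈ Metric.ball c r := by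
  have hmem : ∀ t, seg z w t ∈ Metric.ball c r := by
    intro t
    have hc := convex_ball c r
    have := hc.add_smul_sub_mem hz hw
      (t := Real.smoothTransition t) ⟨Real.smoothTransition.nonneg t, Real.smoothTransition.le_one t⟩
    simpa [seg] using this
  refine ⟨⟨?_, ?_, ?_, fun t => hb (hmem t)⟩, hmem⟩
  · unfold seg
    have h1 : ContDiff ℝ 1 fun t : ℝ => (Real.smoothTransition t : ℂ) :=
      Complex.ofRealCLM.contDiff.comp (Real.smoothTransition.contDiff (n := 1))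
    exact contDiff_const.add (h1.mul contDiff_const)
  · intro t ht
    simp [seg, Real.smoothTransition.zero_of_nonpos ht]
  · intro t ht
    simp [seg, Real.smoothTransition.one_of_one_le ht]

theorem PI_prim {K : ℂ → ℂ} {B : Set ℂ} (hK : ∀ z ∈ B, HasDerivAt K (k z) z) (h : FP Ω γ z w)
    (hB : ∀ t, γ t ∈ B) (hk : ContinuousOn k Ω) : PI k γ = K w - K z := by
  rw [h.PI_eq]
  have := intervalIntegral.integral_eq_sub_of_hasDerivAt (a := (0 : ℝ)) (b := 1)
    (f := fun t => K (γ t)) (f' := fun t => k (γ t) * deriv γ t) (fun t _ => by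
      have d1 : HasDerivAt γ (deriv γ t) t := (h.smooth.differentiable (by norm_num) t).hasDerivAt
      exact (hK _ (hB t)).comp t d1) ((h.cont hk).intervalIntegrable _ _)
  rw [this, h.right 1 le_rfl, h.left 0 le_rfl]

/-- every point is reachable -/
theorem exists_FP (hΩ : IsOpen Ω) (hc : IsPreconnected Ω) {z0 : ℂ} (h0 : z0 ∈ Ω) {z : ℂ}
    (hz : z ∈ Ω) : ∃ γ, FP Ω γ z0 z := by
  let S : Set ℂ := {z | z ∈ Ω ∧ ∃ γ, FP Ω γ z0 z}
  have hS : IsOpen S := by
    rw [Metric.isOpen_iff]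
    rintro z ⟨hz, γ, hγ⟩
    obtain ⟨r, hr, hb⟩ := Metric.isOpen_iff.1 hΩ z hz
    refine ⟨r, hr, fun w hw => ⟨hb hw, ?_⟩⟩
    exact ⟨_, hγ.concat (seg_FP (Metric.mem_ball_self hr) hw hb).1⟩
  have hT : IsOpen (Ω \ S) := by
    rw [Metric.isOpen_iff]
    rintro z ⟨hz, hzS⟩
    obtain ⟨r, hr, hb⟩ := Metric.isOpen_iff.1 hΩ z hz
    refine ⟨r, hr, fun w hw => ⟨hb hw, fun hwS => hzS ?_⟩⟩
    obtain ⟨_, γ, hγ⟩ := hwS
    exact ⟨hz, _, hγ.concat (seg_FP hw (Metric.mem_ball_self hr) hb).1⟩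
  have hsub : Ω ⊆ S := by
    refine IsPreconnected.subset_left_of_subset_union hS hT disjoint_sdiff_right ?_ ?_ hc
    · intro z hz
      by_cases h : z ∈ S
      · exact Or.inl h
      · exact Or.inr ⟨hz, h⟩
    · refine ⟨z0, h0, h0, ?_⟩
      refine ⟨fun _ => z0, contDiff_const, fun _ _ => rfl, fun _ _ => rfl, fun _ => h0⟩
  exact (hsub hz).2

/-- the linear form `e ↦ Im (c e)` -/
noncomputable def imL (c : ℂ) : ℂ →L[ℝ] ℝ :=
  Complex.imCLM.comp (ContinuousLinearMap.mul ℝ ℂ c)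

@[simp] theorem imL_apply (c e : ℂ) : imL c e = (c * e).im := rfl

/-- single-valued imaginary part of the primitive -/
theorem exists_rho (hΩ : IsOpen Ω) (hc : IsConnected Ω) (hk : DifferentiableOn ℂ k Ω)
    (hper : ∀ γ : ℝ → ℂ, ContDiff ℝ 1 γ → γ 0 = γ 1 → (∀ t ∈ Icc (0 : ℝ) 1, γ t ∈ Ω) →
      (∫ t in (0 : ℝ)..1, k (γ t) * deriv γ t).im = 0) :
    ∃ ρ : ℂ → ℝ, ∀ z ∈ Ω, HasFDerivAt ρ (imL (k z)) z := by
  classical
  obtain ⟨z0, h0⟩ := hc.nonempty
  have hkc := hk.continuousOn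
  have hloop : ∀ {γ : ℝ → ℂ} {z : ℂ}, FP Ω γ z z → (PI k γ).im = 0 := by
    intro γ z h
    rw [h.PI_eq]
    exact hper γ h.smooth (by rw [h.left 0 le_rfl, h.right 1 le_rfl]) (fun t _ => h.mem t)
  let ρ : ℂ → ℝ := fun z => if h : ∃ γ, FP Ω γ z0 z then (PI k h.choose).im else 0
  have hρ : ∀ {γ : ℝ → ℂ} {z : ℂ}, FP Ω γ z0 z → ρ z = (PI k γ).im := by
    intro γ z h
    have hex : ∃ γ, FP Ω γ z0 z := ⟨γ, h⟩
    have e : ρ z = (PI k hex.choose).im := dif_pos hex
    have h1 := hex.choose_spec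
    have h2 := hloop (h1.concat h.rev)
    rw [FP.PI_concat h1 h.rev hkc, h.PI_rev, Complex.add_im, Complex.neg_im] at h2
    rw [e]; linarith
  refine ⟨ρ, fun z hz => ?_⟩
  obtain ⟨r, hr, hb⟩ := Metric.isOpen_iff.1 hΩ z hz
  obtain ⟨K, hK⟩ := (hk.mono hb).isExactOn_ball
  obtain ⟨γ, hγ⟩ := exists_FP hΩ hc.isPreconnected h0 hz
  have hloc : ρ =ᶠ[𝓝 z] fun w => ρ z + (K w - K z).im := by
    filter_upwards [Metric.ball_mem_nhds z hr] with w hw
    obtain ⟨hs, hs'⟩ := seg_FP (Metric.mem_ball_self hr) hw hb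
    rw [hρ (hγ.concat hs), FP.PI_concat hγ hs hkc, PI_prim hK hs hs' hkc, Complex.add_im,
      ← hρ hγ]
  have hd : HasFDerivAt (fun w => ρ z + (K w - K z).im) (imL (k z)) z := by
    have h1 : HasFDerivAt K ((ContinuousLinearMap.toSpanSingleton ℂ (k z)).restrictScalars ℝ) z :=
      (hK z (Metric.mem_ball_self hr)).hasFDerivAt.restrictScalars ℝ
    have h2 := (Complex.imCLM.hasFDerivAt.comp z (h1.sub_const (K z))).const_add (ρ z)
    refine h2.congr_fderiv ?_
    ext e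
    simp [imL]
    ring
  exact hd.congr_of_eventuallyEq hloc

end Pool.Agent.Helper61.KS
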