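import Mathlib
import Pool.Agent.Helper61.KS.Flux
import Pool.Agent.Helper61.KS.Paths
import Pool.Agent.Helper61.KS.Field

/-! From a kernel vector to an eigenfunction. -/

set_option autoImplicit false
open MeasureTheory Topology Filter Set
open scoped ENNReal ComplexConjugate

namespace Pool.Agent.Helper61.KS

variable {Ω : Set ℂ} {k : ℂ → ℂ}

theorem imL_smooth : ContDiff ℝ 1 imL := by
  unfold imL
  have h1 : ContDiff ℝ 1 fun c : ℂ => (ContinuousLinearMap.mul ℝ ℂ c) :=
    (ContinuousLinearMap.mul ℝ ℂ).contDiff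
  exact contDiff_const.clm_comp h1

theorem rho_smooth (hΩ : IsOpen Ω) (hk : DifferentiableOn ℂ k Ω) {ρ : ℂ → ℝ}
    (hρ : ∀ z ∈ Ω, HasFDerivAt ρ (imL (k z)) z) : ContDiffOn ℝ 2 ρ Ω := by
  have hk1 : ContDiffOn ℝ 1 k Ω := (hk.contDiffOn hΩ).restrict_scalars ℝ
  have e : (2 : WithTop ℕ∞) = 1 + 1 := by norm_num
  rw [e, contDiffOn_succ_iff_fderiv_of_isOpen hΩ]
  refine ⟨fun z hz => (hρ z hz).differentiableAt.differentiableWithinAt, by simp, ?_⟩
  have : ContDiffOn ℝ 1 (fun z => imL (k z)) Ω := imL_smooth.comp_contDiffOn hk1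
  exact this.congr fun z hz => (hρ z hz).fderiv

/-- the gauge factor -/
noncomputable def gau (s : ℝ) (ρ : ℂ → ℝ) (z : ℂ) : ℂ := Complex.exp (Complex.I * (s * ρ z : ℝ))

theorem gau_norm (s : ℝ) (ρ : ℂ → ℝ) (z : ℂ) : ‖gau s ρ z‖ = 1 := by
  unfold gau
  rw [mul_comm]
  exact Complex.norm_exp_ofReal_mul_I _

theorem gau_smooth (hΩ : IsOpen Ω) (hk : DifferentiableOn ℂ k Ω) {ρ : ℂ → ℝ} (s : ℝ)
    (hρ : ∀ z ∈ Ω, HasFDerivAt ρ (imL (k z)) z) : ContDiffOn ℝ 2 (gau s ρ) Ω := by
  unfold gau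
  have h1 := rho_smooth hΩ hk hρ
  have h2 : ContDiffOn ℝ 2 (fun z => ((s * ρ z : ℝ) : ℂ)) Ω :=
    Complex.ofRealCLM.contDiff.comp_contDiffOn (contDiffOn_const.mul h1)
  exact (contDiffOn_const.mul h2).cexp

theorem gau_mul_smooth (hΩ : IsOpen Ω) (hk : DifferentiableOn ℂ k Ω) {ρ : ℂ → ℝ} (s : ℝ)
    (hρ : ∀ z ∈ Ω, HasFDerivAt ρ (imL (k z)) z) {n : WithTop ℕ∞} (hn : n ≤ 2) {φ : ℂ → ℂ}
    (hφ : ContDiff ℝ n φ) (hs : tsupport φ ⊆ Ω) : ContDiff ℝ n (fun z => gau s ρ z * φ z) := by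
  rw [contDiff_iff_contDiffAt]
  intro z
  by_cases hz : z ∈ Ω
  · exact (((gau_smooth hΩ hk s hρ).of_le hn z hz).contDiffAt (hΩ.mem_nhds hz)).mul hφ.contDiffAt
  · have hz' : z ∉ tsupport φ := fun h => hz (hs h)
    have : (fun z => gau s ρ z * φ z) =ᶠ[𝓝 z] fun _ => 0 := by
      have h1 : φ =ᶠ[𝓝 z] 0 := notMem_tsupport_iff_eventuallyEq.1 hz'
      filter_upwards [h1] with y hy
      simp [hy]
    exact contDiffAt_const.congr_of_eventuallyEq this

theorem gau_mul_deriv {ρ : ℂ → ℝ} (s : ℝ)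
    (hρ : ∀ z ∈ Ω, HasFDerivAt ρ (imL (k z)) z) {φ : ℂ → ℂ}
    (hφ : ContDiff ℝ 1 φ) {z : ℂ} (hz : z ∈ Ω) (e : ℂ) :
    fderiv ℝ (fun z => gau s ρ z * φ z) z e
      = gau s ρ z * fderiv ℝ φ z e + gau s ρ z * (Complex.I * (s * (k z * e).im : ℝ)) * φ z := by
  have h1 : HasFDerivAt (fun z => s * ρ z) (s • imL (k z)) z := (hρ z hz).const_mul s
  have h2 : HasFDerivAt (fun z => ((s * ρ z : ℝ) : ℂ)) (Complex.ofRealCLM.comp (s • imL (k z))) z :=
    Complex.ofRealCLM.hasFDerivAt.comp z h1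
  have h3 : HasFDerivAt (gau s ρ) _ z := (h2.const_mul Complex.I).cexp
  have h4 : HasFDerivAt φ (fderiv ℝ φ z) z := (hφ.differentiable (by norm_num) z).hasFDerivAt
  have h5 := (h3.mul h4).fderiv
  have e : (fun z => gau s ρ z * φ z) = gau s ρ * φ := rfl
  rw [e, h5]
  simp [gau]
  ring

/-- the rotated gradient of a `C^2` function is divergence free -/
theorem divFree_rot {v : ℂ → ℝ} (hv : ContDiff ℝ 2 v) (hc : HasCompactSupport v) :
    DivFree Ω (fun z => fderiv ℝ v z Complex.I) (fun z => -fderiv ℝ v z 1) := by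
  have c0 : ContDiff ℝ 1 (fderiv ℝ v) := hv.fderiv_right (by norm_num)
  have c1 : ∀ e : ℂ, ContDiff ℝ 1 fun z => fderiv ℝ v z e := fun e => c0.clm_apply contDiff_const
  have s1 : ∀ e : ℂ, HasCompactSupport fun z => fderiv ℝ v z e := fun e =>
    hc.fderiv_apply (𝕜 := ℝ) e
  obtain ⟨C1, hC1⟩ := (s1 Complex.I).exists_bound_of_continuous (c1 Complex.I).continuous
  obtain ⟨C2, hC2⟩ := (s1 1).exists_bound_of_continuous (c1 1).continuous
  refine ⟨(c1 _).continuous.aestronglyMeasurable, (c1 _).continuous.neg.aestronglyMeasurable,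
    ⟨max C1 C2, ?_, ?_⟩, ?_⟩
  · filter_upwards with z
    exact (hC1 z).trans (le_max_left _ _)
  · filter_upwards with z
    rw [abs_neg]
    exact (hC2 z).trans (le_max_right _ _)
  · intro w hw
    have cw : Continuous (fderiv ℝ w) := hw.smooth.continuous_fderiv (by norm_num)
    have h1 := integral_fderiv_zero (w := fun z => w z * fderiv ℝ v z Complex.I)
      (hw.smooth.mul (c1 _)) hw.comp.mul_right 1
    have h2 := integral_fderiv_zero (w := fun z => w z * fderiv ℝ v z 1)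
      (hw.smooth.mul (c1 _)) hw.comp.mul_right Complex.I
    have hd : ∀ z a b, fderiv ℝ (fun z => w z * fderiv ℝ v z a) z b
        = w z * fderiv ℝ (fderiv ℝ v) z b a + fderiv ℝ v z a * fderiv ℝ w z b := by
      intro z a b
      have d1 : HasFDerivAt w (fderiv ℝ w z) z :=
        (hw.smooth.differentiable (by norm_num) z).hasFDerivAt
      have d2 : HasFDerivAt (fderiv ℝ v) (fderiv ℝ (fderiv ℝ v) z) z :=
        (c0.differentiable (by norm_num) z).hasFDerivAt
      have d3 := d2.clm_apply (hasFDerivAt_const a z)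
      have d4 := (d1.mul d3).fderiv
      have e : (fun z => w z * fderiv ℝ v z a) = w * fun z => fderiv ℝ v z a := rfl
      rw [e, d4]
      simp
    have hsym : ∀ z, fderiv ℝ (fderiv ℝ v) z 1 Complex.I = fderiv ℝ (fderiv ℝ v) z Complex.I 1 := by
      intro z
      have := (hv.contDiffAt (x := z)).isSymmSndFDerivAt (by simp)
      exact this 1 Complex.I
    have i1 : ∀ a b : ℂ, Integrable fun z => fderiv ℝ (fun z => w z * fderiv ℝ v z a) z b := by
      intro a b
      apply Continuous.integrable_of_hasCompactSupport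
      · exact (((hw.smooth.mul (c1 a)).continuous_fderiv (by norm_num))).clm_apply continuous_const
      · exact (hw.comp.mul_right (f' := fun z => fderiv ℝ v z a)).fderiv_apply (𝕜 := ℝ) b
    have h3 : ∫ z, (fderiv ℝ (fun z => w z * fderiv ℝ v z Complex.I) z 1
        - fderiv ℝ (fun z => w z * fderiv ℝ v z 1) z Complex.I) = 0 := by
      rw [integral_sub (i1 _ _) (i1 _ _), h1, h2, sub_zero]
    rw [integral_restrict_supp, ← h3]
    · congr 1
      ext z
      rw [hd, hd, hsym]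
      ring
    · intro z hz
      have hz' : z ∉ tsupport w := fun h => hz (hw.supp h)
      have h1 : fderiv ℝ w z = 0 :=
        image_eq_zero_of_notMem_tsupport fun h => hz' (tsupport_fderiv_subset ℝ h)
      simp [h1]

theorem int_complex {μ : Measure ℂ} {P Q : ℂ → ℝ} (hP : Integrable P μ) (hQ : Integrable Q μ)
    (h1 : ∫ z, P z ∂μ = 0) (h2 : ∫ z, Q z ∂μ = 0) :
    Integrable (fun z => (P z : ℂ) + Complex.I * (Q z : ℂ)) μ ∧
    ∫ z, ((P z : ℂ) + Complex.I * (Q z : ℂ)) ∂μ = 0 := by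
  have i1 : Integrable (fun z => (P z : ℂ)) μ := hP.ofReal
  have i2 : Integrable (fun z => Complex.I * (Q z : ℂ)) μ := hQ.ofReal.const_mul _
  refine ⟨i1.add i2, ?_⟩
  rw [integral_add i1 i2, integral_const_mul]
  have e1 : ∫ z, (P z : ℂ) ∂μ = ((∫ z, P z ∂μ : ℝ) : ℂ) := integral_ofReal
  have e2 : ∫ z, (Q z : ℂ) ∂μ = ((∫ z, Q z ∂μ : ℝ) : ℂ) := integral_ofReal
  rw [e1, e2, h1, h2]; simp

/-- weak equation, tested with a real function -/
theorem weak_real (hd : DivFree Ω (fun z => (k z).re) (fun z => -(k z).im))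
    (hd' : DivFree Ω (fun z => (k z).im) (fun z => (k z).re)) (hfin : volume Ω ≠ ∞) {s : ℝ}
    {U : ℂ → F3} (hU : InH Ω U)
    (hker : ∀ V, InH Ω V → PF Ω (fun z => (k z).re) (fun z => -(k z).im) s 0 U V = 0)
    {v : ℂ → ℝ} (hv : ContDiff ℝ 2 v) (hc : HasCompactSupport v) (hs : tsupport v ⊆ Ω) :
    Integrable (fun z => ((U z 1 : ℂ) - Complex.I * (U z 2 : ℂ) + s * k z * (U z 0 : ℂ))
      * ((fderiv ℝ v z 1 : ℂ) + Complex.I * (fderiv ℝ v z Complex.I : ℂ)
        - s * conj (k z) * (v z : ℂ))) (volume.restrict Ω) ∧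
    ∫ z in Ω, ((U z 1 : ℂ) - Complex.I * (U z 2 : ℂ) + s * k z * (U z 0 : ℂ))
      * ((fderiv ℝ v z 1 : ℂ) + Complex.I * (fderiv ℝ v z Complex.I : ℂ)
        - s * conj (k z) * (v z : ℂ)) = 0 := by
  have : IsFiniteMeasure (volume.restrict Ω) := ⟨by
    rw [Measure.restrict_apply_univ]; exact lt_top_iff_ne_top.2 hfin⟩
  have ht : IsTest Ω v := ⟨hv.of_le (by norm_num), hc, hs⟩
  have hV := ht.inH
  have hr := divFree_rot (Ω := Ω) hv hc
  have z1 := hker _ hV
  have z2 := hd.prod hU hV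
  have z3 := hr.inH hfin hU
  have z4 := hd'.prod hU hV
  have U0 := comp_memLp hU.1 0
  have U1 := comp_memLp hU.1 1
  have U2 := comp_memLp hU.1 2
  have V0 := comp_memLp hV.1 0
  have V1 := comp_memLp hV.1 1
  have V2 := comp_memLp hV.1 2
  have i1 := pf_int hd s 0 hU.1 hV.1
  have i2 : Integrable (fun z => U z 0 * ((k z).re * jet v z 1 + -(k z).im * jet v z 2)
      + jet v z 0 * ((k z).re * U z 1 + -(k z).im * U z 2)) (volume.restrict Ω) :=
    (int_mul U0 ((memLp_bmul hd.m1 hd.b1 V1).add (memLp_bmul hd.m2 hd.b2 V2))).add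
      (int_mul V0 ((memLp_bmul hd.m1 hd.b1 U1).add (memLp_bmul hd.m2 hd.b2 U2)))
  have i3 : Integrable (fun z => fderiv ℝ v z Complex.I * U z 1 + -fderiv ℝ v z 1 * U z 2)
      (volume.restrict Ω) :=
    ((memLp_bmul hr.m1 hr.b1 U1).add (memLp_bmul hr.m2 hr.b2 U2)).integrable (by norm_num)
  have i4 : Integrable (fun z => U z 0 * ((k z).im * jet v z 1 + (k z).re * jet v z 2)
      + jet v z 0 * ((k z).im * U z 1 + (k z).re * U z 2)) (volume.restrict Ω) :=
    (int_mul U0 ((memLp_bmul hd'.m1 hd'.b1 V1).add (memLp_bmul hd'.m2 hd'.b2 V2))).add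
      (int_mul V0 ((memLp_bmul hd'.m1 hd'.b1 U1).add (memLp_bmul hd'.m2 hd'.b2 U2)))
  have hP : ∫ z in Ω, (pf (fun z => (k z).re) (fun z => -(k z).im) s 0 U (jet v) z
      - s * (U z 0 * ((k z).re * jet v z 1 + -(k z).im * jet v z 2)
      + jet v z 0 * ((k z).re * U z 1 + -(k z).im * U z 2))) = 0 := by
    rw [integral_sub i1 (i2.const_mul s), integral_const_mul, z2]
    have : ∫ z in Ω, pf (fun z => (k z).re) (fun z => -(k z).im) s 0 U (jet v) z = 0 := z1
    rw [this]; simp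
  have hQ : ∫ z in Ω, ((fderiv ℝ v z Complex.I * U z 1 + -fderiv ℝ v z 1 * U z 2)
      + s * (U z 0 * ((k z).im * jet v z 1 + (k z).re * jet v z 2)
      + jet v z 0 * ((k z).im * U z 1 + (k z).re * U z 2))) = 0 := by
    rw [integral_add i3 (i4.const_mul s), integral_const_mul, z4, z3]; simp
  have key := int_complex (i1.sub (i2.const_mul s)) (i3.add (i4.const_mul s)) hP hQ
  have e : (fun z => ((U z 1 : ℂ) - Complex.I * (U z 2 : ℂ) + s * k z * (U z 0 : ℂ))
      * ((fderiv ℝ v z 1 : ℂ) + Complex.I * (fderiv ℝ v z Complex.I : ℂ)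
        - s * conj (k z) * (v z : ℂ))) = fun z =>
      ((pf (fun z => (k z).re) (fun z => -(k z).im) s 0 U (jet v) z
      - s * (U z 0 * ((k z).re * jet v z 1 + -(k z).im * jet v z 2)
      + jet v z 0 * ((k z).re * U z 1 + -(k z).im * U z 2)) : ℝ) : ℂ)
      + Complex.I * (((fderiv ℝ v z Complex.I * U z 1 + -fderiv ℝ v z 1 * U z 2)
      + s * (U z 0 * ((k z).im * jet v z 1 + (k z).re * jet v z 2)
      + jet v z 0 * ((k z).im * U z 1 + (k z).re * U z 2)) : ℝ) : ℂ) := by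
    ext z
    simp only [pf, sqn, jet, mk3_0, mk3_1, mk3_2, pow_two]
    apply Complex.ext
    · simp
      ring
    · simp
      ring
  rw [e]
  exact key

/-- the operator `∂/∂z̄` on smooth functions -/
noncomputable def dbar (φ : ℂ → ℂ) (z : ℂ) : ℂ :=
  (fderiv ℝ φ z 1 + Complex.I * fderiv ℝ φ z Complex.I) / 2

/-- the eigenfunction before applying `∂/∂z̄` -/
noncomputable def uf (s : ℝ) (ρ : ℂ → ℝ) (k : ℂ → ℂ) (U : ℂ → F3) (z : ℂ) : ℂ :=
  gau s ρ z * (1 / 2 * ((U z 1 : ℂ) - Complex.I * (U z 2 : ℂ) + s * k z * (U z 0 : ℂ)))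

theorem re_deriv {v : ℂ → ℂ} (hv : ContDiff ℝ 1 v) (z e : ℂ) :
    fderiv ℝ (fun z => (v z).re) z e = (fderiv ℝ v z e).re := by
  have h1 : HasFDerivAt v (fderiv ℝ v z) z := (hv.differentiable (by norm_num) z).hasFDerivAt
  have h2 := (Complex.reCLM.hasFDerivAt.comp z h1).fderiv
  have e1 : (fun z => (v z).re) = Complex.reCLM ∘ v := rfl
  rw [e1, h2]; rfl

theorem im_deriv {v : ℂ → ℂ} (hv : ContDiff ℝ 1 v) (z e : ℂ) :
    fderiv ℝ (fun z => (v z).im) z e = (fderiv ℝ v z e).im := by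
  have h1 : HasFDerivAt v (fderiv ℝ v z) z := (hv.differentiable (by norm_num) z).hasFDerivAt
  have h2 := (Complex.imCLM.hasFDerivAt.comp z h1).fderiv
  have e1 : (fun z => (v z).im) = Complex.imCLM ∘ v := rfl
  rw [e1, h2]; rfl

/-- weak equation, tested with a complex function -/
theorem weak_complex (hΩ : IsOpen Ω) (hk : DifferentiableOn ℂ k Ω)
    (hd : DivFree Ω (fun z => (k z).re) (fun z => -(k z).im))
    (hd' : DivFree Ω (fun z => (k z).im) (fun z => (k z).re)) (hfin : volume Ω ≠ ∞) {s : ℝ}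
    {U : ℂ → F3} (hU : InH Ω U)
    (hker : ∀ V, InH Ω V → PF Ω (fun z => (k z).re) (fun z => -(k z).im) s 0 U V = 0)
    {ρ : ℂ → ℝ} (hρ : ∀ z ∈ Ω, HasFDerivAt ρ (imL (k z)) z)
    {φ : ℂ → ℂ} (hφ : ContDiff ℝ 2 φ) (hc : HasCompactSupport φ) (hs : tsupport φ ⊆ Ω) :
    ∫ z in Ω, uf s ρ k U z * (dbar φ z - s * conj (k z) * φ z) = 0 := by
  obtain ⟨v, hvdef⟩ : ∃ v : ℂ → ℂ, v = fun z => gau s ρ z * φ z := ⟨_, rfl⟩
  have hv : ContDiff ℝ 2 v := by
    rw [hvdef]; exact gau_mul_smooth hΩ hk s hρ le_rfl hφ hs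
  have hv1 : ContDiff ℝ 1 v := hv.of_le (by norm_num)
  have hvc : HasCompactSupport v := by rw [hvdef]; exact hc.mul_left
  have hvs : tsupport v ⊆ Ω := by
    refine subset_trans (closure_mono ?_) hs
    intro z hz
    rw [Function.mem_support] at hz ⊢
    intro h; apply hz; simp [hvdef, h]
  have hre : ContDiff ℝ 2 (fun z => (v z).re) := Complex.reCLM.contDiff.comp hv
  have him : ContDiff ℝ 2 (fun z => (v z).im) := Complex.imCLM.contDiff.comp hv
  have hrec : HasCompactSupport (fun z => (v z).re) :=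
    hvc.comp_left (g := Complex.re) (by simp)
  have himc : HasCompactSupport (fun z => (v z).im) :=
    hvc.comp_left (g := Complex.im) (by simp)
  have hres : tsupport (fun z => (v z).re) ⊆ Ω := by
    refine subset_trans (closure_mono ?_) hvs
    intro z hz
    rw [Function.mem_support] at hz ⊢
    intro h; apply hz; simp [h]
  have hims : tsupport (fun z => (v z).im) ⊆ Ω := by
    refine subset_trans (closure_mono ?_) hvs
    intro z hz
    rw [Function.mem_support] at hz ⊢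
    intro h; apply hz; simp [h]
  obtain ⟨i1, j1⟩ := weak_real hd hd' hfin hU hker hre hrec hres
  obtain ⟨i2, j2⟩ := weak_real hd hd' hfin hU hker him himc hims
  have key : ∀ z ∈ Ω, uf s ρ k U z * (dbar φ z - s * conj (k z) * φ z)
      = 1 / 4 * (((U z 1 : ℂ) - Complex.I * (U z 2 : ℂ) + s * k z * (U z 0 : ℂ))
      * ((fderiv ℝ (fun z => (v z).re) z 1 : ℂ)
        + Complex.I * (fderiv ℝ (fun z => (v z).re) z Complex.I : ℂ)
        - s * conj (k z) * ((v z).re : ℂ)))
      + Complex.I / 4 * (((U z 1 : ℂ) - Complex.I * (U z 2 : ℂ) + s * k z * (U z 0 : ℂ))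
      * ((fderiv ℝ (fun z => (v z).im) z 1 : ℂ)
        + Complex.I * (fderiv ℝ (fun z => (v z).im) z Complex.I : ℂ)
        - s * conj (k z) * ((v z).im : ℂ))) := by
    intro z hz
    rw [re_deriv hv1, re_deriv hv1, im_deriv hv1, im_deriv hv1]
    have a1 : ((fderiv ℝ v z 1).re : ℂ) + Complex.I * (fderiv ℝ v z 1).im = fderiv ℝ v z 1 := by
      rw [mul_comm]; exact Complex.re_add_im _
    have a2 : ((fderiv ℝ v z Complex.I).re : ℂ) + Complex.I * (fderiv ℝ v z Complex.I).im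
        = fderiv ℝ v z Complex.I := by
      rw [mul_comm]; exact Complex.re_add_im _
    have a3 : ((v z).re : ℂ) + Complex.I * (v z).im = v z := by
      rw [mul_comm]; exact Complex.re_add_im _
    have b1 : fderiv ℝ v z 1 = gau s ρ z * fderiv ℝ φ z 1
        + gau s ρ z * (Complex.I * (s * (k z * 1).im : ℝ)) * φ z := by
      rw [hvdef]; exact gau_mul_deriv s hρ (hφ.of_le (by norm_num)) hz 1
    have b2 : fderiv ℝ v z Complex.I = gau s ρ z * fderiv ℝ φ z Complex.I
        + gau s ρ z * (Complex.I * (s * (k z * Complex.I).im : ℝ)) * φ z := by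
      rw [hvdef]; exact gau_mul_deriv s hρ (hφ.of_le (by norm_num)) hz Complex.I
    have b3 : v z = gau s ρ z * φ z := by rw [hvdef]
    have c1 : conj (k z) = ((k z).re : ℂ) - Complex.I * (k z).im := by
      apply Complex.ext <;> simp
    have c2 : (k z * 1).im = (k z).im := by simp
    have c3 : (k z * Complex.I).im = (k z).re := by simp
    have hI : Complex.I * Complex.I = -1 := Complex.I_mul_I
    rw [c2] at b1
    rw [c3] at b2
    -- combine
    have d1 : ((U z 1 : ℂ) - Complex.I * (U z 2 : ℂ) + s * k z * (U z 0 : ℂ))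
        * (fderiv ℝ v z 1 + Complex.I * fderiv ℝ v z Complex.I - s * conj (k z) * v z)
        = (((U z 1 : ℂ) - Complex.I * (U z 2 : ℂ) + s * k z * (U z 0 : ℂ))
      * (((fderiv ℝ v z 1).re : ℂ)
        + Complex.I * ((fderiv ℝ v z Complex.I).re : ℂ)
        - s * conj (k z) * ((v z).re : ℂ)))
      + Complex.I * (((U z 1 : ℂ) - Complex.I * (U z 2 : ℂ) + s * k z * (U z 0 : ℂ))
      * (((fderiv ℝ v z 1).im : ℂ)
        + Complex.I * ((fderiv ℝ v z Complex.I).im : ℂ)
        - s * conj (k z) * ((v z).im : ℂ))) := by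
      conv_lhs => rw [← a1, ← a2, ← a3]
      ring
    have d2 : fderiv ℝ v z 1 + Complex.I * fderiv ℝ v z Complex.I - s * conj (k z) * v z
        = gau s ρ z * (2 * (dbar φ z - s * conj (k z) * φ z)) := by
      rw [b1, b2, b3, c1, dbar]
      push_cast
      linear_combination (gau s ρ z * φ z * s * (k z).re) * hI
    have d3 : uf s ρ k U z * (dbar φ z - s * conj (k z) * φ z) = 1 / 4 *
        (((U z 1 : ℂ) - Complex.I * (U z 2 : ℂ) + s * k z * (U z 0 : ℂ))
        * (fderiv ℝ v z 1 + Complex.I * fderiv ℝ v z Complex.I - s * conj (k z) * v z)) := by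
      rw [d2, uf]; ring
    rw [d3, d1]; ring
  have e : ∫ z in Ω, uf s ρ k U z * (dbar φ z - s * conj (k z) * φ z) = ∫ z in Ω, (1 / 4 *
      (((U z 1 : ℂ) - Complex.I * (U z 2 : ℂ) + s * k z * (U z 0 : ℂ))
      * ((fderiv ℝ (fun z => (v z).re) z 1 : ℂ)
        + Complex.I * (fderiv ℝ (fun z => (v z).re) z Complex.I : ℂ)
        - s * conj (k z) * ((v z).re : ℂ)))
      + Complex.I / 4 * (((U z 1 : ℂ) - Complex.I * (U z 2 : ℂ) + s * k z * (U z 0 : ℂ))
      * ((fderiv ℝ (fun z => (v z).im) z 1 : ℂ)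
        + Complex.I * (fderiv ℝ (fun z => (v z).im) z Complex.I : ℂ)
        - s * conj (k z) * ((v z).im : ℂ)))) :=
    setIntegral_congr_fun hΩ.measurableSet key
  rw [e, integral_add (i1.const_mul _) (i2.const_mul _), integral_const_mul, integral_const_mul,
    j1, j2]
  simp

theorem re_memLp {μ : Measure ℂ} {G : ℂ → ℂ} (hG : MemLp G 2 μ) :
    MemLp (fun z => (G z).re) 2 μ :=
  MemLp.of_le hG (Complex.continuous_re.comp_aestronglyMeasurable hG.1)
    (Eventually.of_forall fun z => Complex.abs_re_le_norm _)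

theorem im_memLp {μ : Measure ℂ} {G : ℂ → ℂ} (hG : MemLp G 2 μ) :
    MemLp (fun z => (G z).im) 2 μ :=
  MemLp.of_le hG (Complex.continuous_im.comp_aestronglyMeasurable hG.1)
    (Eventually.of_forall fun z => Complex.abs_im_le_norm _)

theorem ofReal_memLp {μ : Measure ℂ} {f : ℂ → ℝ} (hf : MemLp f 2 μ) :
    MemLp (fun z => (f z : ℂ)) 2 μ :=
  MemLp.of_le hf (Complex.continuous_ofReal.comp_aestronglyMeasurable hf.1)
    (Eventually.of_forall fun z => by simp)

theorem cint_eq {μ : Measure ℂ} {G : ℂ → ℂ} (hG : MemLp G 2 μ) {f : ℂ → ℝ} (hf : MemLp f 2 μ) :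
    ∫ z, G z * (f z : ℂ) ∂μ = ((∫ z, (G z).re * f z ∂μ : ℝ) : ℂ)
      + Complex.I * ((∫ z, (G z).im * f z ∂μ : ℝ) : ℂ) := by
  have i1 : Integrable (fun z => (((G z).re * f z : ℝ) : ℂ)) μ := (int_mul (re_memLp hG) hf).ofReal
  have i2 : Integrable (fun z => Complex.I * (((G z).im * f z : ℝ) : ℂ)) μ :=
    (int_mul (im_memLp hG) hf).ofReal.const_mul _
  have e1 : ∫ z, (((G z).re * f z : ℝ) : ℂ) ∂μ = ((∫ z, (G z).re * f z ∂μ : ℝ) : ℂ) :=
    integral_ofReal
  have e2 : ∫ z, (((G z).im * f z : ℝ) : ℂ) ∂μ = ((∫ z, (G z).im * f z ∂μ : ℝ) : ℂ) :=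
    integral_ofReal
  rw [← e1, ← e2, ← integral_const_mul, ← integral_add i1 i2]
  congr 1
  ext z
  apply Complex.ext <;> simp

theorem cint_lim {μ : Measure ℂ} {G : ℂ → ℂ} (hG : MemLp G 2 μ) {f : ℕ → ℂ → ℝ} {g : ℂ → ℝ}
    (h : L2T μ f g) :
    Tendsto (fun n => ∫ z, G z * (f n z : ℂ) ∂μ) atTop (𝓝 (∫ z, G z * (g z : ℂ) ∂μ)) := by
  simp_rw [cint_eq hG (h.mf _), cint_eq hG h.mg]
  have h1 := (L2T.const (re_memLp hG)).integral_mul h
  have h2 := (L2T.const (im_memLp hG)).integral_mul h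
  exact ((Complex.continuous_ofReal.tendsto _).comp h1).add
    (((Complex.continuous_ofReal.tendsto _).comp h2).const_mul _)

theorem cmul_int {μ : Measure ℂ} {f g : ℂ → ℂ} (hf : MemLp f 2 μ) (hg : MemLp g 2 μ) :
    Integrable (fun z => f z * g z) μ := hf.integrable_mul hg

theorem conj_memLp {μ : Measure ℂ} {G : ℂ → ℂ} (hG : MemLp G 2 μ) :
    MemLp (fun z => conj (G z)) 2 μ :=
  MemLp.of_le hG (Complex.continuous_conj.comp_aestronglyMeasurable hG.1)
    (Eventually.of_forall fun z => by simp)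

theorem gau_meas (hΩ : IsOpen Ω) {ρ : ℂ → ℝ} (s : ℝ)
    (hρ : ∀ z ∈ Ω, HasFDerivAt ρ (imL (k z)) z) :
    AEStronglyMeasurable (gau s ρ) (volume.restrict Ω) := by
  have hc : ContinuousOn ρ Ω := fun z hz => (hρ z hz).continuousAt.continuousWithinAt
  have : ContinuousOn (gau s ρ) Ω := by
    unfold gau
    exact (continuousOn_const.mul (Complex.continuous_ofReal.comp_continuousOn
      (continuousOn_const.mul hc))).cexp
  exact this.aestronglyMeasurable hΩ.measurableSet

theorem bmul_memLp {μ : Measure ℂ} {b f : ℂ → ℂ} (hb : AEStronglyMeasurable b μ) {C : ℝ}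
    (hC : ∀ᵐ z ∂μ, ‖b z‖ ≤ C) (hf : MemLp f 2 μ) : MemLp (fun z => b z * f z) 2 μ := by
  refine MemLp.of_le_mul (c := C) hf (hb.mul hf.1) ?_
  filter_upwards [hC] with z hz
  rw [norm_mul]
  exact mul_le_mul_of_nonneg_right hz (norm_nonneg _)

/-- `uf` is orthogonal to holomorphic functions -/
theorem orth_uf (hΩ : IsOpen Ω) (hk : DifferentiableOn ℂ k Ω) {C : ℝ} (hC : ∀ z ∈ Ω, ‖k z‖ ≤ C)
    {s : ℝ} {U : ℂ → F3} (hU : InH Ω U)
    {ρ : ℂ → ℝ} (hρ : ∀ z ∈ Ω, HasFDerivAt ρ (imL (k z)) z)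
    {g : ℂ → ℂ} (hg : DifferentiableOn ℂ g Ω) (hgL : MemLp g 2 (volume.restrict Ω)) :
    ∫ z in Ω, uf s ρ k U z * conj (g z) = 0 := by
  have hgm := gau_meas hΩ s hρ
  have hkm : AEStronglyMeasurable k (volume.restrict Ω) :=
    hk.continuousOn.aestronglyMeasurable hΩ.measurableSet
  have hkC : ∀ᵐ z ∂(volume.restrict Ω), ‖k z‖ ≤ C := by
    filter_upwards [ae_restrict_mem hΩ.measurableSet] with z hz using hC z hz
  obtain ⟨G, hGdef⟩ : ∃ G : ℂ → ℂ, G = fun z => gau s ρ z * conj (g z) := ⟨_, rfl⟩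
  have hG : MemLp G 2 (volume.restrict Ω) := by
    rw [hGdef]
    exact bmul_memLp hgm (C := 1) (Eventually.of_forall fun z => (gau_norm s ρ z).le)
      (conj_memLp hgL)
  have hkG : MemLp (fun z => k z * G z) 2 (volume.restrict Ω) := bmul_memLp hkm hkC hG
  have expand : ∀ V : ℂ → F3, MemLp V 2 (volume.restrict Ω) →
      ∫ z in Ω, uf s ρ k V z * conj (g z) = 1 / 2 * ((∫ z in Ω, G z * (V z 1 : ℂ))
        - Complex.I * (∫ z in Ω, G z * (V z 2 : ℂ)) + s * ∫ z in Ω, (k z * G z) * (V z 0 : ℂ)) := by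
    intro V hV
    have i1 : Integrable (fun z => G z * (V z 1 : ℂ)) (volume.restrict Ω) :=
      cmul_int hG (ofReal_memLp (comp_memLp hV 1))
    have i2 : Integrable (fun z => Complex.I * (G z * (V z 2 : ℂ))) (volume.restrict Ω) :=
      (cmul_int hG (ofReal_memLp (comp_memLp hV 2))).const_mul _
    have i0 : Integrable (fun z => (s : ℂ) * ((k z * G z) * (V z 0 : ℂ))) (volume.restrict Ω) :=
      (cmul_int hkG (ofReal_memLp (comp_memLp hV 0))).const_mul _
    have i12 : Integrable (fun z => G z * (V z 1 : ℂ) - Complex.I * (G z * (V z 2 : ℂ)))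
      (volume.restrict Ω) := i1.sub i2
    rw [← integral_const_mul, ← integral_const_mul, ← integral_sub i1 i2, ← integral_add i12 i0,
      ← integral_const_mul]
    congr 1
    ext z
    rw [hGdef, uf]
    ring
  obtain ⟨y, hy, hlim⟩ := hU.approx
  have hzero : ∀ n, ∫ z in Ω, uf s ρ k (jet (y n)) z * conj (g z) = 0 := by
    intro n
    have hyc : ContDiff ℝ 1 (fun z => (y n z : ℂ)) := Complex.ofRealCLM.contDiff.comp (hy n).smooth
    have hys : tsupport (fun z => (y n z : ℂ)) ⊆ Ω := by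
      refine subset_trans (closure_mono ?_) (hy n).supp
      intro z hz
      rw [Function.mem_support] at hz ⊢
      intro h; apply hz; simp [h]
    have hycomp : HasCompactSupport (fun z => (y n z : ℂ)) :=
      (hy n).comp.comp_left (g := fun x : ℝ => (x : ℂ)) (by simp)
    obtain ⟨w, hwdef⟩ : ∃ w : ℂ → ℂ, w = fun z => gau s ρ z * (y n z : ℂ) := ⟨_, rfl⟩
    have hw : ContDiff ℝ 1 w := by
      rw [hwdef]; exact gau_mul_smooth hΩ hk s hρ (by norm_num) hyc hys
    have hwc : HasCompactSupport w := by rw [hwdef]; exact hycomp.mul_left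
    have hws : tsupport w ⊆ Ω := by
      refine subset_trans (closure_mono ?_) hys
      intro z hz
      rw [Function.mem_support] at hz ⊢
      intro h; apply hz; simp only [hwdef, h, mul_zero]
    have hcw : ContDiff ℝ 1 (fun z => conj (w z)) := Complex.conjCLE.contDiff.comp hw
    have hcc : HasCompactSupport (fun z => conj (w z)) := hwc.comp_left (g := conj) (by simp)
    have hcs : tsupport (fun z => conj (w z)) ⊆ Ω := by
      refine subset_trans (closure_mono ?_) hws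
      intro z hz
      rw [Function.mem_support] at hz ⊢
      intro h; apply hz; simp [h]
    have hcd : ∀ z e, fderiv ℝ (fun z => conj (w z)) z e = conj (fderiv ℝ w z e) := by
      intro z e
      have h1 : HasFDerivAt w (fderiv ℝ w z) z := (hw.differentiable (by norm_num) z).hasFDerivAt
      have h2 := (Complex.conjCLE.toContinuousLinearMap.hasFDerivAt.comp z h1).fderiv
      have e1 : (fun z => conj (w z)) = Complex.conjCLE.toContinuousLinearMap ∘ w := rfl
      rw [e1, h2]; rfl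
    obtain ⟨-, h0⟩ := holo_ibp hΩ hg hcw hcc hcs
    have h1 := congrArg conj h0
    rw [map_zero, ← integral_conj] at h1
    have hsupp : ∀ z, z ∉ Ω → conj (g z * (fderiv ℝ (fun z => conj (w z)) z 1
        + Complex.I * fderiv ℝ (fun z => conj (w z)) z Complex.I)) = 0 := by
      intro z hz
      have hz' : z ∉ tsupport w := fun h => hz (hws h)
      have h1 : fderiv ℝ w z = 0 :=
        image_eq_zero_of_notMem_tsupport fun h => hz' (tsupport_fderiv_subset ℝ h)
      rw [hcd, hcd, h1]; simp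
    rw [← setIntegral_eq_integral_of_forall_compl_eq_zero hsupp] at h1
    have h2 : ∫ z in Ω, uf s ρ k (jet (y n)) z * conj (g z) = 1 / 2 * ∫ z in Ω,
        conj (g z * (fderiv ℝ (fun z => conj (w z)) z 1
        + Complex.I * fderiv ℝ (fun z => conj (w z)) z Complex.I)) := by
      rw [← integral_const_mul]
      apply setIntegral_congr_fun hΩ.measurableSet
      intro z hz
      simp only
      rw [hcd, hcd]
      simp only [map_mul, map_add, Complex.conj_conj, Complex.conj_I]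
      have hyd : ∀ e, fderiv ℝ (fun z => (y n z : ℂ)) z e = ((fderiv ℝ (y n) z e : ℝ) : ℂ) := by
        intro e
        have h1 : HasFDerivAt (y n) (fderiv ℝ (y n) z) z :=
          ((hy n).smooth.differentiable (by norm_num) z).hasFDerivAt
        have h2 := (Complex.ofRealCLM.hasFDerivAt (x := y n z)).comp z h1
        have h3 : fderiv ℝ (fun z => (y n z : ℂ)) z
          = Complex.ofRealCLM.comp (fderiv ℝ (y n) z) := h2.fderiv
        rw [h3]; rfl
      have b1 : fderiv ℝ w z 1 = gau s ρ z * ((fderiv ℝ (y n) z 1 : ℝ) : ℂ)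
          + gau s ρ z * (Complex.I * (s * (k z * 1).im : ℝ)) * (y n z : ℂ) := by
        rw [hwdef, ← hyd]; exact gau_mul_deriv s hρ hyc hz 1
      have b2 : fderiv ℝ w z Complex.I = gau s ρ z * ((fderiv ℝ (y n) z Complex.I : ℝ) : ℂ)
          + gau s ρ z * (Complex.I * (s * (k z * Complex.I).im : ℝ)) * (y n z : ℂ) := by
        rw [hwdef, ← hyd]; exact gau_mul_deriv s hρ hyc hz Complex.I
      have c2 : (k z * 1).im = (k z).im := by simp
      have c3 : (k z * Complex.I).im = (k z).re := by simp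
      have c4 : k z = ((k z).re : ℂ) + Complex.I * (k z).im := by
        rw [mul_comm]; exact (Complex.re_add_im _).symm
      rw [c2] at b1
      rw [c3] at b2
      have hI : Complex.I * Complex.I = -1 := Complex.I_mul_I
      rw [b1, b2, uf]
      simp only [jet, mk3_0, mk3_1, mk3_2]
      conv_lhs => rw [c4]
      push_cast
      linear_combination (1 / 2 * gau s ρ z * s * (k z).re * (y n z) * conj (g z)) * hI
    rw [h2, h1, mul_zero]
  have hlim' : Tendsto (fun n => ∫ z in Ω, uf s ρ k (jet (y n)) z * conj (g z)) atTop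
      (𝓝 (∫ z in Ω, uf s ρ k U z * conj (g z))) := by
    simp_rw [expand _ (hy _).memLp, expand _ hU.1]
    exact (((cint_lim hG (hlim 1)).sub ((cint_lim hG (hlim 2)).const_mul _)).add
      ((cint_lim hkG (hlim 0)).const_mul _)).const_mul _
  simp_rw [hzero] at hlim'
  exact tendsto_nhds_unique hlim' tendsto_const_nhds

end Pool.Agent.Helper61.KS
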